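import Pool.Agent.helper70.Tori.Quat

/-!
Polygons (staircases) in a plane cone and their holonomy in the unit quaternions.
`er e x = exp (x e)` for a unit complex number `e` (embedded by `io` in `span (i, j)`).
-/

open Quaternion

namespace Pool.Agent.helper70.Tori

/-- `exp (x e)` for unit `e` -/
noncomputable def er (e : ℂ) (x : ℝ) : Quaternion ℝ := ((Real.cos x : ℝ) : Quaternion ℝ) +
  Real.sin x • io e

/-- real inner product of complex numbers -/
noncomputable def ip (z w : ℂ) : ℝ := z.re * w.re + z.im * w.im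

/-- holonomy of the staircase with steps `p.1` in direction `e` and then `p.2` in direction `f` -/
noncomputable def hol (e f : ℂ) : List (ℝ × ℝ) → Quaternion ℝ
  | [] => 1
  | p :: l => er e p.1 * er f p.2 * hol e f l

/-- total displacement in direction `e` -/
def sx (l : List (ℝ × ℝ)) : ℝ := (l.map Prod.fst).sum

/-- total displacement in direction `f` -/
def sy (l : List (ℝ × ℝ)) : ℝ := (l.map Prod.snd).sum

/-- all steps are nonnegative -/
def Nonneg (l : List (ℝ × ℝ)) : Prop := ∀ p ∈ l, 0 ≤ p.1 ∧ 0 ≤ p.2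

/-- real part of `exp (x e) * exp (y f)` where `c = <e, f>` -/
noncomputable def RR (c x y : ℝ) : ℝ :=
  Real.cos x * Real.cos y - c * (Real.sin x * Real.sin y)

@[simp] lemma er_re (e : ℂ) (x : ℝ) : (er e x).re = Real.cos x := by simp [er]
@[simp] lemma er_imI (e : ℂ) (x : ℝ) : (er e x).imI = Real.sin x * e.re := by simp [er]
@[simp] lemma er_imJ (e : ℂ) (x : ℝ) : (er e x).imJ = Real.sin x * e.im := by simp [er]
@[simp] lemma er_imK (e : ℂ) (x : ℝ) : (er e x).imK = 0 := by simp [er]

lemma sq_add_sq {e : ℂ} (he : ‖e‖ = 1) : e.re ^ 2 + e.im ^ 2 = 1 := by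
  have h := Complex.sq_norm e
  rw [he, Complex.normSq_apply] at h
  linarith

lemma norm_er {e : ℂ} (he : ‖e‖ = 1) (x : ℝ) : ‖er e x‖ = 1 := by
  have h1 := norm_sq_eq (er e x)
  have h2 := sq_add_sq he
  simp only [er_re, er_imI, er_imJ, er_imK] at h1
  have h3 := Real.sin_sq_add_cos_sq x
  have h4 : ‖er e x‖ ^ 2 = 1 := by
    rw [h1]
    have : (Real.sin x * e.re) ^ 2 + (Real.sin x * e.im) ^ 2 = Real.sin x ^ 2 := by
      linear_combination (Real.sin x ^ 2) * h2
    nlinarith
  nlinarith [norm_nonneg (er e x)]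

lemma er_zero (e : ℂ) : er e 0 = 1 := by simp [er]

lemma er_add {e : ℂ} (he : ‖e‖ = 1) (x y : ℝ) : er e (x + y) = er e x * er e y := by
  have h2 := sq_add_sq he
  apply Quaternion.ext
  · rw [Quaternion.re_mul]
    simp only [er_re, er_imI, er_imJ, er_imK, Real.cos_add]
    linear_combination (Real.sin x * Real.sin y) * h2
  · rw [Quaternion.imI_mul]
    simp only [er_re, er_imI, er_imJ, er_imK, Real.sin_add]
    ring
  · rw [Quaternion.imJ_mul]
    simp only [er_re, er_imI, er_imJ, er_imK, Real.sin_add]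
    ring
  · rw [Quaternion.imK_mul]
    simp only [er_re, er_imI, er_imJ, er_imK]
    ring

lemma re_er_mul_er (e f : ℂ) (x y : ℝ) : (er e x * er f y).re = RR (ip e f) x y := by
  rw [Quaternion.re_mul]
  simp only [er_re, er_imI, er_imJ, er_imK, RR, ip]
  ring

lemma norm_hol {e f : ℂ} (he : ‖e‖ = 1) (hf : ‖f‖ = 1) (l : List (ℝ × ℝ)) :
    ‖hol e f l‖ = 1 := by
  induction l with
  | nil => simp [hol]
  | cons p l ih => simp [hol, norm_er he, norm_er hf, ih]

lemma hol_append (e f : ℂ) (l m : List (ℝ × ℝ)) : hol e f (l ++ m) = hol e f l * hol e f m := by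
  induction l with
  | nil => simp [hol]
  | cons p l ih => simp [hol, ih, mul_assoc]

lemma sx_append (l m : List (ℝ × ℝ)) : sx (l ++ m) = sx l + sx m := by simp [sx]
lemma sy_append (l m : List (ℝ × ℝ)) : sy (l ++ m) = sy l + sy m := by simp [sy]
lemma sx_cons (p : ℝ × ℝ) (m : List (ℝ × ℝ)) : sx (p :: m) = p.1 + sx m := by simp [sx]
lemma sy_cons (p : ℝ × ℝ) (m : List (ℝ × ℝ)) : sy (p :: m) = p.2 + sy m := by simp [sy]

lemma Nonneg.append {l m : List (ℝ × ℝ)} (hl : Nonneg l) (hm : Nonneg m) : Nonneg (l ++ m) := by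
  intro p hp
  rcases List.mem_append.1 hp with h | h
  · exact hl p h
  · exact hm p h

/-- the real part is invariant under cyclic permutation -/
lemma re_mul_comm' (p q : Quaternion ℝ) : (p * q).re = (q * p).re := by
  rw [Quaternion.re_mul, Quaternion.re_mul]; ring

/-- triangle inequality for the spherical distance to `1` -/
lemma arccos_mul_le {p q : Quaternion ℝ} (hp : ‖p‖ = 1) (hq : ‖q‖ = 1) :
    Real.arccos (p * q).re ≤ Real.arccos p.re + Real.arccos q.re := by
  have hp2 := norm_sq_eq p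
  have hq2 := norm_sq_eq q
  rw [hp] at hp2
  rw [hq] at hq2
  rcases le_total Real.pi (Real.arccos p.re + Real.arccos q.re) with h | h
  · exact (Real.arccos_le_pi _).trans h
  · have hpr : -1 ≤ p.re ∧ p.re ≤ 1 := by
      constructor <;> nlinarith [sq_nonneg p.imI, sq_nonneg p.imJ, sq_nonneg p.imK]
    have hqr : -1 ≤ q.re ∧ q.re ≤ 1 := by
      constructor <;> nlinarith [sq_nonneg q.imI, sq_nonneg q.imJ, sq_nonneg q.imK]
    have hc : Real.cos (Real.arccos p.re + Real.arccos q.re) ≤ (p * q).re := by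
      rw [Real.cos_add, Real.cos_arccos hpr.1 hpr.2, Real.cos_arccos hqr.1 hqr.2,
        Real.sin_arccos, Real.sin_arccos, Quaternion.re_mul]
      have e1 : 1 - p.re ^ 2 = p.imI ^ 2 + p.imJ ^ 2 + p.imK ^ 2 := by linarith
      have e2 : 1 - q.re ^ 2 = q.imI ^ 2 + q.imJ ^ 2 + q.imK ^ 2 := by linarith
      rw [e1, e2, ← Real.sqrt_mul (by positivity)]
      have : p.imI * q.imI + p.imJ * q.imJ + p.imK * q.imK ≤
          Real.sqrt ((p.imI ^ 2 + p.imJ ^ 2 + p.imK ^ 2) *
            (q.imI ^ 2 + q.imJ ^ 2 + q.imK ^ 2)) := by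
        apply Real.le_sqrt_of_sq_le
        nlinarith [sq_nonneg (p.imI * q.imJ - p.imJ * q.imI),
          sq_nonneg (p.imI * q.imK - p.imK * q.imI), sq_nonneg (p.imJ * q.imK - p.imK * q.imJ)]
      linarith
    rw [← Real.arccos_cos (add_nonneg (Real.arccos_nonneg _) (Real.arccos_nonneg _)) h]
    exact Real.arccos_le_arccos hc

end Pool.Agent.helper70.Tori
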