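import Pool.Agent.helper70.Tori.AdmArc
import Pool.Agent.helper3.FlatTorus.Criterion

/-!
Sufficiency for one family with `helper3`'s admissibility condition.
-/

open Quaternion Set

namespace Pool.Agent.helper70.Tori

/-- sufficiency of the explicit inequalities for one arc (condition of `helper3`) -/
theorem sarc_of_adm {e f : ℂ} (he : ‖e‖ = 1) (hf : ‖f‖ = 1) (hef : 0 < cr e f) {ε X Y : ℝ}
    (hε : ε = 1 ∨ ε = -1) (hX : 0 < X) (hY : 0 < Y)
    (h : Pool.Agent.helper3.FlatTorus.Adm ε e f X Y) :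
    Nonempty (SArc e f (X • e + Y • f) ε) := by
  have hin : (inner ℝ e f : ℝ) = ip e f := by
    rw [Complex.inner]; simp [ip]; ring
  have e0 : X • e + Y • f = (X : ℂ) * e + (Y : ℂ) * f := by simp
  rw [e0]
  apply arc_of_adm he hf hef hε
  refine ⟨hX, hY, fun hε' => ?_, fun n hn hn' => ?_⟩
  · rw [← e0]; exact h.1 hε'
  · obtain ⟨h1, h2, h3⟩ := h.2 n hn hn'
    rw [e0, Complex.real_smul] at h1 h2
    refine ⟨h1, h2, fun hx hy => ?_⟩
    have := h3 hx hy
    rw [hin] at this
    exact this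

end Pool.Agent.helper70.Tori
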