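import Pool.Agent.helper70.Tori.Chord
import Pool.Agent.helper71.CT.AdmFinal

/-!
The main inequality for all numbers of turns, and its instance for `helper71`'s strictness theorem.
-/

open Quaternion Set

namespace Pool.Agent.helper70.Tori

open Pool.Agent.helper3.FlatTorus (cross Inner Reach Adm)

/-- the main inequality -/
theorem mainIneq : Pool.Agent.helper71.CT.MainIneq := by
  intro e f he hf l hl N hN hx hy
  exact main_ineq_of he hf (fun l hl hx hy => Pool.Agent.helper71.CT.re_hol_le he hf l hl hx hy)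
    N hN l hl hx hy

/-- necessity for one family, all hypotheses discharged -/
theorem adm_of_reach {e f e₁ f₁ V : ℂ} {ε : ℝ} (he : ‖e‖ = 1)
    (hf : ‖f‖ = 1) (hef : 0 < cross e f) (hin : Inner e f e₁ f₁) (he₁ : ‖e₁‖ = 1)
    (hf₁ : ‖f₁‖ = 1) (hef₁ : 0 < cross e₁ f₁) (hε : ε = 1 ∨ ε = -1) (hr : Reach e₁ f₁ V ε) :
    ∃ X Y : ℝ, 0 < X ∧ 0 < Y ∧ V = X • e + Y • f ∧ Adm ε e f X Y :=
  Pool.Agent.helper71.CT.adm_of_reach_inner mainIneq he hf hef hin he₁ hf₁ hef₁ hε hr

end Pool.Agent.helper70.Tori
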