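import Mathlib

/-!
Global coordinates `z = P(s) + Q(t)` on the plane.
-/

open Set Filter
open scoped Topology ContDiff

namespace Pool.Agent.helper70.Tori

/-- data for the chart: two curves and two functionals separating the directions -/
structure ChartData (P Q dP dQ : ℝ → ℂ) (L₁ L₂ : ℂ →L[ℝ] ℝ) (δ : ℝ) : Prop where
  hδ : 0 < δ
  hP : ∀ s, HasDerivAt P (dP s) s
  hQ : ∀ t, HasDerivAt Q (dQ t) t
  h1P : ∀ s, δ ≤ L₁ (dP s)
  h1Q : ∀ t, δ ≤ L₁ (dQ t)
  h2P : ∀ s, δ ≤ L₂ (dP s)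
  h2Q : ∀ t, L₂ (dQ t) ≤ -δ

lemma growth {x dx : ℝ → ℝ} {δ : ℝ} (hx : ∀ s, HasDerivAt x (dx s) s)
    (h : ∀ s, δ ≤ dx s) {a b : ℝ} (hab : a ≤ b) : x a + δ * (b - a) ≤ x b := by
  have h1 : Monotone (fun s => x s - δ * s) := by
    apply monotone_of_deriv_nonneg
    · intro s
      exact ((hx s).sub ((hasDerivAt_id s).const_mul δ)).differentiableAt
    · intro s
      have := ((hx s).sub ((hasDerivAt_id s).const_mul δ)).deriv
      simp only [id_eq] at this
      rw [show (fun s => x s - δ * s) = x - fun y => δ * y from rfl, this]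
      have := h s
      linarith
  have := h1 hab
  simp only at this
  linarith

lemma surj_of_growth {x dx : ℝ → ℝ} {δ : ℝ} (hδ : 0 < δ) (hx : ∀ s, HasDerivAt x (dx s) s)
    (h : ∀ s, δ ≤ dx s) : Function.Surjective x := by
  have hc : Continuous x := continuous_iff_continuousAt.2 (fun s => (hx s).continuousAt)
  apply hc.surjective
  · apply tendsto_atTop_mono' atTop (f₁ := fun s => x 0 + δ * s)
    · filter_upwards [eventually_ge_atTop 0] with s hs
      have := growth hx h hs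
      simpa using this
    · exact tendsto_atTop_add_const_left _ _ (tendsto_id.const_mul_atTop hδ)
  · apply tendsto_atBot_mono' atBot (f₂ := x) (f₁ := fun s => x 0 + δ * s)
    · filter_upwards [eventually_le_atBot 0] with s hs
      have := growth hx h hs
      linarith
    · exact tendsto_atBot_add_const_left _ _ (tendsto_id.const_mul_atBot hδ)

lemma strictMono_of_growth {x dx : ℝ → ℝ} {δ : ℝ} (hδ : 0 < δ) (hx : ∀ s, HasDerivAt x (dx s) s)
    (h : ∀ s, δ ≤ dx s) : StrictMono x := by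
  intro a b hab
  have := growth hx h hab.le
  nlinarith [sub_pos.2 hab]

namespace ChartData

variable {P Q dP dQ : ℝ → ℂ} {L₁ L₂ : ℂ →L[ℝ] ℝ} {δ : ℝ}

lemma d1P (C : ChartData P Q dP dQ L₁ L₂ δ) (s : ℝ) :
    HasDerivAt (fun s => L₁ (P s)) (L₁ (dP s)) s :=
  L₁.hasFDerivAt.comp_hasDerivAt s (C.hP s)
lemma d2P (C : ChartData P Q dP dQ L₁ L₂ δ) (s : ℝ) :
    HasDerivAt (fun s => L₂ (P s)) (L₂ (dP s)) s :=
  L₂.hasFDerivAt.comp_hasDerivAt s (C.hP s)
lemma d1Q (C : ChartData P Q dP dQ L₁ L₂ δ) (s : ℝ) :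
    HasDerivAt (fun s => L₁ (Q s)) (L₁ (dQ s)) s :=
  L₁.hasFDerivAt.comp_hasDerivAt s (C.hQ s)
lemma d2Q (C : ChartData P Q dP dQ L₁ L₂ δ) (s : ℝ) :
    HasDerivAt (fun s => -L₂ (Q s)) (-L₂ (dQ s)) s :=
  (L₂.hasFDerivAt.comp_hasDerivAt s (C.hQ s)).neg

/-- the differential of the chart map -/
noncomputable def D (dP dQ : ℝ → ℂ) (s t : ℝ) : ℝ × ℝ →L[ℝ] ℂ :=
  (ContinuousLinearMap.fst ℝ ℝ ℝ).smulRight (dP s) +
    (ContinuousLinearMap.snd ℝ ℝ ℝ).smulRight (dQ t)

@[simp] lemma D_apply (dP dQ : ℝ → ℂ) (s t : ℝ) (v : ℝ × ℝ) :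
    D dP dQ s t v = v.1 • dP s + v.2 • dQ t := rfl

lemma D_injective (C : ChartData P Q dP dQ L₁ L₂ δ) (s t : ℝ) {v : ℝ × ℝ}
    (h1 : L₁ (D dP dQ s t v) = 0) (h2 : L₂ (D dP dQ s t v) = 0) : v = 0 := by
  have a1 := C.h1P s
  have a2 := C.h1Q t
  have a3 := C.h2P s
  have a4 := C.h2Q t
  have hδ := C.hδ
  simp only [D_apply, map_add, map_smul, smul_eq_mul] at h1 h2
  have hdet : L₁ (dP s) * L₂ (dQ t) - L₁ (dQ t) * L₂ (dP s) < 0 := by
    have : L₁ (dP s) * L₂ (dQ t) ≤ 0 := by nlinarith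
    have : 0 < L₁ (dQ t) * L₂ (dP s) := by nlinarith
    linarith
  have e1 : v.1 * (L₁ (dP s) * L₂ (dQ t) - L₁ (dQ t) * L₂ (dP s)) = 0 := by
    linear_combination L₂ (dQ t) * h1 - L₁ (dQ t) * h2
  have e2 : v.2 * (L₁ (dP s) * L₂ (dQ t) - L₁ (dQ t) * L₂ (dP s)) = 0 := by
    linear_combination L₁ (dP s) * h2 - L₂ (dP s) * h1
  have f1 : v.1 = 0 := by
    rcases mul_eq_zero.1 e1 with h | h
    · exact h
    · exact absurd h hdet.ne
  have f2 : v.2 = 0 := by
    rcases mul_eq_zero.1 e2 with h | h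
    · exact h
    · exact absurd h hdet.ne
  exact Prod.ext f1 f2

/-- the differential as an equivalence -/
noncomputable def Dequiv (C : ChartData P Q dP dQ L₁ L₂ δ) (s t : ℝ) : (ℝ × ℝ) ≃L[ℝ] ℂ :=
  (LinearEquiv.ofInjectiveOfFinrankEq (D dP dQ s t : ℝ × ℝ →ₗ[ℝ] ℂ)
    ((injective_iff_map_eq_zero _).2 (fun v hv => C.D_injective s t
      (by rw [ContinuousLinearMap.coe_coe] at hv; rw [hv, map_zero])
      (by rw [ContinuousLinearMap.coe_coe] at hv; rw [hv, map_zero])))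
    (by simp)).toContinuousLinearEquiv

lemma Dequiv_coe (C : ChartData P Q dP dQ L₁ L₂ δ) (s t : ℝ) :
    (C.Dequiv s t : (ℝ × ℝ) →L[ℝ] ℂ) = D dP dQ s t := by
  ext <;> rfl

lemma L_injective (C : ChartData P Q dP dQ L₁ L₂ δ) {z : ℂ} (h1 : L₁ z = 0) (h2 : L₂ z = 0) :
    z = 0 := by
  obtain ⟨v, hv⟩ := (C.Dequiv 0 0).surjective z
  have hv' : D dP dQ 0 0 v = z := by
    rw [← hv, ← C.Dequiv_coe]; rfl
  have := C.D_injective 0 0 (v := v) (by rw [hv', h1]) (by rw [hv', h2])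
  rw [← hv', this, map_zero]

lemma inj (C : ChartData P Q dP dQ L₁ L₂ δ) {s t s' t' : ℝ}
    (h : P s + Q t = P s' + Q t') : s = s' ∧ t = t' := by
  have m1P := strictMono_of_growth C.hδ C.d1P C.h1P
  have m1Q := strictMono_of_growth C.hδ C.d1Q C.h1Q
  have m2P := strictMono_of_growth C.hδ C.d2P C.h2P
  have m2Q := strictMono_of_growth C.hδ C.d2Q (fun s => by have := C.h2Q s; linarith)
  have h1 := congrArg L₁ h
  have h2 := congrArg L₂ h
  simp only [map_add] at h1 h2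
  have hs : s = s' := by
    rcases lt_trichotomy s s' with hlt | heq | hlt
    · exfalso
      have a := m1P hlt
      have b := m2P hlt
      simp only at a b
      have c : L₁ (Q t') < L₁ (Q t) := by linarith
      have d : t' < t := m1Q.lt_iff_lt.1 c
      have e := m2Q d
      simp only at e
      linarith
    · exact heq
    · exfalso
      have a := m1P hlt
      have b := m2P hlt
      simp only at a b
      have c : L₁ (Q t) < L₁ (Q t') := by linarith
      have d : t < t' := m1Q.lt_iff_lt.1 c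
      have e := m2Q d
      simp only at e
      linarith
  refine ⟨hs, ?_⟩
  subst hs
  have : L₁ (Q t) = L₁ (Q t') := by linarith
  exact m1Q.injective this

lemma surj (C : ChartData P Q dP dQ L₁ L₂ δ) (z : ℂ) : ∃ s t, P s + Q t = z := by
  have m1Q := strictMono_of_growth C.hδ C.d1Q C.h1Q
  have m2Q := strictMono_of_growth C.hδ C.d2Q (fun s => by have := C.h2Q s; linarith)
  have m1P := strictMono_of_growth C.hδ C.d1P C.h1P
  have s1Q := surj_of_growth C.hδ C.d1Q C.h1Q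
  let e : ℝ ≃o ℝ := StrictMono.orderIsoOfSurjective _ m1Q s1Q
  have he : ∀ t, e t = L₁ (Q t) := fun t => rfl
  let T : ℝ → ℝ := fun s => e.symm (L₁ z - L₁ (P s))
  have hT : ∀ s, L₁ (Q (T s)) = L₁ z - L₁ (P s) := by
    intro s
    rw [← he]
    exact e.apply_symm_apply _
  have hTc : Continuous T := by
    apply e.symm.continuous.comp
    apply continuous_const.sub
    exact continuous_iff_continuousAt.2 (fun s => (C.d1P s).continuousAt)
  have hTanti : Antitone T := by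
    intro a b hab
    apply e.symm.monotone
    have := m1P.monotone hab
    beta_reduce at this
    linarith
  have cQ : Continuous Q := continuous_iff_continuousAt.2 (fun s => (C.hQ s).continuousAt)
  have cP : Continuous P := continuous_iff_continuousAt.2 (fun s => (C.hP s).continuousAt)
  let H : ℝ → ℝ := fun s => L₂ (P s) + L₂ (Q (T s))
  have hHc : Continuous H := by
    have := cQ.comp hTc
    exact (L₂.continuous.comp cP).add (L₂.continuous.comp this)
  have hH : Function.Surjective H := by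
    apply hHc.surjective
    · apply tendsto_atTop_mono' atTop (f₁ := fun s => H 0 + δ * s)
      · filter_upwards [eventually_ge_atTop 0] with s hs
        have a := growth C.d2P C.h2P hs
        have b := m2Q.monotone (hTanti hs)
        beta_reduce at a b
        show L₂ (P 0) + L₂ (Q (T 0)) + δ * s ≤ L₂ (P s) + L₂ (Q (T s))
        linarith
      · exact tendsto_atTop_add_const_left _ _ (tendsto_id.const_mul_atTop C.hδ)
    · apply tendsto_atBot_mono' atBot (f₂ := H) (f₁ := fun s => H 0 + δ * s)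
      · filter_upwards [eventually_le_atBot 0] with s hs
        have a := growth C.d2P C.h2P hs
        have b := m2Q.monotone (hTanti hs)
        beta_reduce at a b
        show L₂ (P s) + L₂ (Q (T s)) ≤ L₂ (P 0) + L₂ (Q (T 0)) + δ * s
        linarith
      · exact tendsto_atBot_add_const_left _ _ (tendsto_id.const_mul_atBot C.hδ)
  obtain ⟨s, hs⟩ := hH (L₂ z)
  refine ⟨s, T s, ?_⟩
  rw [← sub_eq_zero]
  apply C.L_injective
  · rw [map_sub, map_add, hT]; ring
  · rw [map_sub, map_add]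
    simp only [H] at hs
    rw [hs, sub_self]

lemma hasStrictFDerivAt (C : ChartData P Q dP dQ L₁ L₂ δ) (hP : ContDiff ℝ ∞ P)
    (hQ : ContDiff ℝ ∞ Q) (x : ℝ × ℝ) :
    HasStrictFDerivAt (fun x : ℝ × ℝ => P x.1 + Q x.2) (C.Dequiv x.1 x.2 : (ℝ × ℝ) →L[ℝ] ℂ) x := by
  have hF : ContDiff ℝ ∞ (fun x : ℝ × ℝ => P x.1 + Q x.2) :=
    (hP.comp contDiff_fst).add (hQ.comp contDiff_snd)
  have h1 : HasFDerivAt (fun x : ℝ × ℝ => P x.1 + Q x.2) (D dP dQ x.1 x.2) x := by
    have a := (C.hP x.1).hasFDerivAt.comp x (hasFDerivAt_fst (𝕜 := ℝ) (E := ℝ) (F := ℝ) (p := x))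
    have b := (C.hQ x.2).hasFDerivAt.comp x (hasFDerivAt_snd (𝕜 := ℝ) (E := ℝ) (F := ℝ) (p := x))
    refine (a.add b).congr_fderiv ?_
    ext <;> simp [D]
  rw [C.Dequiv_coe]
  exact hF.contDiffAt.hasStrictFDerivAt' h1 (by simp)

/-- the chart -/
theorem exists_chart (C : ChartData P Q dP dQ L₁ L₂ δ) (hP : ContDiff ℝ ∞ P)
    (hQ : ContDiff ℝ ∞ Q) : ∃ g : ℂ → ℝ × ℝ, ContDiff ℝ ∞ g ∧
      (∀ z, P (g z).1 + Q (g z).2 = z) ∧ (∀ s t, g (P s + Q t) = (s, t)) := by
  have hF : ContDiff ℝ ∞ (fun x : ℝ × ℝ => P x.1 + Q x.2) :=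
    (hP.comp contDiff_fst).add (hQ.comp contDiff_snd)
  let e : ℝ × ℝ ≃ ℂ := Equiv.ofBijective (fun x : ℝ × ℝ => P x.1 + Q x.2)
    ⟨fun x y h => by
      obtain ⟨h1, h2⟩ := C.inj h
      exact Prod.ext h1 h2, fun z => by
      obtain ⟨s, t, h⟩ := C.surj z
      exact ⟨(s, t), h⟩⟩
  have hopen : IsOpenMap (fun x : ℝ × ℝ => P x.1 + Q x.2) := by
    rw [isOpenMap_iff_nhds_le]
    intro x
    have := (C.hasStrictFDerivAt hP hQ x).map_nhds_eq_of_equiv
    exact this.ge
  let H : ℝ × ℝ ≃ₜ ℂ := e.toHomeomorphOfContinuousOpen hF.continuous hopen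
  have hH : ContDiff ℝ ∞ (H.symm : ℂ → ℝ × ℝ) := by
    apply H.contDiff_symm (f₀' := fun x => C.Dequiv x.1 x.2)
    · intro x
      exact (C.hasStrictFDerivAt hP hQ x).hasFDerivAt
    · exact hF
  refine ⟨H.symm, hH, ?_, ?_⟩
  · intro z
    exact H.apply_symm_apply z
  · intro s t
    exact H.symm_apply_apply (s, t)

end ChartData

end Pool.Agent.helper70.Tori
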