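import Pool.Agent.helper70.Tori.Quat

/-!
Holonomy of antiperiodic zigzag directions.
-/

open MeasureTheory intervalIntegral Set Quaternion
open scoped Topology ContDiff

namespace Pool.Agent.helper70.Tori

lemma qi_mul_qi : qi * qi = -1 := by
  apply Quaternion.ext <;> simp

/-- powers of a unit quaternion with prescribed real part -/
lemma pow_eq (h : Quaternion ℝ) (hn : ‖h‖ = 1) (N : ℕ) (hN : 1 ≤ N)
    (hre : h.re = -Real.cos (Real.pi / (2 * N))) : h ^ (2 * N) = -1 := by
  have hNr : (1 : ℝ) ≤ N := by exact_mod_cast hN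
  have hpi := Real.pi_pos
  set φ : ℝ := Real.pi - Real.pi / (2 * N) with hφ
  have hφ1 : 0 < Real.pi / (2 * N) := by positivity
  have hφ2 : Real.pi / (2 * N) ≤ Real.pi / 2 := by
    apply div_le_div_of_nonneg_left hpi.le (by norm_num)
    linarith
  have hcos : Real.cos φ = h.re := by rw [hφ, Real.cos_pi_sub, hre]
  have hsin : 0 < Real.sin φ := Real.sin_pos_of_pos_of_lt_pi (by linarith) (by linarith)
  -- the imaginary unit
  let v : Quaternion ℝ := (Real.sin φ)⁻¹ • (h - ((h.re : ℝ) : Quaternion ℝ))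
  have hv0 : v.re = 0 := by simp [v]
  have hnh := norm_sq_eq h
  rw [hn] at hnh
  have hsc := Real.sin_sq_add_cos_sq φ
  have him : h.imI ^ 2 + h.imJ ^ 2 + h.imK ^ 2 = Real.sin φ ^ 2 := by
    rw [← hcos] at hnh
    linarith
  have hvv : v * v = -1 := by
    have hs : Real.sin φ ≠ 0 := hsin.ne'
    apply Quaternion.ext
    · rw [Quaternion.re_mul]
      simp only [hv0, Quaternion.re_neg, Quaternion.re_one]
      simp only [v, Quaternion.imI_smul, Quaternion.imJ_smul, Quaternion.imK_smul,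
        Quaternion.imI_sub, Quaternion.imJ_sub, Quaternion.imK_sub, Quaternion.imI_coe,
        Quaternion.imJ_coe, Quaternion.imK_coe, smul_eq_mul, sub_zero]
      field_simp
      linarith
    · rw [Quaternion.imI_mul]
      simp only [hv0, Quaternion.imI_neg, Quaternion.imI_one]
      ring
    · rw [Quaternion.imJ_mul]
      simp only [hv0, Quaternion.imJ_neg, Quaternion.imJ_one]
      ring
    · rw [Quaternion.imK_mul]
      simp only [hv0, Quaternion.imK_neg, Quaternion.imK_one]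
      ring
  let L : ℂ →ₐ[ℝ] Quaternion ℝ := Complex.lift ⟨v, hvv⟩
  have hL : L (Complex.exp (φ * Complex.I)) = h := by
    rw [Complex.exp_mul_I, ← Complex.ofReal_cos, ← Complex.ofReal_sin]
    have e1 : L ((Real.cos φ : ℂ) + (Real.sin φ : ℂ) * Complex.I) =
        algebraMap ℝ _ (Real.cos φ) + algebraMap ℝ _ (Real.sin φ) * v := by
      rw [map_add, map_mul]
      congr 1
      · exact L.commutes _
      · congr 1
        · exact L.commutes _
        · exact Complex.liftAux_apply_I v hvv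
    rw [e1, hcos]
    simp only [v]
    rw [mul_smul_comm, ← Algebra.smul_def, smul_smul, inv_mul_cancel₀ hsin.ne', one_smul]
    simp
  rw [← hL, ← map_pow, ← Complex.exp_nat_mul]
  have e2 : ((2 * N : ℕ) : ℂ) * (φ * Complex.I) = ((2 * N - 1 : ℕ) : ℂ) * (Real.pi * Complex.I) := by
    rw [hφ]
    have hN0 : (N : ℂ) ≠ 0 := by exact_mod_cast (by omega : N ≠ 0)
    rw [Nat.cast_sub (by omega)]
    push_cast
    field_simp
  rw [e2, Complex.exp_nat_mul, Complex.exp_pi_mul_I]
  have e3 : Odd (2 * N - 1) := ⟨N - 1, by omega⟩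
  rw [e3.neg_one_pow]
  simp

/-- conjugation by `i` -/
noncomputable def tau (q : Quaternion ℝ) : Quaternion ℝ := qi * q * (-qi)

lemma tau_one : tau 1 = 1 := by
  simp [tau, qi_mul_qi]

lemma tau_mul (p q : Quaternion ℝ) : tau (p * q) = tau p * tau q := by
  simp only [tau]
  have : qi * p * -qi * (qi * q * -qi) = qi * p * (-(qi * qi)) * q * (-qi) := by noncomm_ring
  rw [this, qi_mul_qi]
  noncomm_ring

lemma tau_io (z : ℂ) : tau (io z) = io ((starRingEnd ℂ) z) := by
  apply Quaternion.ext <;> simp [tau]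

lemma tau_smul (r : ℝ) (q : Quaternion ℝ) : tau (r • q) = r • tau q := by
  simp [tau]

lemma HasDerivAt.tau {c : ℝ → Quaternion ℝ} {c' : Quaternion ℝ} {s : ℝ}
    (h : HasDerivAt c c' s) : HasDerivAt (fun s => tau (c s)) (tau c') s := by
  unfold Tori.tau
  exact (h.const_mul qi).mul_const (-qi)

/-- zigzag coefficient with direction function `θ` and speed `l` -/
noncomputable def zz (l : ℝ) (θ : ℝ → ℝ) (s : ℝ) : Quaternion ℝ :=
  l • io (Complex.exp (θ s * Complex.I))

lemma norm_zz (l : ℝ) (θ : ℝ → ℝ) (s : ℝ) : ‖zz l θ s‖ = |l| := by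
  rw [zz, norm_smul, norm_io, Complex.norm_exp_ofReal_mul_I, mul_one, Real.norm_eq_abs]

lemma star_zz (l : ℝ) (θ : ℝ → ℝ) (s : ℝ) : star (zz l θ s) = - zz l θ s := by
  rw [zz, Quaternion.star_smul, star_io, smul_neg]

lemma continuous_io : Continuous io := ioL.continuous

lemma contDiff_io {n : WithTop ℕ∞} : ContDiff ℝ n io := ioL.toContinuousLinearMap.contDiff

lemma contDiff_zz {l : ℝ} {θ : ℝ → ℝ} (h : ContDiff ℝ ∞ θ) : ContDiff ℝ ∞ (zz l θ) := by
  unfold zz
  apply ContDiff.const_smul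
  apply contDiff_io.comp
  apply ContDiff.cexp
  exact ((Complex.ofRealCLM.contDiff).comp h).mul contDiff_const

lemma continuous_zz {l : ℝ} {θ : ℝ → ℝ} (h : Continuous θ) : Continuous (zz l θ) := by
  unfold zz
  exact (continuous_io.comp (by fun_prop)).const_smul l

lemma zz_half {l : ℝ} {θ : ℝ → ℝ} (hθ : ∀ s, θ (s + 1/2) = -θ s) (s : ℝ) :
    zz l θ (s + 1/2) = tau (zz l θ s) := by
  rw [zz, zz, tau_smul, tau_io, hθ]
  congr 2
  rw [← Complex.exp_conj]
  simp

lemma Sol.half {l : ℝ} {θ : ℝ → ℝ} {c : ℝ → Quaternion ℝ} (hc : Sol (zz l θ) c)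
    (hθc : Continuous θ) (hθ : ∀ s, θ (s + 1/2) = -θ s) (s : ℝ) :
    c (s + 1/2) = c (1/2) * tau (c s) := by
  have h1 : (fun s => c (s + 1/2)) = fun s => c (1/2) * tau (c s) := by
    have hA : Continuous (fun s => zz l θ (s + 1/2)) := by
      have := continuous_zz (l := l) hθc
      fun_prop
    apply ode_unique hA |l| (fun s => (norm_zz l θ _).le)
    · intro s
      exact (hc.der (s + 1/2)).comp_add_const s (1/2)
    · intro s
      have h2 := (HasDerivAt.tau (hc.der s)).const_mul (c (1/2))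
      refine h2.congr_deriv ?_
      rw [tau_mul, zz_half hθ, mul_assoc]
    · simp only [hc.zero, tau_one, zero_add, mul_one]
  exact congrFun h1 s

lemma Sol.one {l : ℝ} {θ : ℝ → ℝ} {c : ℝ → Quaternion ℝ} (hc : Sol (zz l θ) c)
    (hθc : Continuous θ) (hθ : ∀ s, θ (s + 1/2) = -θ s) :
    c 1 = -(c (1/2) * qi) ^ 2 := by
  have h := hc.half hθc hθ (1/2)
  rw [show (1/2 : ℝ) + 1/2 = 1 by norm_num] at h
  rw [h, tau]
  noncomm_ring

lemma Sol.add_one {l : ℝ} {θ : ℝ → ℝ} {c : ℝ → Quaternion ℝ} (hc : Sol (zz l θ) c)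
    (hθc : Continuous θ) (hθ : ∀ s, θ (s + 1/2) = -θ s) (s : ℝ) :
    c (s + 1) = c 1 * c s := by
  have hper : ∀ s, zz l θ (s + 1) = zz l θ s := by
    intro s
    have : θ (s + 1) = θ s := by
      have h1 := hθ (s + 1/2)
      rw [hθ s, show s + 1/2 + 1/2 = s + 1 by ring] at h1
      rw [h1, neg_neg]
    simp only [zz, this]
  have h1 : (fun s => c (s + 1)) = fun s => c 1 * c s := by
    have hA : Continuous (zz l θ) := continuous_zz (l := l) hθc
    apply ode_unique hA |l| (fun s => (norm_zz l θ _).le)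
    · intro s
      have := (hc.der (s + 1)).comp_add_const s 1
      rwa [hper] at this
    · intro s
      have h2 := (hc.der s).const_mul (c 1)
      refine h2.congr_deriv ?_
      rw [mul_assoc]
    · simp only [hc.zero, zero_add, mul_one]
  exact congrFun h1 s

lemma Sol.add_nat {l : ℝ} {θ : ℝ → ℝ} {c : ℝ → Quaternion ℝ} (hc : Sol (zz l θ) c)
    (hθc : Continuous θ) (hθ : ∀ s, θ (s + 1/2) = -θ s) (N : ℕ) (s : ℝ) :
    c (s + N) = c 1 ^ N * c s := by
  induction N with
  | zero => simp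
  | succ n ih =>
    have : s + ((n + 1 : ℕ) : ℝ) = (s + n) + 1 := by push_cast; ring
    rw [this, hc.add_one hθc hθ, ih, pow_succ', mul_assoc]

/-- the closing condition -/
theorem Sol.closing {l : ℝ} {θ : ℝ → ℝ} {c : ℝ → Quaternion ℝ} (hc : Sol (zz l θ) c)
    (hθc : Continuous θ) (hθ : ∀ s, θ (s + 1/2) = -θ s) {N : ℕ} (hN : Odd N)
    (hx : (c (1/2)).imI = Real.cos (Real.pi / (2 * N))) (s : ℝ) : c (s + N) = c s := by
  rw [hc.add_nat hθc hθ]
  have h1 : c 1 ^ N = 1 := by
    rw [hc.one hθc hθ, hN.neg_pow, ← pow_mul, pow_eq]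
    · simp
    · rw [norm_mul, hc.norm (star_zz l θ)]
      have : ‖qi‖ = 1 := by
        have := norm_sq_eq qi
        simp only [qi_re, qi_imI, qi_imJ, qi_imK] at this
        nlinarith [norm_nonneg qi]
      rw [this, mul_one]
    · exact hN.pos
    · rw [Quaternion.re_mul, hx]
      simp
  rw [h1, one_mul]

end Pool.Agent.helper70.Tori
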