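import Pool.Agent.helper70.Tori.Corner
import Pool.Agent.helper70.Tori.Chart
import Pool.Agent.helper70.Tori.Holonomy

/-!
Signed closed arcs with directions in an open cone and the resulting immersions.
-/

open Quaternion Set
open scoped ContDiff Topology

namespace Pool.Agent.helper70.Tori

/-- smooth periodic arc with velocity in the open cone `(e, f)`, displacement `V` over the
period `T`, whose lift to the unit quaternions is multiplied by `ε` over a period -/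
structure SArc (e f V : ℂ) (ε : ℝ) where
  T : ℝ
  u : ℝ → ℂ
  P : ℝ → ℂ
  c : ℝ → Quaternion ℝ
  hu : ContDiff ℝ ∞ u
  hcone : ∃ δ : ℝ, 0 < δ ∧ ∀ s, ∃ x y : ℝ, δ ≤ x ∧ δ ≤ y ∧ u s = x * e + y * f
  hP : ∀ s, HasDerivAt P (u s) s
  hc : Sol (fun s => io (u s)) c
  hPT : ∀ s, P (s + T) = P s + V
  hcT : ∀ s, c (s + T) = ε • c s

namespace SArc

variable {e f V : ℂ} {ε : ℝ}

lemma contDiff_P (A : SArc e f V ε) : ContDiff ℝ ∞ A.P := by
  rw [contDiff_infty_iff_deriv]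
  refine ⟨fun s => (A.hP s).differentiableAt, ?_⟩
  have : deriv A.P = A.u := funext (fun s => (A.hP s).deriv)
  rw [this]
  exact A.hu

lemma contDiff_c (A : SArc e f V ε) : ContDiff ℝ ∞ A.c :=
  contDiff_of_ode (contDiff_io.comp A.hu) A.hc.der

lemma norm_c (A : SArc e f V ε) (s : ℝ) : ‖A.c s‖ = 1 :=
  A.hc.norm (fun _ => star_io _) s

lemma P_int (A : SArc e f V ε) (n : ℤ) (s : ℝ) : A.P (s + n * A.T) = A.P s + n * V := by
  have hnat : ∀ (n : ℕ) (s : ℝ), A.P (s + n * A.T) = A.P s + n * V := by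
    intro n
    induction n with
    | zero => intro s; simp
    | succ n ih =>
      intro s
      have : s + ((n + 1 : ℕ) : ℝ) * A.T = (s + n * A.T) + A.T := by push_cast; ring
      rw [this, A.hPT, ih]
      push_cast; ring
  obtain ⟨m, rfl | rfl⟩ := n.eq_nat_or_neg
  · exact_mod_cast hnat m s
  · have := hnat m (s + ((-(m : ℤ) : ℤ) : ℝ) * A.T)
    have e1 : s + ((-(m : ℤ) : ℤ) : ℝ) * A.T + m * A.T = s := by push_cast; ring
    rw [e1] at this
    rw [this]; push_cast; ring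

lemma c_int (A : SArc e f V ε) (hε : ε = 1 ∨ ε = -1) (n : ℤ) (s : ℝ) :
    A.c (s + n * A.T) = (ε ^ n) • A.c s := by
  have hnat : ∀ (n : ℕ) (s : ℝ), A.c (s + n * A.T) = (ε ^ n) • A.c s := by
    intro n
    induction n with
    | zero => intro s; simp
    | succ n ih =>
      intro s
      have : s + ((n + 1 : ℕ) : ℝ) * A.T = (s + n * A.T) + A.T := by push_cast; ring
      rw [this, A.hcT, ih, smul_smul, pow_succ']
  have hε0 : ε ≠ 0 := by rcases hε with h | h <;> rw [h] <;> norm_num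
  obtain ⟨m, rfl | rfl⟩ := n.eq_nat_or_neg
  · exact_mod_cast hnat m s
  · have := hnat m (s + ((-(m : ℤ) : ℤ) : ℝ) * A.T)
    have e1 : s + ((-(m : ℤ) : ℤ) : ℝ) * A.T + m * A.T = s := by push_cast; ring
    rw [e1] at this
    rw [this, smul_smul, zpow_neg, zpow_natCast, inv_mul_cancel₀ (pow_ne_zero _ hε0), one_smul]

end SArc

/-- the anti-automorphism fixing `i` and `j` -/
noncomputable def sigF (q : Quaternion ℝ) : Quaternion ℝ := ⟨q.re, q.imI, q.imJ, -q.imK⟩

@[simp] lemma sigF_re (q : Quaternion ℝ) : (sigF q).re = q.re := rfl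
@[simp] lemma sigF_imI (q : Quaternion ℝ) : (sigF q).imI = q.imI := rfl
@[simp] lemma sigF_imJ (q : Quaternion ℝ) : (sigF q).imJ = q.imJ := rfl
@[simp] lemma sigF_imK (q : Quaternion ℝ) : (sigF q).imK = -q.imK := rfl

lemma sigF_mul (p q : Quaternion ℝ) : sigF (p * q) = sigF q * sigF p := by
  apply Quaternion.ext
  · rw [sigF_re, Quaternion.re_mul, Quaternion.re_mul]; simp; ring
  · rw [sigF_imI, Quaternion.imI_mul, Quaternion.imI_mul]; simp; ring
  · rw [sigF_imJ, Quaternion.imJ_mul, Quaternion.imJ_mul]; simp; ring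
  · rw [sigF_imK, Quaternion.imK_mul, Quaternion.imK_mul]; simp; ring

lemma sigF_io (z : ℂ) : sigF (io z) = io z := by
  apply Quaternion.ext <;> simp

lemma norm_sigF (q : Quaternion ℝ) : ‖sigF q‖ = ‖q‖ := by
  have h1 := norm_sq_eq (sigF q)
  have h2 := norm_sq_eq q
  simp only [sigF_re, sigF_imI, sigF_imJ, sigF_imK] at h1
  have h3 : ‖sigF q‖ ^ 2 = ‖q‖ ^ 2 := by rw [h1, h2]; ring
  exact (sq_eq_sq₀ (norm_nonneg _) (norm_nonneg _)).1 h3

/-- as a linear isometry -/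
noncomputable def sig : Quaternion ℝ →ₗᵢ[ℝ] Quaternion ℝ where
  toFun := sigF
  map_add' p q := by
    apply Quaternion.ext <;> simp
    ring
  map_smul' r q := by
    apply Quaternion.ext <;> simp
  norm_map' q := norm_sigF q

lemma hasDerivAt_sig {c : ℝ → Quaternion ℝ} {c' : Quaternion ℝ} {s : ℝ}
    (h : HasDerivAt c c' s) : HasDerivAt (fun s => sigF (c s)) (sigF c') s :=
  sig.toContinuousLinearMap.hasFDerivAt.comp_hasDerivAt s h

/-- coordinate functionals for the basis `(e, f)` -/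
noncomputable def Lx (e f : ℂ) : ℂ →L[ℝ] ℝ :=
  (cr e f)⁻¹ • (f.im • Complex.reCLM - f.re • Complex.imCLM)

noncomputable def Ly (e f : ℂ) : ℂ →L[ℝ] ℝ :=
  (cr e f)⁻¹ • (e.re • Complex.imCLM - e.im • Complex.reCLM)

lemma Lx_apply {e f : ℂ} (h : cr e f ≠ 0) (x y : ℝ) : Lx e f (x * e + y * f) = x := by
  simp [Lx]
  rw [inv_mul_eq_div, div_eq_iff h, cr]
  ring

lemma Ly_apply {e f : ℂ} (h : cr e f ≠ 0) (x y : ℝ) : Ly e f (x * e + y * f) = y := by
  simp [Ly]
  rw [inv_mul_eq_div, div_eq_iff h, cr]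
  ring

theorem immersion_of_sarcs {e f V₁ V₂ : ℂ} {ε₁ ε₂ : ℝ} (hef : cr e f ≠ 0)
    (h₁ : ε₁ = 1 ∨ ε₁ = -1) (h₂ : ε₂ = 1 ∨ ε₂ = -1)
    (A : SArc e f V₁ ε₁) (B : SArc f (-e) V₂ ε₂) :
    ∃ F : ℂ → Quaternion ℝ, ContDiff ℝ ∞ F ∧ (∀ z, ‖F z‖ = 1) ∧
      (∀ z w, ‖fderiv ℝ F z w‖ = ‖w‖) ∧
      (∀ z (m n : ℤ), ε₁ ^ m * ε₂ ^ n = 1 → F (z + (m * V₁ + n * V₂)) = F z) := by
  obtain ⟨δ₁, hδ₁, hA⟩ := A.hcone
  obtain ⟨δ₂, hδ₂, hB⟩ := B.hcone
  let P := A.P
  let Q := B.P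
  have CD : ChartData P Q A.u B.u (Ly e f) (Lx e f) (min δ₁ δ₂) := by
    refine ⟨lt_min hδ₁ hδ₂, A.hP, B.hP, ?_, ?_, ?_, ?_⟩
    · intro s
      obtain ⟨x, y, hx, hy, h⟩ := hA s
      rw [h, Ly_apply hef]
      exact (min_le_left _ _).trans hy
    · intro s
      obtain ⟨x, y, hx, hy, h⟩ := hB s
      have : (x : ℂ) * f + (y : ℂ) * -e = ((-y : ℝ) : ℂ) * e + (x : ℂ) * f := by
        push_cast; ring
      rw [h, this, Ly_apply hef]
      exact (min_le_right _ _).trans hx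
    · intro s
      obtain ⟨x, y, hx, hy, h⟩ := hA s
      rw [h, Lx_apply hef]
      exact (min_le_left _ _).trans hx
    · intro s
      obtain ⟨x, y, hx, hy, h⟩ := hB s
      have : (x : ℂ) * f + (y : ℂ) * -e = ((-y : ℝ) : ℂ) * e + (x : ℂ) * f := by
        push_cast; ring
      rw [h, this, Lx_apply hef]
      have := (min_le_right δ₁ δ₂).trans hy
      linarith
  have hPs : ContDiff ℝ ∞ P := A.contDiff_P
  have hQs : ContDiff ℝ ∞ Q := B.contDiff_P
  obtain ⟨g, hg, hg1, hg2⟩ := CD.exists_chart hPs hQs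
  let c : ℝ → Quaternion ℝ := A.c
  let d : ℝ → Quaternion ℝ := fun t => sigF (B.c t)
  have hc : ∀ s, HasDerivAt c (c s * io (A.u s)) s := A.hc.der
  have hd : ∀ t, HasDerivAt d (io (B.u t) * d t) t := by
    intro t
    have h3 := hasDerivAt_sig (B.hc.der t)
    refine h3.congr_deriv ?_
    rw [sigF_mul, sigF_io]
  have hcs : ContDiff ℝ ∞ c := A.contDiff_c
  have hds : ContDiff ℝ ∞ d := sig.toContinuousLinearMap.contDiff.comp B.contDiff_c
  let F : ℝ × ℝ → Quaternion ℝ := fun x => c x.1 * d x.2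
  have hF : ContDiff ℝ ∞ F := (hcs.comp contDiff_fst).mul (hds.comp contDiff_snd)
  let G : ℂ → Quaternion ℝ := fun z => F (g z)
  have hG : ContDiff ℝ ∞ G := hF.comp hg
  have hGD : Differentiable ℝ G := hG.differentiable (by simp)
  have hnc : ∀ s, ‖c s‖ = 1 := A.norm_c
  have hnd : ∀ s, ‖d s‖ = 1 := fun s => by
    simp only [d]; rw [norm_sigF]; exact B.norm_c s
  have key : ∀ (s t : ℝ) (w : ℂ), fderiv ℝ G (P s + Q t) w = c s * io w * d t := by
    intro s t w
    have hFd : HasFDerivAt F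
        ((ContinuousLinearMap.fst ℝ ℝ ℝ).smulRight (c s * io (A.u s) * d t) +
          (ContinuousLinearMap.snd ℝ ℝ ℝ).smulRight (c s * (io (B.u t) * d t))) (s, t) := by
      have e1 : HasFDerivAt (c ∘ (Prod.fst : ℝ × ℝ → ℝ)) _ (s, t) :=
        HasFDerivAt.comp (g := c) (s, t) (hc s).hasFDerivAt
          (hasFDerivAt_fst (𝕜 := ℝ) (E := ℝ) (F := ℝ) (p := (s, t)))
      have e2 : HasFDerivAt (d ∘ (Prod.snd : ℝ × ℝ → ℝ)) _ (s, t) :=
        HasFDerivAt.comp (g := d) (s, t) (hd t).hasFDerivAt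
          (hasFDerivAt_snd (𝕜 := ℝ) (E := ℝ) (F := ℝ) (p := (s, t)))
      refine (e1.mul' e2).congr_fderiv ?_
      ext <;> simp [mul_assoc]
    have hΦ := (CD.hasStrictFDerivAt hPs hQs (s, t)).hasFDerivAt
    have hcomp : HasFDerivAt (G ∘ (fun x : ℝ × ℝ => P x.1 + Q x.2)) _ (s, t) :=
      HasFDerivAt.comp (g := G) (s, t) (hGD (P s + Q t)).hasFDerivAt hΦ
    have hEq : (G ∘ (fun x : ℝ × ℝ => P x.1 + Q x.2)) = F := by
      funext x
      simp only [G, Function.comp]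
      rw [hg2]
    rw [hEq] at hcomp
    have huniq := hcomp.unique hFd
    obtain ⟨v, hv⟩ := (CD.Dequiv s t).surjective w
    have hv' : v.1 • A.u s + v.2 • B.u t = w := by
      rw [← hv, ← ContinuousLinearEquiv.coe_coe, CD.Dequiv_coe]
      rfl
    have h5 := DFunLike.congr_fun huniq v
    have h6 : (fderiv ℝ G (P s + Q t)) w = v.1 • (c s * io (A.u s) * d t) +
        v.2 • (c s * (io (B.u t) * d t)) := by
      rw [← hv]
      exact h5
    have alg : ∀ (p q A B : Quaternion ℝ) (x y : ℝ), x • (p * A * q) + y • (p * (B * q)) =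
        p * (x • A + y • B) * q := by
      intro p q A B x y
      rw [mul_add, add_mul, mul_smul_comm, mul_smul_comm, smul_mul_assoc, smul_mul_assoc,
        mul_assoc p B q]
    rw [h6, alg, ← map_smul, ← map_smul, ← map_add, hv']
  refine ⟨G, hG, ?_, ?_, ?_⟩
  · intro z
    simp only [G, F]
    rw [norm_mul, hnc, hnd, mul_one]
  · intro z w
    rw [← hg1 z, key, norm_mul, norm_mul, hnc, hnd, norm_io, one_mul, mul_one]
  · intro z m n hmn
    have e1 : z + (m * V₁ + n * V₂) = P ((g z).1 + m * A.T) + Q ((g z).2 + n * B.T) := by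
      rw [show P ((g z).1 + m * A.T) = P (g z).1 + m * V₁ from A.P_int m _,
        show Q ((g z).2 + n * B.T) = Q (g z).2 + n * V₂ from B.P_int n _]
      nth_rewrite 1 [← hg1 z]
      ring
    simp only [G, F]
    rw [e1, hg2]
    simp only [c, d]
    rw [A.c_int h₁, B.c_int h₂]
    have e2 : sigF ((ε₂ ^ n) • B.c (g z).2) = (ε₂ ^ n) • sigF (B.c (g z).2) := sig.map_smul _ _
    rw [e2, smul_mul_smul_comm, hmn, one_smul]

end Pool.Agent.helper70.Tori
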