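import Pool.Agent.helper70.Tori.SymArc

/-!
From the explicit inequalities to closed smooth arcs in the open cone.
-/

open Quaternion Set Filter
open scoped Topology

namespace Pool.Agent.helper70.Tori

lemma sq_norm' (z : ℂ) : ‖z‖ ^ 2 = z.re ^ 2 + z.im ^ 2 := by
  rw [Complex.sq_norm, Complex.normSq_apply]; ring

lemma InC.of_cr {e f v : ℂ} (hef : 0 < cr e f) (h1 : 0 < cr e v) (h2 : 0 < cr v f) :
    InC e f v := by
  refine ⟨cr v f / cr e f, cr e v / cr e f, by positivity, by positivity, ?_⟩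
  have h := hef.ne'
  have h3 : ((cr e f : ℝ) : ℂ) ≠ 0 := by exact_mod_cast h
  have key : ((cr e f : ℝ) : ℂ) * v = ((cr v f : ℝ) : ℂ) * e + ((cr e v : ℝ) : ℂ) * f := by
    apply Complex.ext
    · simp [cr]; ring
    · simp [cr]; ring
  push_cast
  field_simp
  rw [mul_comm]
  exact key

lemma InC.cr_left {e f v : ℂ} (hv : InC e f v) (hef : 0 < cr e f) : 0 < cr e v := by
  obtain ⟨x, y, hx, hy, rfl⟩ := hv
  have : cr e (x * e + y * f) = y * cr e f := by simp [cr]; ring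
  rw [this]; positivity

lemma InC.cr_right {e f v : ℂ} (hv : InC e f v) (hef : 0 < cr e f) : 0 < cr v f := by
  obtain ⟨x, y, hx, hy, rfl⟩ := hv
  have : cr (x * e + y * f) f = x * cr e f := by simp [cr]; ring
  rw [this]; positivity

lemma InC.add {e f v w : ℂ} (hv : InC e f v) (hw : InC e f w) : InC e f (v + w) := by
  obtain ⟨x, y, hx, hy, rfl⟩ := hv
  obtain ⟨x', y', hx', hy', rfl⟩ := hw
  exact ⟨x + x', y + y', by positivity, by positivity, by push_cast; ring⟩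

lemma InC.smul {e f v : ℂ} (hv : InC e f v) {t : ℝ} (ht : 0 < t) : InC e f (t * v) := by
  obtain ⟨x, y, hx, hy, rfl⟩ := hv
  exact ⟨t * x, t * y, by positivity, by positivity, by push_cast; ring⟩

lemma InC.trans_left {e f v w : ℂ} (hw : InC e f w) (hv : InC e w v) : InC e f v := by
  obtain ⟨x, y, hx, hy, rfl⟩ := hw
  obtain ⟨x', y', hx', hy', rfl⟩ := hv
  exact ⟨x' + y' * x, y' * y, by positivity, by positivity, by push_cast; ring⟩

lemma InC.trans_right {e f v w : ℂ} (hw : InC e f w) (hv : InC w f v) : InC e f v := by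
  obtain ⟨x, y, hx, hy, rfl⟩ := hw
  obtain ⟨x', y', hx', hy', rfl⟩ := hv
  exact ⟨x' * x, x' * y + y', by positivity, by positivity, by push_cast; ring⟩

/-- isosceles corners -/
lemma exists_iso {e f w : ℂ} (he : ‖e‖ = 1) (hf : ‖f‖ = 1) (hef : 0 < cr e f) (hw : InC e f w)
    {c : ℝ} (hc0 : 0 < c) (hc1 : c < 1) (h1 : ip w e < ‖w‖ * c) (h2 : ip w f < ‖w‖ * c) :
    ∃ a b, InC e f a ∧ InC e f b ∧ a + b = w ∧ ‖a‖ = ‖w‖ / (2 * c) ∧ ‖b‖ = ‖w‖ / (2 * c) ∧
      RC a b = 1 - 2 * c ^ 2 * Real.sin (‖w‖ / (2 * c)) ^ 2 := by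
  have hw0 := hw.ne_zero hef.ne'
  have hwn : 0 < ‖w‖ := norm_pos_iff.2 hw0
  have hwsq := sq_norm' w
  have hs : 0 < 1 - c ^ 2 := by nlinarith
  set t : ℝ := Real.sqrt (1 - c ^ 2) / c with ht
  have ht0 : 0 < t := div_pos (Real.sqrt_pos.2 hs) hc0
  have ht2 : t ^ 2 = 1 / c ^ 2 - 1 := by
    rw [ht, div_pow, Real.sq_sqrt hs.le]; field_simp
  have ht2' : (1 + t ^ 2) * c ^ 2 = 1 := by rw [ht2]; field_simp; ring
  have hsqe := sq_add_sq he
  have hsqf := sq_add_sq hf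
  have key : ∀ p q : ℝ, 0 < q → p < ‖w‖ * c → p ^ 2 + q ^ 2 = ‖w‖ ^ 2 → t * p < q := by
    intro p q hq hp hpq
    rcases le_or_gt p 0 with h0 | h0
    · linarith [mul_nonneg ht0.le (neg_nonneg.2 h0), mul_neg t p]
    · by_contra hcon
      push Not at hcon
      have h3 : q ^ 2 ≤ (t * p) ^ 2 := by
        apply pow_le_pow_left₀ hq.le hcon
      have h4 : ‖w‖ ^ 2 ≤ (1 + t ^ 2) * p ^ 2 := by nlinarith
      have h5 : ‖w‖ ^ 2 * c ^ 2 ≤ p ^ 2 := by
        calc ‖w‖ ^ 2 * c ^ 2 ≤ (1 + t ^ 2) * p ^ 2 * c ^ 2 := by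
              apply mul_le_mul_of_nonneg_right h4 (by positivity)
          _ = p ^ 2 := by linear_combination (p ^ 2) * ht2'
      have h6 : p ^ 2 < (‖w‖ * c) ^ 2 := by
        apply pow_lt_pow_left₀ hp h0.le (by norm_num)
      nlinarith
  have he1 : t * ip w e < cr e w := by
    apply key _ _ (hw.cr_left hef) h1
    rw [hwsq]
    simp only [ip, cr]
    linear_combination (w.re ^ 2 + w.im ^ 2) * hsqe
  have hf1 : t * ip w f < cr w f := by
    apply key _ _ (hw.cr_right hef) h2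
    rw [hwsq]
    simp only [ip, cr]
    linear_combination (w.re ^ 2 + w.im ^ 2) * hsqf
  set a : ℂ := ⟨(w.re + t * w.im) / 2, (w.im - t * w.re) / 2⟩ with ha
  set b : ℂ := ⟨(w.re - t * w.im) / 2, (w.im + t * w.re) / 2⟩ with hb
  have ha1 : InC e f a := by
    apply hw.trans_left
    apply InC.of_cr (hw.cr_left hef)
    · have : cr e a = (cr e w - t * ip w e) / 2 := by simp only [cr, ip, ha]; ring
      rw [this]; linarith
    · have : cr a w = t * ‖w‖ ^ 2 / 2 := by rw [hwsq]; simp only [cr, ha]; ring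
      rw [this]; positivity
  have hb1 : InC e f b := by
    apply hw.trans_right
    apply InC.of_cr (hw.cr_right hef)
    · have : cr w b = t * ‖w‖ ^ 2 / 2 := by rw [hwsq]; simp only [cr, hb]; ring
      rw [this]; positivity
    · have : cr b f = (cr w f - t * ip w f) / 2 := by simp only [cr, ip, hb]; ring
      rw [this]; linarith
  have hr : 0 < ‖w‖ / (2 * c) := by positivity
  have han : ‖a‖ = ‖w‖ / (2 * c) := by
    have h3 : ‖a‖ ^ 2 = (‖w‖ / (2 * c)) ^ 2 := by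
      rw [sq_norm', div_pow ‖w‖, hwsq]
      simp only [ha]
      have : (w.re ^ 2 + w.im ^ 2) / (2 * c) ^ 2 = (w.re ^ 2 + w.im ^ 2) * (1 + t ^ 2) / 4 := by
        rw [ht2]; field_simp; ring
      rw [this]; ring
    have h4 := abs_eq_abs.2 (sq_eq_sq_iff_eq_or_eq_neg.1 h3)
    rwa [abs_of_nonneg (norm_nonneg a), abs_of_pos hr] at h4
  have hbn : ‖b‖ = ‖w‖ / (2 * c) := by
    have h3 : ‖b‖ ^ 2 = (‖w‖ / (2 * c)) ^ 2 := by
      rw [sq_norm', div_pow ‖w‖, hwsq]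
      simp only [hb]
      have : (w.re ^ 2 + w.im ^ 2) / (2 * c) ^ 2 = (w.re ^ 2 + w.im ^ 2) * (1 + t ^ 2) / 4 := by
        rw [ht2]; field_simp; ring
      rw [this]; ring
    have h4 := abs_eq_abs.2 (sq_eq_sq_iff_eq_or_eq_neg.1 h3)
    rwa [abs_of_nonneg (norm_nonneg b), abs_of_pos hr] at h4
  refine ⟨a, b, ha1, hb1, ?_, han, hbn, ?_⟩
  · apply Complex.ext
    · simp only [Complex.add_re, ha, hb]; ring
    · simp only [Complex.add_im, ha, hb]; ring
  · have hip : ip a b = (‖w‖ / (2 * c)) ^ 2 * (2 * c ^ 2 - 1) := by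
      have : (‖w‖ / (2 * c)) ^ 2 * (2 * c ^ 2 - 1) = (w.re ^ 2 + w.im ^ 2) * (1 - t ^ 2) / 4 := by
        rw [div_pow, hwsq, ht2]; field_simp; ring
      rw [this]
      simp only [ip, ha, hb]; ring
    rw [RC, han, hbn, hip]
    set r := ‖w‖ / (2 * c) with hrdef
    have hcs := Real.sin_sq_add_cos_sq r
    field_simp
    linear_combination hcs

/-- moving a boundary corner into the open cone -/
lemma perturb {e f a b : ℂ} (ha : a ≠ 0) (hb : b ≠ 0)
    (h1 : ∀ δ : ℝ, 0 < δ → δ < 1 → InC e f (((1 - δ : ℝ) : ℂ) * a + (δ : ℂ) * b) ∧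
      InC e f ((δ : ℂ) * a + ((1 - δ : ℝ) : ℂ) * b)) {τ : ℝ} (h : τ < RC a b) :
    ∃ a' b', InC e f a' ∧ InC e f b' ∧ a' + b' = a + b ∧ τ < RC a' b' := by
  set g : ℝ → ℝ := fun δ => RC (((1 - δ : ℝ) : ℂ) * a + (δ : ℂ) * b)
    ((δ : ℂ) * a + ((1 - δ : ℝ) : ℂ) * b) with hg
  have hg0 : g 0 = RC a b := by simp [hg]
  have hcA : ContinuousAt (fun δ : ℝ => ((1 - δ : ℝ) : ℂ) * a + (δ : ℂ) * b) 0 := by fun_prop
  have hcB : ContinuousAt (fun δ : ℝ => (δ : ℂ) * a + ((1 - δ : ℝ) : ℂ) * b) 0 := by fun_prop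
  have hgc : ContinuousAt g 0 := by
    have hA0 : ‖((1 - (0:ℝ) : ℝ) : ℂ) * a + ((0:ℝ) : ℂ) * b‖ ≠ 0 := by simpa using ha
    have hB0 : ‖((0:ℝ) : ℂ) * a + ((1 - (0:ℝ) : ℝ) : ℂ) * b‖ ≠ 0 := by simpa using hb
    have c1 := Real.continuous_cos.continuousAt.comp hcA.norm
    have c2 := Real.continuous_cos.continuousAt.comp hcB.norm
    have s1 := (Real.continuous_sin.continuousAt.comp hcA.norm).div hcA.norm hA0
    have s2 := (Real.continuous_sin.continuousAt.comp hcB.norm).div hcB.norm hB0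
    have i1 : ContinuousAt (fun δ : ℝ => ip (((1 - δ : ℝ) : ℂ) * a + (δ : ℂ) * b)
        ((δ : ℂ) * a + ((1 - δ : ℝ) : ℂ) * b)) 0 := by
      unfold ip
      exact ((Complex.continuous_re.continuousAt.comp hcA).mul
        (Complex.continuous_re.continuousAt.comp hcB)).add
        ((Complex.continuous_im.continuousAt.comp hcA).mul
        (Complex.continuous_im.continuousAt.comp hcB))
    exact (c1.mul c2).sub ((s1.mul s2).mul i1)
  have hev : ∀ᶠ δ in 𝓝[>] (0:ℝ), τ < g δ := by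
    have : ∀ᶠ δ in 𝓝 (0:ℝ), τ < g δ := hgc.eventually (lt_mem_nhds (by rw [hg0]; exact h))
    exact this.filter_mono nhdsWithin_le_nhds
  have hev2 : ∀ᶠ δ in 𝓝[>] (0:ℝ), δ ∈ Ioo (0:ℝ) 1 := Ioo_mem_nhdsGT (by norm_num)
  obtain ⟨δ, h2, h3⟩ := (hev.and hev2).exists
  obtain ⟨h4, h5⟩ := h1 δ h3.1 h3.2
  exact ⟨_, _, h4, h5, by push_cast; ring, h2⟩

lemma aux_pos {δ p q : ℝ} (h0 : 0 < δ) (h1 : δ < 1) (hp : 0 < p) (hq : 0 < q) :
    0 < (1 - δ) * p + δ * q :=
  add_pos (mul_pos (sub_pos.2 h1) hp) (mul_pos h0 hq)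

lemma aux_pos' {δ p q : ℝ} (h0 : 0 < δ) (h1 : δ < 1) (hp : 0 < p) (hq : 0 < q) :
    0 < δ * p + (1 - δ) * q :=
  add_pos (mul_pos h0 hp) (mul_pos (sub_pos.2 h1) hq)

lemma aux_ge {a b : ℝ} (h : a ^ 2 + b ^ 2 = 1) : -1 ≤ b := by nlinarith

lemma aux_bound (d L H : ℝ) (hd2 : d ^ 2 = (L - Real.pi) ^ 2 + H ^ 2) (hL1 : 0 < L)
    (hL2 : L ≤ 3 / 2 * Real.pi) (hH : H ^ 2 ≤ Real.pi ^ 2) : d < 3 / 2 * Real.pi := by
  have hpi := Real.pi_pos
  have h1 : (L - Real.pi) ^ 2 ≤ Real.pi ^ 2 := by nlinarith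
  have h2 : d ^ 2 < (3 / 2 * Real.pi) ^ 2 := by nlinarith
  exact lt_of_pow_lt_pow_left₀ 2 (by positivity) h2

lemma aux_bound' (m d L : ℝ) (hm : 0 ≤ m) (hm' : m ≤ 3 / 2 * Real.pi)
    (hd2 : d ^ 2 = m ^ 2 - 2 * Real.pi * L + Real.pi ^ 2)
    (hL : 0.7 * m ≤ L) : d < 3 / 2 * Real.pi := by
  have hpi := Real.pi_pos
  have h2 : d ^ 2 < (3 / 2 * Real.pi) ^ 2 := by
    have h3 : d ^ 2 ≤ m ^ 2 - 1.4 * Real.pi * m + Real.pi ^ 2 := by
      rw [hd2]; nlinarith
    have h4 : m ^ 2 ≤ 3 / 2 * Real.pi * m := by nlinarith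
    have h5 : m * Real.pi ≤ 3 / 2 * Real.pi ^ 2 := by nlinarith
    nlinarith
  exact lt_of_pow_lt_pow_left₀ 2 (by positivity) h2

lemma aux_sq_le {x c : ℝ} (hx : 0 < x) (hx' : x ≤ Real.pi) (hc : c ^ 2 ≤ 1) :
    (x * c) ^ 2 ≤ Real.pi ^ 2 := by
  have h2 : x ^ 2 ≤ Real.pi ^ 2 := by nlinarith
  rw [mul_pow]
  calc x ^ 2 * c ^ 2 ≤ x ^ 2 * 1 := mul_le_mul_of_nonneg_left hc (sq_nonneg x)
    _ ≤ _ := by linarith

lemma aux_lt {x y c : ℝ} (hx : 0 < x) (hx' : x ≤ Real.pi) (hy : Real.pi < y) (hc : -1 ≤ c) :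
    0 < x * c + y := by nlinarith

lemma aux_lt' {x y c : ℝ} (hy : 0 < y) (hy' : y ≤ Real.pi) (hx : Real.pi < x) (hc : -1 ≤ c) :
    0 < x + y * c := by nlinarith

lemma aux_iso {s c : ℝ} (hs : s ^ 2 ≤ 1) (hc : 0 ≤ c) : -c < 1 - 2 * 0.7 ^ 2 * s ^ 2 := by
  nlinarith

lemma ip_le {w e : ℂ} (he : ‖e‖ = 1) : ip w e ≤ ‖w‖ := by
  have hsqe := sq_add_sq he
  have hwsq := sq_norm' w
  have : (ip w e) ^ 2 ≤ ‖w‖ ^ 2 := by
    rw [hwsq]
    have : (w.re ^ 2 + w.im ^ 2) = (ip w e) ^ 2 + (cr w e) ^ 2 := by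
      simp only [ip, cr]
      linear_combination (-(w.re ^ 2 + w.im ^ 2)) * hsqe
    rw [this]; linarith [sq_nonneg (cr w e)]
  exact le_of_abs_le (abs_le_of_sq_le_sq this (norm_nonneg w))

/-- existence of an admissible open corner for `n ≥ 2` -/
theorem exists_corner {e f : ℂ} (he : ‖e‖ = 1) (hf : ‖f‖ = 1) (hef : 0 < cr e f) {n : ℕ}
    (hn : 2 ≤ n) {x y : ℝ} (hx : 0 < x) (hy : 0 < y) {w : ℂ} (hw : w = x * e + y * f)
    (hw2 : ‖w‖ ≤ Real.pi + Real.pi / n)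
    (hd1 : Real.pi / n < ‖w - (Real.pi : ℂ) * e‖) (hd2 : Real.pi / n < ‖w - (Real.pi : ℂ) * f‖)
    (hm : x ≤ Real.pi → y ≤ Real.pi → -Real.cos (Real.pi / n) < RR (ip e f) x y) :
    ∃ a b, InC e f a ∧ InC e f b ∧ a + b = w ∧ -Real.cos (Real.pi / n) < RC a b := by
  have hpi := Real.pi_pos
  have hnr : (2:ℝ) ≤ n := by exact_mod_cast hn
  have hn0 : (0:ℝ) < n := by linarith
  have hν : Real.pi / n ≤ Real.pi / 2 := div_le_div_of_nonneg_left hpi.le (by norm_num) hnr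
  have hν0 : 0 < Real.pi / n := by positivity
  have hsqe := sq_add_sq he
  have hsqf := sq_add_sq hf
  have hwC : InC e f w := ⟨x, y, hx, hy, hw⟩
  have hwn := norm_nonneg w
  have hwsq := sq_norm' w
  have hsin : 0 < cr e f := hef
  have hc2 : (cr e f) ^ 2 + (ip e f) ^ 2 = 1 := by
    simp only [cr, ip]
    linear_combination (f.re ^ 2 + f.im ^ 2) * hsqe + hsqf
  have hcle : -1 ≤ ip e f := aux_ge hc2
  have he0 : (Real.pi : ℂ) * e ≠ 0 := by
    intro h
    have : ‖(Real.pi : ℂ) * e‖ = Real.pi := by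
      rw [norm_mul, he, mul_one, Complex.norm_real, Real.norm_eq_abs, abs_of_pos hpi]
    rw [h, norm_zero] at this
    linarith
  have hf0 : (Real.pi : ℂ) * f ≠ 0 := by
    intro h
    have : ‖(Real.pi : ℂ) * f‖ = Real.pi := by
      rw [norm_mul, hf, mul_one, Complex.norm_real, Real.norm_eq_abs, abs_of_pos hpi]
    rw [h, norm_zero] at this
    linarith
  have hpen : ‖(Real.pi : ℂ) * e‖ = Real.pi := by
    rw [norm_mul, he, mul_one, Complex.norm_real, Real.norm_eq_abs, abs_of_pos hpi]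
  have hpfn : ‖(Real.pi : ℂ) * f‖ = Real.pi := by
    rw [norm_mul, hf, mul_one, Complex.norm_real, Real.norm_eq_abs, abs_of_pos hpi]
  have hcos : ∀ r : ℝ, Real.pi / n < r → r < 3 / 2 * Real.pi →
      -Real.cos (Real.pi / n) < -Real.cos r := by
    intro r h1 h2
    apply neg_lt_neg
    rcases le_total r Real.pi with h | h
    · exact Real.cos_lt_cos_of_nonneg_of_le_pi hν0.le h h1
    · rw [← Real.cos_two_pi_sub r]
      apply Real.cos_lt_cos_of_nonneg_of_le_pi hν0.le (by linarith) (by linarith)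
  -- squared distances
  have hde : ‖w - (Real.pi : ℂ) * e‖ ^ 2 = ‖w‖ ^ 2 - 2 * Real.pi * ip w e + Real.pi ^ 2 := by
    rw [sq_norm', hwsq]
    simp only [ip, Complex.sub_re, Complex.sub_im, Complex.re_ofReal_mul, Complex.im_ofReal_mul]
    linear_combination (Real.pi ^ 2) * hsqe
  have hdf : ‖w - (Real.pi : ℂ) * f‖ ^ 2 = ‖w‖ ^ 2 - 2 * Real.pi * ip w f + Real.pi ^ 2 := by
    rw [sq_norm', hwsq]
    simp only [ip, Complex.sub_re, Complex.sub_im, Complex.re_ofReal_mul, Complex.im_ofReal_mul]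
    linear_combination (Real.pi ^ 2) * hsqf
  -- corner with `π e`
  have cornerE : Real.pi < x → ‖w - (Real.pi : ℂ) * e‖ < 3 / 2 * Real.pi →
      ∃ a b, InC e f a ∧ InC e f b ∧ a + b = w ∧ -Real.cos (Real.pi / n) < RC a b := by
    intro hxpi hlt
    have hb : InC e f (w - (Real.pi : ℂ) * e) :=
      ⟨x - Real.pi, y, by linarith, hy, by rw [hw]; push_cast; ring⟩
    have hRC : RC ((Real.pi : ℂ) * e) (w - (Real.pi : ℂ) * e) =
        -Real.cos ‖w - (Real.pi : ℂ) * e‖ := by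
      rw [RC, hpen]; simp
    obtain ⟨a', b', h1, h2, h3, h4⟩ := perturb (e := e) (f := f) (a := (Real.pi : ℂ) * e)
      (b := w - (Real.pi : ℂ) * e) he0 (hb.ne_zero hef.ne') (by
        intro δ hδ0 hδ1
        rw [hw]
        refine ⟨⟨(1 - δ) * Real.pi + δ * (x - Real.pi), δ * y, ?_, by positivity,
          by push_cast; ring⟩,
          ⟨δ * Real.pi + (1 - δ) * (x - Real.pi), (1 - δ) * y, ?_, ?_, by push_cast; ring⟩⟩
        · exact aux_pos hδ0 hδ1 hpi (sub_pos.2 hxpi)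
        · exact aux_pos' hδ0 hδ1 hpi (sub_pos.2 hxpi)
        · exact mul_pos (by linarith) hy) (τ := -Real.cos (Real.pi / n)) (by
        rw [hRC]; exact hcos _ hd1 hlt)
    exact ⟨a', b', h1, h2, by rw [h3]; ring, h4⟩
  have cornerF : Real.pi < y → ‖w - (Real.pi : ℂ) * f‖ < 3 / 2 * Real.pi →
      ∃ a b, InC e f a ∧ InC e f b ∧ a + b = w ∧ -Real.cos (Real.pi / n) < RC a b := by
    intro hypi hlt
    have hb : InC e f (w - (Real.pi : ℂ) * f) :=
      ⟨x, y - Real.pi, hx, by linarith, by rw [hw]; push_cast; ring⟩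
    have hRC : RC ((Real.pi : ℂ) * f) (w - (Real.pi : ℂ) * f) =
        -Real.cos ‖w - (Real.pi : ℂ) * f‖ := by
      rw [RC, hpfn]; simp
    obtain ⟨a', b', h1, h2, h3, h4⟩ := perturb (e := e) (f := f) (a := (Real.pi : ℂ) * f)
      (b := w - (Real.pi : ℂ) * f) hf0 (hb.ne_zero hef.ne') (by
        intro δ hδ0 hδ1
        rw [hw]
        refine ⟨⟨δ * x, (1 - δ) * Real.pi + δ * (y - Real.pi), by positivity, ?_,
          by push_cast; ring⟩,
          ⟨(1 - δ) * x, δ * Real.pi + (1 - δ) * (y - Real.pi), ?_, ?_, by push_cast; ring⟩⟩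
        · exact aux_pos hδ0 hδ1 hpi (sub_pos.2 hypi)
        · exact mul_pos (by linarith) hx
        · exact aux_pos' hδ0 hδ1 hpi (sub_pos.2 hypi))
        (τ := -Real.cos (Real.pi / n)) (by
        rw [hRC]; exact hcos _ hd2 hlt)
    exact ⟨a', b', h1, h2, by rw [h3]; ring, h4⟩
  have hwle : ‖w‖ ≤ 3 / 2 * Real.pi := by linarith
  have hipe : ip w e ≤ ‖w‖ := ip_le he
  have hipf : ip w f ≤ ‖w‖ := ip_le hf
  have hcsq : (cr e f) ^ 2 ≤ 1 := by rw [← hc2]; linarith [sq_nonneg (ip e f)]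
  have hLe : ip w e = x + y * ip e f := by
    rw [hw]; simp only [ip, Complex.add_re, Complex.add_im, Complex.re_ofReal_mul,
      Complex.im_ofReal_mul]
    linear_combination x * hsqe
  have hLf : ip w f = x * ip e f + y := by
    rw [hw]; simp only [ip, Complex.add_re, Complex.add_im, Complex.re_ofReal_mul,
      Complex.im_ofReal_mul]
    linear_combination y * hsqf
  have hnw : ‖w‖ ^ 2 = x ^ 2 + 2 * x * y * ip e f + y ^ 2 := by
    rw [hwsq, hw]; simp only [ip, Complex.add_re, Complex.add_im, Complex.re_ofReal_mul,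
      Complex.im_ofReal_mul]
    linear_combination (x ^ 2) * hsqe + (y ^ 2) * hsqf
  rcases le_or_gt x Real.pi with hx1 | hx1
  · rcases le_or_gt y Real.pi with hy1 | hy1
    · -- both small: corner `(x e, y f)`
      have hRC : RC ((x : ℂ) * e) ((y : ℂ) * f) = RR (ip e f) x y := by
        have n1 : ‖(x : ℂ) * e‖ = x := by
          rw [norm_mul, he, mul_one, Complex.norm_real, Real.norm_eq_abs, abs_of_pos hx]
        have n2 : ‖(y : ℂ) * f‖ = y := by
          rw [norm_mul, hf, mul_one, Complex.norm_real, Real.norm_eq_abs, abs_of_pos hy]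
        rw [RC, n1, n2, RR]
        simp only [ip, Complex.re_ofReal_mul, Complex.im_ofReal_mul]
        field_simp
      have hx0' : (x : ℂ) * e ≠ 0 := by
        intro h
        have n1 : ‖(x : ℂ) * e‖ = x := by
          rw [norm_mul, he, mul_one, Complex.norm_real, Real.norm_eq_abs, abs_of_pos hx]
        rw [h, norm_zero] at n1; linarith
      have hy0' : (y : ℂ) * f ≠ 0 := by
        intro h
        have n1 : ‖(y : ℂ) * f‖ = y := by
          rw [norm_mul, hf, mul_one, Complex.norm_real, Real.norm_eq_abs, abs_of_pos hy]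
        rw [h, norm_zero] at n1; linarith
      obtain ⟨a', b', h1, h2, h3, h4⟩ := perturb (e := e) (f := f) hx0' hy0' (by
        intro δ hδ0 hδ1
        have : 0 < 1 - δ := by linarith
        exact ⟨⟨(1 - δ) * x, δ * y, by positivity, by positivity, by push_cast; ring⟩,
          ⟨δ * x, (1 - δ) * y, by positivity, by positivity, by push_cast; ring⟩⟩)
        (τ := -Real.cos (Real.pi / n)) (by rw [hRC]; exact hm hx1 hy1)
      exact ⟨a', b', h1, h2, by rw [h3, hw], h4⟩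
    · apply cornerF hy1
      refine aux_bound _ (ip w f) (x * cr e f) ?_ ?_ (hipf.trans hwle) (aux_sq_le hx hx1 hcsq)
      · rw [hdf, hnw, hLf]
        linear_combination (-x ^ 2) * hc2
      · rw [hLf]; exact aux_lt hx hx1 hy1 hcle
  · rcases le_or_gt y Real.pi with hy1 | hy1
    · apply cornerE hx1
      refine aux_bound _ (ip w e) (y * cr e f) ?_ ?_ (hipe.trans hwle) (aux_sq_le hy hy1 hcsq)
      · rw [hde, hnw, hLe]
        linear_combination (-y ^ 2) * hc2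
      · rw [hLe]; exact aux_lt' hy hy1 hx1 hcle
    · -- both large
      rcases le_or_gt (0.7 * ‖w‖) (ip w e) with h1 | h1
      · exact cornerE hx1 (aux_bound' _ _ _ hwn hwle hde h1)
      · rcases le_or_gt (0.7 * ‖w‖) (ip w f) with h2 | h2
        · exact cornerF hy1 (aux_bound' _ _ _ hwn hwle hdf h2)
        · -- isosceles corner
          obtain ⟨a, b, ha, hb, hab, -, -, hRC⟩ := exists_iso he hf hef hwC (c := 0.7)
            (by norm_num) (by norm_num) (by linarith) (by linarith)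
          refine ⟨a, b, ha, hb, hab, ?_⟩
          rw [hRC]
          have hcn : 0 ≤ Real.cos (Real.pi / n) :=
            Real.cos_nonneg_of_neg_pi_div_two_le_of_le (by linarith) hν
          exact aux_iso (Real.sin_sq_le_one _) hcn

/-- closed arcs from the explicit inequalities, `n ≥ 2` -/
theorem arc_two {e f : ℂ} (he : ‖e‖ = 1) (hf : ‖f‖ = 1) (hef : 0 < cr e f) {n : ℕ}
    (hn : 2 ≤ n) {X Y : ℝ} (hX : 0 < X) (hY : 0 < Y)
    (h1 : ((n : ℝ) - 1) * Real.pi ≤ ‖(X : ℂ) * e + (Y : ℂ) * f‖)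
    (h2 : ‖(X : ℂ) * e + (Y : ℂ) * f‖ ≤ ((n : ℝ) + 1) * Real.pi)
    (hd1 : Real.pi < ‖(X : ℂ) * e + (Y : ℂ) * f - ((n * Real.pi : ℝ) : ℂ) * e‖)
    (hd2 : Real.pi < ‖(X : ℂ) * e + (Y : ℂ) * f - ((n * Real.pi : ℝ) : ℂ) * f‖)
    (hm : X ≤ n * Real.pi → Y ≤ n * Real.pi →
      -Real.cos (Real.pi / n) < RR (ip e f) (X / n) (Y / n)) :
    Nonempty (SArc e f (X * e + Y * f) ((-1) ^ (n - 1))) := by
  have hpi := Real.pi_pos
  have hnr : (2:ℝ) ≤ n := by exact_mod_cast hn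
  have hn0 : (0:ℝ) < n := by linarith
  have hn0' : (n : ℂ) ≠ 0 := by exact_mod_cast hn0.ne'
  set w : ℂ := ((X / n : ℝ) : ℂ) * e + ((Y / n : ℝ) : ℂ) * f with hw
  have hVw : (X : ℂ) * e + (Y : ℂ) * f = n * w := by
    rw [hw]; push_cast; field_simp
  have hnorm : ‖(X : ℂ) * e + (Y : ℂ) * f‖ = n * ‖w‖ := by
    rw [hVw, norm_mul, Complex.norm_natCast]
  have hnd : ∀ g : ℂ, ‖(X : ℂ) * e + (Y : ℂ) * f - ((n * Real.pi : ℝ) : ℂ) * g‖ =
      n * ‖w - (Real.pi : ℂ) * g‖ := by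
    intro g
    have h7 : (n : ℝ) = ‖(n : ℂ)‖ := (Complex.norm_natCast n).symm
    have h8 : (n : ℂ) * w - ((n * Real.pi : ℝ) : ℂ) * g = (n : ℂ) * (w - (Real.pi : ℂ) * g) := by
      push_cast; ring
    rw [hVw, h8, norm_mul, ← h7]
  rw [hnd] at hd1 hd2
  have hw2 : ‖w‖ ≤ Real.pi + Real.pi / n := by
    have : Real.pi + Real.pi / n = Real.pi * ((n : ℝ) + 1) / n := by field_simp
    rw [this, le_div_iff₀ hn0]
    linarith
  obtain ⟨a, b, ha, hb, hab, hRC⟩ := exists_corner he hf hef hn (x := X / n) (y := Y / n)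
    (by positivity) (by positivity) hw hw2 (by rw [div_lt_iff₀ hn0]; linarith)
    (by rw [div_lt_iff₀ hn0]; linarith) (fun hx hy => hm
      (by rw [div_le_iff₀ hn0] at hx; linarith) (by rw [div_le_iff₀ hn0] at hy; linarith))
  rw [hVw, ← hab]
  apply arc_of_corner hef.ne' hn ha hb _ _ hRC
  · rw [hab, ← hVw]; linarith
  · rw [hab, ← hVw]; linarith

/-- closed arcs from the explicit inequalities, `n = 1` -/
theorem arc_one {e f : ℂ} (he : ‖e‖ = 1) (hf : ‖f‖ = 1) (hef : 0 < cr e f) {V : ℂ}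
    (hV : InC e f V) (h2 : ‖V‖ ≤ 2 * Real.pi)
    (hd1 : Real.pi < ‖V - (Real.pi : ℂ) * e‖) (hd2 : Real.pi < ‖V - (Real.pi : ℂ) * f‖) :
    Nonempty (SArc e f V 1) := by
  have hpi := Real.pi_pos
  have hV0 := norm_pos_iff.2 (hV.ne_zero hef.ne')
  rcases h2.eq_or_lt with h2 | h2
  · have := arc_straight hef.ne' hV (k := 2) (by rw [h2]; norm_num)
    simpa using this
  have hsqe := sq_add_sq he
  have hsqf := sq_add_sq hf
  have hVsq := sq_norm' V
  have hde : ‖V - (Real.pi : ℂ) * e‖ ^ 2 = ‖V‖ ^ 2 - 2 * Real.pi * ip V e + Real.pi ^ 2 := by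
    rw [sq_norm', hVsq]
    simp only [ip, Complex.sub_re, Complex.sub_im, Complex.re_ofReal_mul, Complex.im_ofReal_mul]
    linear_combination (Real.pi ^ 2) * hsqe
  have hdf : ‖V - (Real.pi : ℂ) * f‖ ^ 2 = ‖V‖ ^ 2 - 2 * Real.pi * ip V f + Real.pi ^ 2 := by
    rw [sq_norm', hVsq]
    simp only [ip, Complex.sub_re, Complex.sub_im, Complex.re_ofReal_mul, Complex.im_ofReal_mul]
    linear_combination (Real.pi ^ 2) * hsqf
  have h3 : Real.pi ^ 2 < ‖V - (Real.pi : ℂ) * e‖ ^ 2 :=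
    pow_lt_pow_left₀ hd1 hpi.le (by norm_num)
  have h4 : Real.pi ^ 2 < ‖V - (Real.pi : ℂ) * f‖ ^ 2 :=
    pow_lt_pow_left₀ hd2 hpi.le (by norm_num)
  rw [hde] at h3
  rw [hdf] at h4
  set c₀ : ℝ := ‖V‖ / (2 * Real.pi) with hc₀
  have h5 : ip V e / ‖V‖ < c₀ := by
    rw [hc₀, div_lt_div_iff₀ hV0 (by positivity)]; nlinarith
  have h6 : ip V f / ‖V‖ < c₀ := by
    rw [hc₀, div_lt_div_iff₀ hV0 (by positivity)]; nlinarith
  have h7 : c₀ / 2 < c₀ := by
    have : 0 < c₀ := by positivity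
    linarith
  have hc₀1 : c₀ < 1 := by rw [hc₀, div_lt_one (by positivity)]; exact h2
  obtain ⟨c, hcl, hcr⟩ := exists_between (max_lt (max_lt h5 h6) h7)
  have h8 : c₀ / 2 < c := (le_max_right _ _).trans_lt hcl
  have h9 : ip V e / ‖V‖ < c := ((le_max_left _ _).trans (le_max_left _ _)).trans_lt hcl
  have h10 : ip V f / ‖V‖ < c := ((le_max_right _ _).trans (le_max_left _ _)).trans_lt hcl
  have hc0 : 0 < c := by
    have : 0 < c₀ := by positivity
    linarith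
  rw [div_lt_iff₀ hV0] at h9 h10
  obtain ⟨a, b, ha, hb, hab, han, hbn, -⟩ := exists_iso he hf hef hV hc0 (hcr.trans hc₀1)
    (by linarith) (by linarith)
  have h11 : ‖V‖ = c₀ * (2 * Real.pi) := by rw [hc₀]; field_simp
  rw [← hab]
  apply arc_of_sym hef.ne' ha hb (by rw [han, hbn])
  · rw [han, lt_div_iff₀ (by positivity), h11]; nlinarith
  · rw [han, div_lt_iff₀ (by positivity), h11]; nlinarith
  · rw [hab]; exact h2.le

/-- the explicit admissibility inequalities for a displacement `X e + Y f` and a sign `ε` -/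
def Adm (e f : ℂ) (ε X Y : ℝ) : Prop :=
  0 < X ∧ 0 < Y ∧ (ε = -1 → Real.pi ≤ ‖(X : ℂ) * e + (Y : ℂ) * f‖) ∧
  ∀ n : ℕ, 1 ≤ n → (-1 : ℝ) ^ n = -ε →
    Real.pi < ‖(X : ℂ) * e + (Y : ℂ) * f - ((n * Real.pi : ℝ) : ℂ) * e‖ ∧
    Real.pi < ‖(X : ℂ) * e + (Y : ℂ) * f - ((n * Real.pi : ℝ) : ℂ) * f‖ ∧
    (X ≤ n * Real.pi → Y ≤ n * Real.pi →
      -Real.cos (Real.pi / n) < RR (ip e f) (X / n) (Y / n))

/-- sufficiency of the explicit inequalities for one arc -/
theorem arc_of_adm {e f : ℂ} (he : ‖e‖ = 1) (hf : ‖f‖ = 1) (hef : 0 < cr e f) {ε X Y : ℝ}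
    (hε : ε = 1 ∨ ε = -1) (h : Adm e f ε X Y) :
    Nonempty (SArc e f (X * e + Y * f) ε) := by
  have hpi := Real.pi_pos
  obtain ⟨hX, hY, h1, h2⟩ := h
  have hV : InC e f ((X : ℂ) * e + (Y : ℂ) * f) := ⟨X, Y, hX, hY, rfl⟩
  set V := (X : ℂ) * e + (Y : ℂ) * f with hVdef
  have hVn := norm_nonneg V
  rcases hε with rfl | rfl
  · set m : ℕ := ⌊‖V‖ / (2 * Real.pi)⌋₊ with hm
    have hm1 : (m : ℝ) ≤ ‖V‖ / (2 * Real.pi) := Nat.floor_le (by positivity)
    have hm2 : ‖V‖ / (2 * Real.pi) < m + 1 := Nat.lt_floor_add_one _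
    rw [le_div_iff₀ (by positivity)] at hm1
    rw [div_lt_iff₀ (by positivity)] at hm2
    obtain ⟨h3, h4, h5⟩ := h2 (2 * m + 1) (by omega) (by rw [pow_succ, pow_mul]; norm_num)
    rcases Nat.eq_zero_or_pos m with h0 | h0
    · rw [h0] at h3 h4 hm2
      apply arc_one he hf hef hV
      · simp at hm2; linarith
      · simpa using h3
      · simpa using h4
    · have := arc_two he hf hef (n := 2 * m + 1) (by omega) hX hY
        (by push_cast; linarith) (by push_cast; linarith) h3 h4 h5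
      have e1 : (-1 : ℝ) ^ (2 * m + 1 - 1) = 1 := by
        rw [Nat.add_sub_cancel, pow_mul]; norm_num
      rwa [e1] at this
  · have h1' := h1 rfl
    set m : ℕ := ⌊(‖V‖ - Real.pi) / (2 * Real.pi)⌋₊ with hm
    have hm1 : (m : ℝ) ≤ (‖V‖ - Real.pi) / (2 * Real.pi) :=
      Nat.floor_le (div_nonneg (by linarith) (by positivity))
    have hm2 : (‖V‖ - Real.pi) / (2 * Real.pi) < m + 1 := Nat.lt_floor_add_one _
    rw [le_div_iff₀ (by positivity)] at hm1
    rw [div_lt_iff₀ (by positivity)] at hm2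
    obtain ⟨h3, h4, h5⟩ := h2 (2 * m + 2) (by omega)
      (by rw [pow_add, pow_mul]; norm_num)
    have := arc_two he hf hef (n := 2 * m + 2) (by omega) hX hY
      (by push_cast; linarith) (by push_cast; linarith) h3 h4 h5
    have e1 : (-1 : ℝ) ^ (2 * m + 2 - 1) = -1 := by
      have : 2 * m + 2 - 1 = 2 * m + 1 := by omega
      rw [this, pow_succ, pow_mul]; norm_num
    rwa [e1] at this

end Pool.Agent.helper70.Tori
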