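import Pool.Agent.helper70.Tori.Poly

/-!
Cutting staircases at an arbitrary length parameter, the universal chord theorem for staircases
and the main inequality for `N` multiples of `π`.
-/

open Quaternion Set

namespace Pool.Agent.helper70.Tori

/-- first part (of length `s`) of a staircase -/
noncomputable def tk : List (ℝ × ℝ) → ℝ → List (ℝ × ℝ)
  | [], _ => []
  | p :: l, s => if s ≤ p.1 then [(s, 0)] else
      if s ≤ p.1 + p.2 then [(p.1, s - p.1)] else p :: tk l (s - p.1 - p.2)

/-- the rest of a staircase after length `s` -/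
noncomputable def dp : List (ℝ × ℝ) → ℝ → List (ℝ × ℝ)
  | [], _ => []
  | p :: l, s => if s ≤ p.1 then (p.1 - s, p.2) :: l else
      if s ≤ p.1 + p.2 then (0, p.1 + p.2 - s) :: l else dp l (s - p.1 - p.2)

/-- the `e`-coordinate at length `s` -/
noncomputable def gx : List (ℝ × ℝ) → ℝ → ℝ
  | [], _ => 0
  | p :: l, s => max 0 (min s p.1) + gx l (s - p.1 - p.2)

lemma Nonneg.tail {p : ℝ × ℝ} {l : List (ℝ × ℝ)} (h : Nonneg (p :: l)) : Nonneg l :=
  fun q hq => h q (List.mem_cons_of_mem _ hq)

lemma Nonneg.head {p : ℝ × ℝ} {l : List (ℝ × ℝ)} (h : Nonneg (p :: l)) : 0 ≤ p.1 ∧ 0 ≤ p.2 :=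
  h p (List.mem_cons_self ..)

lemma Nonneg.cons {p : ℝ × ℝ} {l : List (ℝ × ℝ)} (h1 : 0 ≤ p.1) (h2 : 0 ≤ p.2)
    (h : Nonneg l) : Nonneg (p :: l) := by
  intro q hq
  rcases List.mem_cons.1 hq with rfl | hq
  · exact ⟨h1, h2⟩
  · exact h q hq

lemma Nonneg.sx_nonneg {l : List (ℝ × ℝ)} (h : Nonneg l) : 0 ≤ sx l := by
  induction l with
  | nil => simp [sx]
  | cons p l ih => rw [sx_cons]; have := ih h.tail; have := h.head.1; linarith

lemma Nonneg.sy_nonneg {l : List (ℝ × ℝ)} (h : Nonneg l) : 0 ≤ sy l := by
  induction l with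
  | nil => simp [sy]
  | cons p l ih => rw [sy_cons]; have := ih h.tail; have := h.head.2; linarith

lemma hol_tk_dp {e f : ℂ} (he : ‖e‖ = 1) (hf : ‖f‖ = 1) (l : List (ℝ × ℝ)) (s : ℝ) :
    hol e f (tk l s) * hol e f (dp l s) = hol e f l := by
  induction l generalizing s with
  | nil => simp [tk, dp, hol]
  | cons p l ih =>
    by_cases h1 : s ≤ p.1
    · simp only [tk, dp, h1, if_true, hol, er_zero, mul_one]
      rw [← mul_assoc, ← mul_assoc, ← er_add he]
      simp
    · by_cases h2 : s ≤ p.1 + p.2
      · simp only [tk, dp, h1, h2, if_true, if_false, hol, er_zero, one_mul, mul_one]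
        have : er f (s - p.1) * er f (p.1 + p.2 - s) = er f p.2 := by
          rw [← er_add hf]; ring_nf
        rw [← this]
        simp only [mul_assoc]
      · simp only [tk, dp, h1, h2, if_false, hol]
        rw [mul_assoc, ih]

lemma sx_tk_dp (l : List (ℝ × ℝ)) (s : ℝ) : sx (tk l s) + sx (dp l s) = sx l := by
  induction l generalizing s with
  | nil => simp [tk, dp, sx]
  | cons p l ih =>
    by_cases h1 : s ≤ p.1
    · simp only [tk, dp, h1, if_true, sx_cons]
      simp [sx]
      ring
    · by_cases h2 : s ≤ p.1 + p.2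
      · simp only [tk, dp, h1, h2, if_true, if_false, sx_cons]
        simp [sx]
      · simp only [tk, dp, h1, h2, if_false, sx_cons]
        have := ih (s - p.1 - p.2)
        linarith

lemma sy_tk_dp (l : List (ℝ × ℝ)) (s : ℝ) : sy (tk l s) + sy (dp l s) = sy l := by
  induction l generalizing s with
  | nil => simp [tk, dp, sy]
  | cons p l ih =>
    by_cases h1 : s ≤ p.1
    · simp only [tk, dp, h1, if_true, sy_cons]
      simp [sy]
    · by_cases h2 : s ≤ p.1 + p.2
      · simp only [tk, dp, h1, h2, if_true, if_false, sy_cons]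
        simp [sy]
        ring
      · simp only [tk, dp, h1, h2, if_false, sy_cons]
        have := ih (s - p.1 - p.2)
        linarith

lemma Nonneg.tk {l : List (ℝ × ℝ)} (h : Nonneg l) {s : ℝ} (hs : 0 ≤ s) : Nonneg (tk l s) := by
  induction l generalizing s with
  | nil => intro q hq; simp [Tori.tk] at hq
  | cons p l ih =>
    have hh := h.head
    by_cases h1 : s ≤ p.1
    · simp only [Tori.tk, h1, if_true]
      exact Nonneg.cons hs le_rfl (by intro q hq; simp at hq)
    · by_cases h2 : s ≤ p.1 + p.2
      · simp only [Tori.tk, h1, h2, if_true, if_false]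
        exact Nonneg.cons hh.1 (by simp only; linarith) (by intro q hq; simp at hq)
      · simp only [Tori.tk, h1, h2, if_false]
        exact Nonneg.cons hh.1 hh.2 (ih h.tail (by linarith))

lemma Nonneg.dp {l : List (ℝ × ℝ)} (h : Nonneg l) (s : ℝ) : Nonneg (dp l s) := by
  induction l generalizing s with
  | nil => intro q hq; simp [Tori.dp] at hq
  | cons p l ih =>
    have hh := h.head
    by_cases h1 : s ≤ p.1
    · simp only [Tori.dp, h1, if_true]
      exact Nonneg.cons (by simp only; linarith) hh.2 h.tail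
    · by_cases h2 : s ≤ p.1 + p.2
      · simp only [Tori.dp, h1, h2, if_true, if_false]
        exact Nonneg.cons le_rfl (by simp only; linarith) h.tail
      · simp only [Tori.dp, h1, h2, if_false]
        exact ih h.tail _

lemma gx_nonpos {l : List (ℝ × ℝ)} (h : Nonneg l) {s : ℝ} (hs : s ≤ 0) : gx l s = 0 := by
  induction l generalizing s with
  | nil => simp [gx]
  | cons p l ih =>
    have hh := h.head
    rw [gx, ih h.tail (by linarith), max_eq_left, add_zero]
    exact (min_le_left _ _).trans hs

lemma gx_top {l : List (ℝ × ℝ)} (h : Nonneg l) {s : ℝ} (hs : sx l + sy l ≤ s) :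
    gx l s = sx l := by
  induction l generalizing s with
  | nil => simp [gx, sx]
  | cons p l ih =>
    have hh := h.head
    rw [sx_cons, sy_cons] at hs
    have h1 := h.tail.sx_nonneg
    have h2 := h.tail.sy_nonneg
    rw [gx, ih h.tail (by linarith), sx_cons, min_eq_right (by linarith), max_eq_right hh.1]

lemma continuous_gx (l : List (ℝ × ℝ)) : Continuous (gx l) := by
  induction l with
  | nil => exact continuous_const
  | cons p l ih =>
    have : Continuous fun s : ℝ => gx l (s - p.1 - p.2) := ih.comp (by fun_prop)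
    have h2 : gx (p :: l) = fun s => max 0 (min s p.1) + gx l (s - p.1 - p.2) := by
      funext s; rw [gx]
    rw [h2]
    fun_prop

lemma sx_tk {l : List (ℝ × ℝ)} (h : Nonneg l) {s : ℝ} (hs : 0 ≤ s) : sx (tk l s) = gx l s := by
  induction l generalizing s with
  | nil => simp [tk, gx, sx]
  | cons p l ih =>
    have hh := h.head
    by_cases h1 : s ≤ p.1
    · simp only [tk, h1, if_true, gx, sx_cons]
      rw [min_eq_left h1, max_eq_right hs, gx_nonpos h.tail (by linarith)]
      simp [sx]
    · push Not at h1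
      by_cases h2 : s ≤ p.1 + p.2
      · simp only [tk, h1.not_ge, h2, if_true, if_false, gx, sx_cons]
        rw [min_eq_right h1.le, max_eq_right hh.1, gx_nonpos h.tail (by linarith)]
        simp [sx]
      · simp only [tk, h1.not_ge, h2, if_false, gx, sx_cons]
        rw [min_eq_right h1.le, max_eq_right hh.1, ih h.tail (by linarith)]

lemma sx_add_sy_tk {l : List (ℝ × ℝ)} (h : Nonneg l) {s : ℝ}
    (hs' : s ≤ sx l + sy l) : sx (tk l s) + sy (tk l s) = s ∨ l = [] := by
  induction l generalizing s with
  | nil => exact Or.inr rfl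
  | cons p l ih =>
    left
    have hh := h.head
    rw [sx_cons, sy_cons] at hs'
    by_cases h1 : s ≤ p.1
    · simp only [tk, h1, if_true]
      simp [sx, sy]
    · by_cases h2 : s ≤ p.1 + p.2
      · simp only [tk, h1, h2, if_true, if_false]
        simp [sx, sy]
      · simp only [tk, h1, h2, if_false, sx_cons, sy_cons]
        rcases ih h.tail (s := s - p.1 - p.2) (by linarith) with h3 | h3
        · linarith
        · subst h3
          exfalso
          simp [sx, sy] at hs'
          exact h2 (by linarith)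

lemma gx_dp {l : List (ℝ × ℝ)} (h : Nonneg l) {s t : ℝ} (hs : 0 ≤ s) (ht : 0 ≤ t) :
    gx (dp l s) t = gx l (s + t) - gx l s := by
  induction l generalizing s with
  | nil => simp [dp, gx]
  | cons p l ih =>
    have hh := h.head
    by_cases h1 : s ≤ p.1
    · simp only [dp, h1, if_true, gx]
      rw [min_eq_left h1, max_eq_right hs, gx_nonpos h.tail (s := s - p.1 - p.2) (by linarith)]
      have e1 : t - (p.1 - s) - p.2 = s + t - p.1 - p.2 := by ring
      rw [e1]
      have e2 : max 0 (min t (p.1 - s)) = max 0 (min (s + t) p.1) - s := by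
        rw [max_eq_right (le_min ht (by linarith)), max_eq_right (le_min (by linarith) hh.1)]
        rcases le_total (s + t) p.1 with h5 | h5
        · rw [min_eq_left h5, min_eq_left (by linarith)]; ring
        · rw [min_eq_right h5, min_eq_right (by linarith)]
      rw [e2]; ring
    · push Not at h1
      by_cases h2 : s ≤ p.1 + p.2
      · simp only [dp, h1.not_ge, h2, if_true, if_false, gx]
        rw [min_eq_right h1.le, max_eq_right hh.1, min_eq_right (show p.1 ≤ s + t by linarith),
          max_eq_right hh.1, gx_nonpos h.tail (s := s - p.1 - p.2) (by linarith),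
          min_eq_right ht, max_self]
        have e1 : t - 0 - (p.1 + p.2 - s) = s + t - p.1 - p.2 := by ring
        rw [e1]; ring
      · simp only [dp, h1.not_ge, h2, if_false, gx]
        rw [ih h.tail (by linarith), min_eq_right h1.le, max_eq_right hh.1,
          min_eq_right (show p.1 ≤ s + t by linarith), max_eq_right hh.1]
        have e1 : s - p.1 - p.2 + t = s + t - p.1 - p.2 := by ring
        rw [e1]; ring

lemma sx_add_sy_dp {l : List (ℝ × ℝ)} (h : Nonneg l) {s : ℝ} (hs : 0 ≤ s)
    (hs' : s ≤ sx l + sy l) : sx (dp l s) + sy (dp l s) = sx l + sy l - s := by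
  have h1 := sx_tk_dp l s
  have h2 := sy_tk_dp l s
  rcases sx_add_sy_tk h hs' with h3 | h3
  · linarith
  · subst h3
    simp [sx, sy, dp] at *
    linarith

/-- universal chord theorem for a continuous function -/
lemma exists_chord {g : ℝ → ℝ} (hg : Continuous g) {t : ℝ} (ht : 0 ≤ t) (M : ℕ) (hM : 1 ≤ M) :
    ∃ s, 0 ≤ s ∧ s ≤ (M - 1) * t ∧ g (s + t) - g s = (g (M * t) - g 0) / M := by
  have hM' : (0:ℝ) < M := by exact_mod_cast hM
  set a : ℝ := (g (M * t) - g 0) / M with ha
  set φ : ℝ → ℝ := fun s => g (s + t) - g s with hφ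
  have hφc : ContinuousOn φ (Icc 0 ((M - 1) * t)) := by
    apply Continuous.continuousOn
    simp only [hφ]
    fun_prop
  have hsum : ∑ j ∈ Finset.range M, φ (j * t) = g (M * t) - g 0 := by
    have : ∀ m : ℕ, ∑ j ∈ Finset.range m, φ (j * t) = g (m * t) - g 0 := by
      intro m
      induction m with
      | zero => simp
      | succ m ih =>
        rw [Finset.sum_range_succ, ih]
        simp only [hφ]
        have : (m : ℝ) * t + t = ((m + 1 : ℕ) : ℝ) * t := by push_cast; ring
        rw [this]; ring
    exact this M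
  have hsum' : ∑ j ∈ Finset.range M, (φ (j * t) - a) = 0 := by
    rw [Finset.sum_sub_distrib, hsum]
    simp only [Finset.sum_const, Finset.card_range, nsmul_eq_mul, ha]
    field_simp
    ring
  have hne : (Finset.range M).Nonempty := ⟨0, by simp; omega⟩
  have h1 : ∃ j ∈ Finset.range M, φ (j * t) - a ≤ 0 := by
    by_contra hcon
    push Not at hcon
    have := Finset.sum_pos hcon hne
    linarith
  have h2 : ∃ j ∈ Finset.range M, 0 ≤ φ (j * t) - a := by
    by_contra hcon
    push Not at hcon
    have := Finset.sum_neg hcon hne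
    linarith
  obtain ⟨j, hj, hj'⟩ := h1
  obtain ⟨k, hk, hk'⟩ := h2
  have hmem : ∀ i ∈ Finset.range M, (i : ℝ) * t ∈ Icc 0 (((M : ℝ) - 1) * t) := by
    intro i hi
    have hi1 : i + 1 ≤ M := by simpa using hi
    have hi2 : (i : ℝ) + 1 ≤ M := by exact_mod_cast hi1
    refine ⟨by positivity, mul_le_mul_of_nonneg_right (by linarith) ht⟩
  have hpre : IsPreconnected (Icc 0 (((M : ℝ) - 1) * t)) := isPreconnected_Icc
  obtain ⟨s, hs, hs'⟩ := hpre.intermediate_value (hmem j hj) (hmem k hk) hφc
    (show a ∈ Icc (φ (j * t)) (φ (k * t)) from ⟨by linarith, by linarith⟩)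
  exact ⟨s, hs.1, hs.2, hs'⟩

/-- universal chord theorem for staircases -/
theorem exists_window {e f : ℂ} (he : ‖e‖ = 1) (hf : ‖f‖ = 1) {l : List (ℝ × ℝ)}
    (hl : Nonneg l) (M : ℕ) (hM : 1 ≤ M) :
    ∃ A B C : List (ℝ × ℝ), Nonneg A ∧ Nonneg B ∧ Nonneg C ∧
      hol e f l = hol e f A * hol e f B * hol e f C ∧
      sx B = sx l / M ∧ sy B = sy l / M ∧
      sx A + sx B + sx C = sx l ∧ sy A + sy B + sy C = sy l := by
  have hM' : (0:ℝ) < M := by exact_mod_cast hM
  have hx := hl.sx_nonneg
  have hy := hl.sy_nonneg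
  set t : ℝ := (sx l + sy l) / M with ht
  have ht0 : 0 ≤ t := by positivity
  have hMt : (M : ℝ) * t = sx l + sy l := by rw [ht]; field_simp
  obtain ⟨s, hs0, hs1, hs⟩ := exists_chord (continuous_gx l) ht0 M hM
  rw [hMt, gx_top hl le_rfl, gx_nonpos hl le_rfl, sub_zero] at hs
  have hst : s + t ≤ sx l + sy l := by rw [← hMt]; linarith
  have hD := hl.dp s
  have hDs := sx_add_sy_dp hl hs0 (by linarith)
  have h1 : sx (tk (dp l s) t) = sx l / M := by
    rw [sx_tk hD ht0, gx_dp hl hs0 ht0, hs]
  have h2 : sy (tk (dp l s) t) = sy l / M := by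
    rcases sx_add_sy_tk hD (s := t) (by linarith) with h3 | h3
    · have : t = sx l / M + sy l / M := by rw [ht]; ring
      linarith
    · have h4 : sx (dp l s) + sy (dp l s) = 0 := by rw [h3]; simp [sx, sy]
      have h5 : t = 0 := by linarith
      have h6 : sx l + sy l = 0 := by rw [← hMt, h5, mul_zero]
      have h7 : sy l = 0 := by linarith
      rw [h3, h7]; simp [tk, sy]
  refine ⟨tk l s, tk (dp l s) t, dp (dp l s) t, hl.tk hs0, hD.tk ht0, hD.dp t, ?_, h1, h2, ?_, ?_⟩
  · rw [mul_assoc, hol_tk_dp he hf, hol_tk_dp he hf]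
  · have h3 := sx_tk_dp (dp l s) t
    have h4 := sx_tk_dp l s
    linarith
  · have h3 := sy_tk_dp (dp l s) t
    have h4 := sy_tk_dp l s
    linarith

/-- the main inequality, assuming the case `N = 1` -/
theorem main_ineq_of {e f : ℂ} (he : ‖e‖ = 1) (hf : ‖f‖ = 1)
    (hB : ∀ l : List (ℝ × ℝ), Nonneg l → sx l ≤ Real.pi → sy l ≤ Real.pi →
      (hol e f l).re ≤ RR (ip e f) (sx l) (sy l)) (N : ℕ) (hN : 1 ≤ N) :
    ∀ l : List (ℝ × ℝ), Nonneg l → sx l ≤ N * Real.pi → sy l ≤ N * Real.pi →
      Real.arccos ((-1) ^ N * (hol e f l).re) ≤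
        N * Real.arccos (-RR (ip e f) (sx l / N) (sy l / N)) := by
  induction N, hN using Nat.le_induction with
  | base =>
    intro l hl h1 h2
    have := hB l hl (by simpa using h1) (by simpa using h2)
    simp only [pow_one, neg_mul, one_mul, Nat.cast_one, div_one]
    exact Real.arccos_le_arccos (neg_le_neg this)
  | succ N hN ih =>
    intro l hl h1 h2
    have hN' : (0:ℝ) < N := by exact_mod_cast hN
    obtain ⟨A, B, C, hA, hB', hC, hh, hBx, hBy, hsx, hsy⟩ :=
      exists_window he hf hl (N + 1) (by omega)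
    push_cast at *
    have hCA := hC.append hA
    have hx : sx (C ++ A) = N * (sx l / (N + 1)) := by
      rw [sx_append]
      have : sx l = (N + 1) * (sx l / (N + 1)) := by field_simp
      rw [hBx] at hsx
      linarith
    have hy : sy (C ++ A) = N * (sy l / (N + 1)) := by
      rw [sy_append]
      have : sy l = (N + 1) * (sy l / (N + 1)) := by field_simp
      rw [hBy] at hsy
      linarith
    have hx1 : sx l / (N + 1) ≤ Real.pi := by
      rw [div_le_iff₀ (by positivity)]; linarith
    have hy1 : sy l / (N + 1) ≤ Real.pi := by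
      rw [div_le_iff₀ (by positivity)]; linarith
    have h3 := ih (C ++ A) hCA (by rw [hx]; exact mul_le_mul_of_nonneg_left hx1 hN'.le)
      (by rw [hy]; exact mul_le_mul_of_nonneg_left hy1 hN'.le)
    have e1 : sx (C ++ A) / N = sx l / (N + 1) := by rw [hx]; field_simp
    have e2 : sy (C ++ A) / N = sy l / (N + 1) := by rw [hy]; field_simp
    rw [e1, e2] at h3
    have h4 := hB B hB' (by rw [hBx]; exact hx1) (by rw [hBy]; exact hy1)
    rw [hBx, hBy] at h4
    have h5 : Real.arccos (-(hol e f B).re) ≤
        Real.arccos (-RR (ip e f) (sx l / (N + 1)) (sy l / (N + 1))) :=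
      Real.arccos_le_arccos (neg_le_neg h4)
    have h6 := arccos_mul_le (p := -(hol e f B)) (q := ((-1 : ℝ) ^ N) • hol e f (C ++ A))
      (by rw [norm_neg, norm_hol he hf])
      (by rw [norm_smul, norm_hol he hf, norm_pow, norm_neg, norm_one, one_pow, one_mul])
    have e3 : (-(hol e f B) * ((-1 : ℝ) ^ N) • hol e f (C ++ A)).re =
        (-1) ^ (N + 1) * (hol e f l).re := by
      rw [hh, hol_append, mul_smul_comm, Quaternion.re_smul, neg_mul, Quaternion.re_neg,
        mul_assoc, re_mul_comm' (hol e f A), pow_succ, ← mul_assoc, smul_eq_mul]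
      simp only [mul_assoc]
      ring
    have e4 : (((-1 : ℝ) ^ N) • hol e f (C ++ A)).re = (-1) ^ N * (hol e f (C ++ A)).re := by
      rw [Quaternion.re_smul, smul_eq_mul]
    rw [e3, e4, Quaternion.re_neg] at h6
    linarith

end Pool.Agent.helper70.Tori
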