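import Pool.Agent.helper70.Tori.Suff
import Pool.Agent.helper70.Tori.MainIneq

/-!
The classification of the flat tori with an isometric immersion in `S³`.
-/

namespace Pool.Agent.helper70.Tori

open Pool.Agent.helper3.FlatTorus

/-- Classification. -/
theorem immersible_iff_criterion {L : Submodule ℤ (EuclideanSpace ℝ (Fin 2))}
    [DiscreteTopology L] [IsZLattice ℝ L] : Immersible L ↔ Criterion L :=
  ⟨fun h => criterion_of_immersible mainIneq h, immersible_of_criterion⟩

end Pool.Agent.helper70.Tori
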