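import Pool.Agent.helper70.Tori.Poly

/-!
Open plane cones, exponentials of plane vectors, corner (zigzag) criterion.
-/

open Quaternion

namespace Pool.Agent.helper70.Tori

/-- open cone spanned by `e` and `f` -/
def InC (e f v : ℂ) : Prop := ∃ x y : ℝ, 0 < x ∧ 0 < y ∧ v = x * e + y * f

/-- oriented area -/
noncomputable def cr (z w : ℂ) : ℝ := z.re * w.im - z.im * w.re

/-- exponential of a plane vector (embedded in `span (i, j)`) -/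
noncomputable def ex (v : ℂ) : Quaternion ℝ :=
  ((Real.cos ‖v‖ : ℝ) : Quaternion ℝ) + (Real.sin ‖v‖ / ‖v‖) • io v

/-- real part of `ex a * ex b` -/
noncomputable def RC (a b : ℂ) : ℝ :=
  Real.cos ‖a‖ * Real.cos ‖b‖ - (Real.sin ‖a‖ / ‖a‖) * (Real.sin ‖b‖ / ‖b‖) * ip a b

lemma re_ex_mul_ex (a b : ℂ) : (ex a * ex b).re = RC a b := by
  rw [Quaternion.re_mul]
  simp [ex, RC, ip]
  ring

/-- corner criterion with `N` periods for the displacement `V` in the open cone `(e, f)` -/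
def Good (e f : ℂ) (N : ℕ) (V : ℂ) : Prop :=
  Real.pi * ((N : ℝ) - 1) ≤ ‖V‖ ∧ ‖V‖ ≤ Real.pi * ((N : ℝ) + 1) ∧
  ((N = 1 ∧ ∃ e' f' : ℂ, ‖e'‖ = 1 ∧ ‖f'‖ = 1 ∧ InC e f e' ∧ InC e f f' ∧
      V = Real.pi * e' + Real.pi * f') ∨
   (2 ≤ N ∧ ∃ a : ℂ, InC e f a ∧ InC e f (V / N - a) ∧
      -Real.cos (Real.pi / N) < RC a (V / N - a)))

/-- the necessary inequalities (complement of the gaps) for displacement `x e + y f` -/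
def NoGap (e f : ℂ) (N : ℕ) (x y : ℝ) : Prop :=
  (x ≤ N * Real.pi → y ≤ N * Real.pi →
    -Real.cos (Real.pi / N) ≤ RR (ip e f) (x / N) (y / N)) ∧
  Real.pi ≤ ‖(x : ℂ) * e + (y : ℂ) * f - (N * Real.pi : ℝ) * e‖ ∧
  Real.pi ≤ ‖(x : ℂ) * e + (y : ℂ) * f - (N * Real.pi : ℝ) * f‖

/- TARGET (dichotomy), for helper29:
theorem dichotomy {e f e₁ f₁ : ℂ} (he : ‖e‖ = 1) (hf : ‖f‖ = 1) (hef : 0 < cr e f)
    (he₁ : ‖e₁‖ = 1) (hf₁ : ‖f₁‖ = 1) (h1 : InC e f e₁) (h2 : InC e f f₁) (h12 : 0 < cr e₁ f₁)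
    {x y : ℝ} (hx : 0 < x) (hy : 0 < y) (p : ℕ)
    (hgap : ∀ N : ℕ, 1 ≤ N → N % 2 = p → NoGap e₁ f₁ N x y) (hp : p < 2) :
    (∃ k : ℕ, 1 ≤ k ∧ (k + 1) % 2 = p ∧ ‖(x : ℂ) * e₁ + (y : ℂ) * f₁‖ = k * Real.pi) ∨
    (∃ N : ℕ, 1 ≤ N ∧ N % 2 = p ∧ Good e f N ((x : ℂ) * e₁ + (y : ℂ) * f₁))
-/

end Pool.Agent.helper70.Tori
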