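import Pool.Agent.helper70.Tori.Holonomy

/-!
The smoothed zigzag and the intermediate value argument for the holonomy.
-/

open MeasureTheory intervalIntegral Set Quaternion Filter
open scoped Topology ContDiff

namespace Pool.Agent.helper70.Tori

/-- smooth profile, antiperiodic with antiperiod `1/2` -/
noncomputable def prof (K s : ℝ) : ℝ := 2 / Real.pi * Real.arctan (K * Real.sin (2 * Real.pi * s))

lemma contDiff_prof (K : ℝ) : ContDiff ℝ ∞ (prof K) := by
  unfold prof
  apply contDiff_const.mul
  apply ContDiff.arctan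
  fun_prop

lemma prof_half (K s : ℝ) : prof K (s + 1/2) = -prof K s := by
  unfold prof
  rw [show 2 * Real.pi * (s + 1/2) = 2 * Real.pi * s + Real.pi by ring, Real.sin_add_pi,
    mul_neg, Real.arctan_neg, mul_neg]

lemma abs_prof_le (K s : ℝ) : |prof K s| ≤ 1 := by
  unfold prof
  have h1 := Real.arctan_lt_pi_div_two (K * Real.sin (2 * Real.pi * s))
  have h2 := Real.neg_pi_div_two_lt_arctan (K * Real.sin (2 * Real.pi * s))
  have hpi := Real.pi_pos
  rw [abs_mul, abs_of_pos (by positivity)]
  have h3 : |Real.arctan (K * Real.sin (2 * Real.pi * s))| ≤ Real.pi / 2 := by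
    rw [abs_le]; constructor <;> linarith
  calc 2 / Real.pi * |Real.arctan (K * Real.sin (2 * Real.pi * s))|
      ≤ 2 / Real.pi * (Real.pi / 2) := by gcongr
    _ = 1 := by field_simp

lemma tendsto_prof {s : ℝ} (h0 : 0 < s) (h1 : s < 1/2) :
    Tendsto (fun K => prof K s) atTop (𝓝 1) := by
  unfold prof
  have hpi := Real.pi_pos
  have hs : 0 < Real.sin (2 * Real.pi * s) := by
    apply Real.sin_pos_of_pos_of_lt_pi
    · positivity
    · nlinarith
  have h2 : Tendsto (fun K => K * Real.sin (2 * Real.pi * s)) atTop atTop :=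
    tendsto_id.atTop_mul_const hs
  have h3 := (tendsto_nhds_of_tendsto_nhdsWithin Real.tendsto_arctan_atTop).comp h2
  have h4 := h3.const_mul (2 / Real.pi)
  have e : 2 / Real.pi * (Real.pi / 2) = 1 := by field_simp
  rw [e] at h4
  exact h4

lemma integral_half (g : ℝ → ℝ) (hg : Continuous g) :
    ∫ s in (0:ℝ)..1, g s = ∫ s in (0:ℝ)..(1/2), (g s + g (s + 1/2)) := by
  have hg' : Continuous (fun s => g (s + 1/2)) := by fun_prop
  rw [intervalIntegral.integral_add (hg.intervalIntegrable _ _) (hg'.intervalIntegrable _ _)]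
  have h1 := intervalIntegral.integral_comp_add_right (a := 0) (b := 1/2) g (1/2)
  rw [h1, show (0:ℝ) + 1/2 = 1/2 by norm_num, show (1/2:ℝ) + 1/2 = 1 by norm_num]
  exact (intervalIntegral.integral_add_adjacent_intervals (hg.intervalIntegrable _ _)
    (hg.intervalIntegrable _ _)).symm

/-- mean of the cosine -/
noncomputable def mcos (K a : ℝ) : ℝ := ∫ s in (0:ℝ)..1, Real.cos (a * prof K s)

lemma continuous_mcos (K : ℝ) : Continuous (mcos K) := by
  unfold mcos
  apply intervalIntegral.continuous_parametric_intervalIntegral_of_continuous'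
  have := (contDiff_prof K).continuous
  unfold Function.uncurry
  fun_prop

lemma mcos_zero (K : ℝ) : mcos K 0 = 1 := by simp [mcos]

lemma cos_le_mcos (K : ℝ) {a : ℝ} (h0 : 0 ≤ a) (h1 : a ≤ Real.pi) : Real.cos a ≤ mcos K a := by
  unfold mcos
  have h : ∫ s in (0:ℝ)..1, Real.cos a = Real.cos a := by simp
  rw [← h]
  apply intervalIntegral.integral_mono_on (by norm_num)
  · exact intervalIntegrable_const
  · have := (contDiff_prof K).continuous
    apply Continuous.intervalIntegrable
    fun_prop
  · intro s _
    rw [← Real.cos_abs (a * prof K s)]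
    apply Real.cos_le_cos_of_nonneg_of_le_pi (abs_nonneg _) h1
    rw [abs_mul, abs_of_nonneg h0]
    have := abs_prof_le K s
    nlinarith

lemma mcos_half (K a : ℝ) : mcos K a = ∫ s in (0:ℝ)..(1/2), 2 * Real.cos (a * prof K s) := by
  unfold mcos
  rw [integral_half]
  · apply intervalIntegral.integral_congr
    intro s _
    simp only
    rw [prof_half, mul_neg, Real.cos_neg]
    ring
  · have := (contDiff_prof K).continuous
    fun_prop

lemma tendsto_mcos (a : ℝ) : Tendsto (fun K => mcos K a) atTop (𝓝 (Real.cos a)) := by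
  have h1 : Real.cos a = ∫ s in (0:ℝ)..(1/2), 2 * Real.cos a := by
    simp
  rw [h1]
  simp_rw [mcos_half]
  apply intervalIntegral.tendsto_integral_filter_of_dominated_convergence (fun _ => 2)
  · filter_upwards with K
    have := (contDiff_prof K).continuous
    apply Continuous.aestronglyMeasurable
    fun_prop
  · filter_upwards with K
    filter_upwards with s _
    rw [Real.norm_eq_abs, abs_mul, abs_two]
    have := Real.abs_cos_le_one (a * prof K s)
    linarith
  · exact intervalIntegrable_const
  · have hne : ∀ᵐ s : ℝ, s ≠ 1/2 := by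
      simp [ae_iff, measure_singleton]
    filter_upwards [hne] with s hs hmem
    rw [uIoc_of_le (by norm_num)] at hmem
    have hlt : s < 1/2 := lt_of_le_of_ne hmem.2 hs
    have := tendsto_prof hmem.1 hlt
    have h2 := ((Real.continuous_cos.tendsto _).comp (this.const_mul a)).const_mul 2
    simpa using h2

/-- the zigzag coefficient -/
noncomputable def zA (l K a : ℝ) : ℝ → Quaternion ℝ := zz l (fun s => a * prof K s)

lemma continuous_theta (K a : ℝ) : Continuous (fun s => a * prof K s) := by
  have := (contDiff_prof K).continuous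
  fun_prop

lemma exists_sol_zA (l K a : ℝ) : ∃ c, Sol (zA l K a) c :=
  exists_sol _ (continuous_zz (continuous_theta K a)) |l| (fun s => (norm_zz _ _ _).le)

/-- the chosen solution -/
noncomputable def cs (l K a : ℝ) : ℝ → Quaternion ℝ := Classical.choose (exists_sol_zA l K a)

lemma cs_spec (l K a : ℝ) : Sol (zA l K a) (cs l K a) := Classical.choose_spec (exists_sol_zA l K a)

lemma norm_imI_le (q : Quaternion ℝ) : |q.imI| ≤ ‖q‖ := by
  have h := norm_sq_eq q
  apply abs_le_of_sq_le_sq' _ (norm_nonneg q) |> abs_le.2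
  nlinarith [sq_nonneg q.re, sq_nonneg q.imJ, sq_nonneg q.imK]

/-- value at the half period -/
noncomputable def hval (l K a : ℝ) : ℝ := (cs l K a (1/2)).imI

lemma hval_sub_le (l K a l' K' a' : ℝ) : |hval l K a - hval l' K' a'| ≤
    ∫ x in (0:ℝ)..(1/2), ‖zA l K a x - zA l' K' a' x‖ := by
  have h := (cs_spec l K a).compare (cs_spec l' K' a') (star_zz _ _) (star_zz _ _)
    (continuous_zz (continuous_theta K a)) (continuous_zz (continuous_theta K' a'))
    (s := 1/2) (by norm_num)
  refine le_trans ?_ h
  have := norm_imI_le (cs l K a (1/2) - cs l' K' a' (1/2))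
  rwa [Quaternion.imI_sub] at this

lemma hval_zero (l K : ℝ) : hval l K 0 = Real.sin (l / 2) := by
  have h1 := sol_const l 1 (by simp)
  have h2 := cs_spec l K 0
  have h3 : cs l K 0 = (fun s => ((Real.cos (l * s) : ℝ) : Quaternion ℝ) +
      Real.sin (l * s) • io 1) := by
    apply ode_unique (continuous_zz (continuous_theta K 0)) |l| (fun s => (norm_zz _ _ _).le)
      h2.der
    · intro s
      have := h1.der s
      refine this.congr_deriv ?_
      congr 1
      simp [zz]
    · rw [h2.zero]; simp
  rw [hval, h3]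
  simp
  ring_nf

lemma integral_sin (K a : ℝ) : ∫ s in (0:ℝ)..1, Real.sin (a * prof K s) = 0 := by
  rw [integral_half]
  · have : ∀ s, Real.sin (a * prof K s) + Real.sin (a * prof K (s + 1/2)) = 0 := by
      intro s
      rw [prof_half, mul_neg, Real.sin_neg]; ring
    simp only [this]
    simp
  · have := (contDiff_prof K).continuous
    fun_prop

/-- the speed for which one period has displacement `x` -/
noncomputable def lam (x a₁ K a : ℝ) : ℝ := x / max (mcos K a) (Real.cos a₁)

lemma continuous_lam {x a₁ : ℝ} (h : 0 < Real.cos a₁) (K : ℝ) : Continuous (lam x a₁ K) := by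
  unfold lam
  have := continuous_mcos K
  apply Continuous.div
  · fun_prop
  · fun_prop
  · intro a
    exact (lt_of_lt_of_le h (le_max_right _ _)).ne'

lemma continuous_hval_lam {x a₁ : ℝ} (h : 0 < Real.cos a₁) (K : ℝ) :
    Continuous (fun a => hval (lam x a₁ K a) K a) := by
  rw [continuous_iff_continuousAt]
  intro a₀
  have hcl := continuous_lam (x := x) h K
  have hcp := (contDiff_prof K).continuous
  have hF : Continuous (fun a => ∫ s in (0:ℝ)..(1/2),
      ‖zA (lam x a₁ K a) K a s - zA (lam x a₁ K a₀) K a₀ s‖) := by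
    apply intervalIntegral.continuous_parametric_intervalIntegral_of_continuous'
    unfold Function.uncurry
    apply Continuous.norm
    apply Continuous.sub
    · unfold zA zz
      have := continuous_io
      fun_prop
    · unfold zA zz
      have := continuous_io
      fun_prop
  rw [ContinuousAt, tendsto_iff_dist_tendsto_zero]
  have h0 : (∫ s in (0:ℝ)..(1/2),
      ‖zA (lam x a₁ K a₀) K a₀ s - zA (lam x a₁ K a₀) K a₀ s‖) = 0 := by
    simp
  have hF0 := hF.tendsto a₀
  simp only [h0] at hF0
  refine squeeze_zero (fun _ => dist_nonneg) (fun a => ?_) hF0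
  rw [Real.dist_eq]
  exact hval_sub_le _ _ _ _ _ _

/-- value for the limiting polygonal zigzag -/
lemma tendsto_hval {x a₁ : ℝ} (h : 0 < Real.cos a₁) (hx : 0 < x) :
    Tendsto (fun K => hval (lam x a₁ K a₁) K a₁) atTop
      (𝓝 (Real.cos a₁ * Real.sin (x / (2 * Real.cos a₁)))) := by
  set u : ℂ := Complex.exp (a₁ * Complex.I) with hu
  have hun : ‖u‖ = 1 := Complex.norm_exp_ofReal_mul_I _
  set l := x / Real.cos a₁ with hl
  have hlam : Tendsto (fun K => lam x a₁ K a₁) atTop (𝓝 l) := by
    unfold lam
    have h1 := (tendsto_mcos a₁).max (tendsto_const_nhds (x := Real.cos a₁))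
    rw [max_self] at h1
    exact tendsto_const_nhds.div h1 h.ne'
  have hsol := sol_const l u hun
  have hval : ((fun s => ((Real.cos (l * s) : ℝ) : Quaternion ℝ) +
      Real.sin (l * s) • io u) (1/2)).imI = Real.cos a₁ * Real.sin (x / (2 * Real.cos a₁)) := by
    simp only [Quaternion.imI_add, Quaternion.imI_coe, Quaternion.imI_smul, io_imI, zero_add,
      smul_eq_mul]
    rw [hu, Complex.exp_ofReal_mul_I_re, hl, mul_comm]
    congr 2
    field_simp
  rw [← hval, tendsto_iff_dist_tendsto_zero]
  have hlim : Tendsto (fun K => ∫ s in (0:ℝ)..(1/2),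
      ‖zA (lam x a₁ K a₁) K a₁ s - l • io u‖) atTop (𝓝 0) := by
    have h0 : ∫ s in (0:ℝ)..(1/2), (0:ℝ) = 0 := by simp
    nth_rewrite 2 [← h0]
    apply intervalIntegral.tendsto_integral_filter_of_dominated_convergence (fun _ => 2 * l)
    · filter_upwards with K
      have := (contDiff_prof K).continuous
      have := continuous_io
      apply Continuous.aestronglyMeasurable
      unfold zA zz
      fun_prop
    · filter_upwards with K
      filter_upwards with s _
      rw [norm_norm]
      refine (norm_sub_le _ _).trans ?_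
      rw [zA, norm_zz, norm_smul, norm_io, hun, mul_one]
      have hl0 : 0 ≤ l := by positivity
      have h1 : lam x a₁ K a₁ ≤ l := by
        unfold lam
        rw [hl]
        apply div_le_div_of_nonneg_left hx.le h (le_max_right _ _)
      have h2 : 0 ≤ lam x a₁ K a₁ := by
        unfold lam
        apply div_nonneg hx.le
        exact h.le.trans (le_max_right _ _)
      rw [abs_of_nonneg h2, Real.norm_of_nonneg hl0]
      linarith
    · exact intervalIntegrable_const
    · have hne : ∀ᵐ s : ℝ, s ≠ 1/2 := by
        simp [ae_iff, measure_singleton]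
      filter_upwards [hne] with s hs hmem
      rw [uIoc_of_le (by norm_num)] at hmem
      have hlt : s < 1/2 := lt_of_le_of_ne hmem.2 hs
      have h1 := tendsto_prof hmem.1 hlt
      have h2 : Tendsto (fun K => zA (lam x a₁ K a₁) K a₁ s) atTop (𝓝 (l • io u)) := by
        unfold zA zz
        apply hlam.smul
        apply (continuous_io.tendsto _).comp
        apply (Complex.continuous_exp.tendsto _).comp
        apply Tendsto.mul_const
        apply (Complex.continuous_ofReal.tendsto _).comp
        have := h1.const_mul a₁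
        rwa [mul_one] at this
      have h3 := (h2.sub_const (l • io u)).norm
      simpa using h3
  refine squeeze_zero (fun _ => dist_nonneg) (fun K => ?_) hlim
  rw [Real.dist_eq]
  have hc := (cs_spec (lam x a₁ K a₁) K a₁).compare hsol (star_zz _ _)
    (fun s => by rw [Quaternion.star_smul, star_io, smul_neg])
    (continuous_zz (continuous_theta K a₁)) continuous_const (s := 1/2) (by norm_num)
  refine le_trans ?_ hc
  have := norm_imI_le (cs (lam x a₁ K a₁) K a₁ (1/2) - (fun s => ((Real.cos (l * s) : ℝ) :
    Quaternion ℝ) + Real.sin (l * s) • io u) (1/2))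
  rwa [Quaternion.imI_sub] at this

/-- **Existence of closing zigzags.** -/
theorem exists_zigzag {X a₁ : ℝ} {N : ℕ} (hX : 0 < X) (ha0 : 0 < a₁) (ha1 : a₁ < Real.pi / 2)
    (hN : Odd N) (h1 : Real.cos (Real.pi / (2 * N)) ≤ Real.sin (X / (2 * N)))
    (h2 : Real.cos a₁ * Real.sin (X / (2 * N * Real.cos a₁)) < Real.cos (Real.pi / (2 * N))) :
    ∃ (l a K : ℝ), 0 < l ∧ 0 ≤ a ∧ a < a₁ ∧ l * mcos K a * N = X ∧
      ∀ s, cs l K a (s + N) = cs l K a s := by
  have hNpos : (0:ℝ) < N := by exact_mod_cast hN.pos
  have hcos : 0 < Real.cos a₁ := Real.cos_pos_of_mem_Ioo ⟨by linarith, ha1⟩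
  set x := X / N with hx
  have hxpos : 0 < x := by positivity
  have e1 : x / (2 * Real.cos a₁) = X / (2 * N * Real.cos a₁) := by
    rw [hx]; field_simp
  have h3 := tendsto_hval hcos hxpos
  rw [e1] at h3
  obtain ⟨K, hK⟩ := (h3.eventually (gt_mem_nhds h2)).exists
  have hcont := continuous_hval_lam (x := x) hcos K
  have h0 : Real.cos (Real.pi / (2 * N)) ≤ hval (lam x a₁ K 0) K 0 := by
    rw [hval_zero]
    have : lam x a₁ K 0 = x := by
      rw [lam, mcos_zero, max_eq_left (Real.cos_le_one _), div_one]
    rw [this, hx]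
    convert h1 using 2
    field_simp
  obtain ⟨a, ⟨haa, hab⟩, hval⟩ := intermediate_value_Icc' ha0.le hcont.continuousOn
    (⟨hK.le, h0⟩ : Real.cos (Real.pi / (2 * N)) ∈
      Icc (hval (lam x a₁ K a₁) K a₁) (hval (lam x a₁ K 0) K 0))
  have hlt : a < a₁ := by
    rcases hab.lt_or_eq with h | h
    · exact h
    · exfalso
      rw [h] at hval
      simp only at hval
      linarith
  have hm : Real.cos a₁ ≤ mcos K a := by
    refine le_trans ?_ (cos_le_mcos K haa (by linarith [Real.pi_pos]))
    exact Real.cos_le_cos_of_nonneg_of_le_pi haa (by linarith [Real.pi_pos]) hab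
  have hlam : lam x a₁ K a = x / mcos K a := by
    rw [lam, max_eq_left hm]
  have hmpos : 0 < mcos K a := hcos.trans_le hm
  refine ⟨lam x a₁ K a, a, K, ?_, haa, hlt, ?_, ?_⟩
  · rw [hlam]; positivity
  · rw [hlam, hx]; field_simp
  · intro s
    apply (cs_spec (lam x a₁ K a) K a).closing (continuous_theta K a)
      (fun s => by rw [prof_half, mul_neg]) hN
    exact hval

end Pool.Agent.helper70.Tori
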