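import Pool.Agent.helper70.Tori.SArc
import Pool.Agent.helper70.Tori.Zigzag

/-!
Smooth closed arcs from the corner criterion.
-/

open MeasureTheory intervalIntegral Set Quaternion Filter
open scoped Topology ContDiff

namespace Pool.Agent.helper70.Tori

/-- unit quaternion with real part `cos φ` lies in a copy of `ℂ` -/
lemma exists_hom (h : Quaternion ℝ) (hn : ‖h‖ = 1) (φ : ℝ) (hsin : 0 < Real.sin φ)
    (hre : h.re = Real.cos φ) : ∃ L : ℂ →ₐ[ℝ] Quaternion ℝ, L (Complex.exp (φ * Complex.I)) = h := by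
  let v : Quaternion ℝ := (Real.sin φ)⁻¹ • (h - ((h.re : ℝ) : Quaternion ℝ))
  have hv0 : v.re = 0 := by simp [v]
  have hnh := norm_sq_eq h
  rw [hn] at hnh
  have hsc := Real.sin_sq_add_cos_sq φ
  have him : h.imI ^ 2 + h.imJ ^ 2 + h.imK ^ 2 = Real.sin φ ^ 2 := by
    rw [hre] at hnh
    linarith
  have hvv : v * v = -1 := by
    have hs : Real.sin φ ≠ 0 := hsin.ne'
    apply Quaternion.ext
    · rw [Quaternion.re_mul]
      simp only [hv0, Quaternion.re_neg, Quaternion.re_one]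
      simp only [v, Quaternion.imI_smul, Quaternion.imJ_smul, Quaternion.imK_smul,
        Quaternion.imI_sub, Quaternion.imJ_sub, Quaternion.imK_sub, Quaternion.imI_coe,
        Quaternion.imJ_coe, Quaternion.imK_coe, smul_eq_mul, sub_zero]
      field_simp
      linarith
    · rw [Quaternion.imI_mul]
      simp only [hv0, Quaternion.imI_neg, Quaternion.imI_one]
      ring
    · rw [Quaternion.imJ_mul]
      simp only [hv0, Quaternion.imJ_neg, Quaternion.imJ_one]
      ring
    · rw [Quaternion.imK_mul]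
      simp only [hv0, Quaternion.imK_neg, Quaternion.imK_one]
      ring
  let L : ℂ →ₐ[ℝ] Quaternion ℝ := Complex.lift ⟨v, hvv⟩
  refine ⟨L, ?_⟩
  rw [Complex.exp_mul_I, ← Complex.ofReal_cos, ← Complex.ofReal_sin]
  have e1 : L ((Real.cos φ : ℂ) + (Real.sin φ : ℂ) * Complex.I) =
      algebraMap ℝ _ (Real.cos φ) + algebraMap ℝ _ (Real.sin φ) * v := by
    rw [map_add, map_mul]
    congr 1
    · exact L.commutes _
    · congr 1
      · exact L.commutes _
      · exact Complex.liftAux_apply_I v hvv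
  rw [e1, ← hre]
  simp only [v]
  rw [mul_smul_comm, ← Algebra.smul_def, smul_smul, inv_mul_cancel₀ hsin.ne', one_smul]
  simp

lemma pow_re (h : Quaternion ℝ) (hn : ‖h‖ = 1) (φ : ℝ) (hsin : 0 < Real.sin φ)
    (hre : h.re = Real.cos φ) (n : ℕ) : (h ^ n).re = Real.cos (n * φ) := by
  obtain ⟨L, hL⟩ := exists_hom h hn φ hsin hre
  rw [← hL, ← map_pow, ← Complex.exp_nat_mul]
  have e : ((n : ℕ) : ℂ) * (φ * Complex.I) = ((n * φ : ℝ) : ℂ) * Complex.I := by
    push_cast; ring
  rw [e, Complex.exp_mul_I, ← Complex.ofReal_cos, ← Complex.ofReal_sin]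
  have hLI : L Complex.I * L Complex.I = -1 := by
    rw [← map_mul, Complex.I_mul_I, map_neg, map_one]
  have hre0 : (L Complex.I).re = 0 := by
    set q := L Complex.I with hq
    have h1 := congrArg (fun x : Quaternion ℝ => x.re) hLI
    have h2 := congrArg (fun x : Quaternion ℝ => x.imI) hLI
    have h3 := congrArg (fun x : Quaternion ℝ => x.imJ) hLI
    have h4 := congrArg (fun x : Quaternion ℝ => x.imK) hLI
    simp only [Quaternion.re_mul, Quaternion.re_neg, Quaternion.re_one] at h1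
    simp only [Quaternion.imI_mul, Quaternion.imI_neg, Quaternion.imI_one] at h2
    simp only [Quaternion.imJ_mul, Quaternion.imJ_neg, Quaternion.imJ_one] at h3
    simp only [Quaternion.imK_mul, Quaternion.imK_neg, Quaternion.imK_one] at h4
    by_contra hne
    have a2 : q.imI = 0 := by
      have : q.re * q.imI = 0 := by linarith
      exact (mul_eq_zero.1 this).resolve_left hne
    have a3 : q.imJ = 0 := by
      have : q.re * q.imJ = 0 := by linarith
      exact (mul_eq_zero.1 this).resolve_left hne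
    have a4 : q.imK = 0 := by
      have : q.re * q.imK = 0 := by linarith
      exact (mul_eq_zero.1 this).resolve_left hne
    rw [a2, a3, a4] at h1
    nlinarith [mul_self_nonneg q.re]
  have e1 : L ((Real.cos (n * φ) : ℂ) + (Real.sin (n * φ) : ℂ) * Complex.I) =
      algebraMap ℝ _ (Real.cos (n * φ)) + algebraMap ℝ _ (Real.sin (n * φ)) * L Complex.I := by
    rw [map_add, map_mul]
    congr 1
    · exact L.commutes _
    · congr 1
      exact L.commutes _
  rw [e1, Quaternion.re_add, Quaternion.re_mul, hre0]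
  simp

/-- powers closing up -/
lemma pow_close (h : Quaternion ℝ) (hn : ‖h‖ = 1) (N : ℕ) (hN : 2 ≤ N)
    (hre : h.re = -Real.cos (Real.pi / N)) : h ^ N = ((-1 : ℝ) ^ (N - 1)) • (1 : Quaternion ℝ) := by
  have hNr : (2 : ℝ) ≤ N := by exact_mod_cast hN
  have hpi := Real.pi_pos
  set φ : ℝ := Real.pi - Real.pi / N with hφ
  have hφ1 : 0 < Real.pi / N := by positivity
  have hφ2 : Real.pi / N ≤ Real.pi / 2 := by
    apply div_le_div_of_nonneg_left hpi.le (by norm_num) hNr
  have hsin : 0 < Real.sin φ := Real.sin_pos_of_pos_of_lt_pi (by linarith) (by linarith)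
  have hre' : h.re = Real.cos φ := by rw [hφ, Real.cos_pi_sub, hre]
  have h1 := pow_re h hn φ hsin hre' N
  have e : (N : ℝ) * φ = ((N - 1 : ℕ) : ℝ) * Real.pi := by
    rw [hφ, Nat.cast_sub (by omega)]
    push_cast
    field_simp
  rw [e, Real.cos_nat_mul_pi] at h1
  have h2 : ‖h ^ N‖ = 1 := by rw [norm_pow, hn, one_pow]
  have h3 := norm_sq_eq (h ^ N)
  rw [h2, h1] at h3
  have h4 : ((-1 : ℝ) ^ (N - 1)) ^ 2 = 1 := by rw [← pow_mul, mul_comm, pow_mul]; norm_num
  rw [h4] at h3
  have i1 : (h ^ N).imI = 0 := by nlinarith [sq_nonneg (h ^ N).imI, sq_nonneg (h ^ N).imJ, sq_nonneg (h ^ N).imK]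
  have i2 : (h ^ N).imJ = 0 := by nlinarith [sq_nonneg (h ^ N).imI, sq_nonneg (h ^ N).imJ, sq_nonneg (h ^ N).imK]
  have i3 : (h ^ N).imK = 0 := by nlinarith [sq_nonneg (h ^ N).imI, sq_nonneg (h ^ N).imJ, sq_nonneg (h ^ N).imK]
  apply Quaternion.ext
  · rw [h1]; simp
  · rw [i1]; simp
  · rw [i2]; simp
  · rw [i3]; simp

/-- the control: `w + τ S_K(s) v` -/
noncomputable def ctl (w v : ℂ) (K τ s : ℝ) : ℂ := w + (τ * prof K s) • v

lemma contDiff_ctl (w v : ℂ) (K τ : ℝ) : ContDiff ℝ ∞ (ctl w v K τ) := by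
  unfold ctl
  have := contDiff_prof K
  fun_prop

lemma norm_ctl_le (w v : ℂ) (K τ s : ℝ) : ‖io (ctl w v K τ s)‖ ≤ ‖w‖ + |τ| * ‖v‖ := by
  rw [norm_io, ctl]
  refine (norm_add_le _ _).trans ?_
  rw [norm_smul, Real.norm_eq_abs, abs_mul]
  have := abs_prof_le K s
  have h1 : |τ| * |prof K s| ≤ |τ| := by
    have := abs_nonneg τ
    nlinarith
  have := norm_nonneg v
  nlinarith

lemma exists_sol_ctl (w v : ℂ) (K τ : ℝ) : ∃ c, Sol (fun s => io (ctl w v K τ s)) c :=
  exists_sol _ (continuous_io.comp (contDiff_ctl w v K τ).continuous) _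
    (fun s => norm_ctl_le w v K τ s)

/-- the solution -/
noncomputable def cc (w v : ℂ) (K τ : ℝ) : ℝ → Quaternion ℝ :=
  Classical.choose (exists_sol_ctl w v K τ)

lemma cc_spec (w v : ℂ) (K τ : ℝ) : Sol (fun s => io (ctl w v K τ s)) (cc w v K τ) :=
  Classical.choose_spec (exists_sol_ctl w v K τ)

lemma continuous_io_ctl (w v : ℂ) (K τ : ℝ) : Continuous (fun s => io (ctl w v K τ s)) :=
  continuous_io.comp (contDiff_ctl w v K τ).continuous

lemma norm_cc (w v : ℂ) (K τ s : ℝ) : ‖cc w v K τ s‖ = 1 :=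
  (cc_spec w v K τ).norm (fun _ => star_io _) s

/-- Lipschitz dependence on `τ` -/
lemma cc_sub_le (w v : ℂ) (K τ τ' : ℝ) {s : ℝ} (hs : 0 ≤ s) :
    ‖cc w v K τ s - cc w v K τ' s‖ ≤ s * (|τ - τ'| * ‖v‖) := by
  have h := (cc_spec w v K τ).compare (cc_spec w v K τ') (fun _ => star_io _)
    (fun _ => star_io _) (continuous_io_ctl _ _ _ _) (continuous_io_ctl _ _ _ _) hs
  refine h.trans ?_
  have h2 : ∀ x, ‖io (ctl w v K τ x) - io (ctl w v K τ' x)‖ ≤ |τ - τ'| * ‖v‖ := by
    intro x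
    rw [← map_sub, norm_io, ctl, ctl]
    have : w + (τ * prof K x) • v - (w + (τ' * prof K x) • v) = ((τ - τ') * prof K x) • v := by
      module
    rw [this, norm_smul, Real.norm_eq_abs, abs_mul]
    have h3 := abs_prof_le K x
    have h4 : |τ - τ'| * |prof K x| ≤ |τ - τ'| := by
      have := abs_nonneg (τ - τ')
      nlinarith
    have := norm_nonneg v
    nlinarith
  have h3 := intervalIntegral.integral_mono_on (μ := volume) hs (f := fun x => ‖io (ctl w v K τ x) -
    io (ctl w v K τ' x)‖) (g := fun _ => |τ - τ'| * ‖v‖)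
    (((continuous_io_ctl w v K τ).sub (continuous_io_ctl w v K τ')).norm.intervalIntegrable _ _)
    intervalIntegrable_const (fun x _ => h2 x)
  refine h3.trans ?_
  rw [intervalIntegral.integral_const, smul_eq_mul, sub_zero]

lemma continuous_cc_tau (w v : ℂ) (K : ℝ) {s : ℝ} (hs : 0 ≤ s) :
    Continuous (fun τ => cc w v K τ s) := by
  rw [continuous_iff_continuousAt]
  intro τ₀
  rw [ContinuousAt, tendsto_iff_dist_tendsto_zero]
  have h1 : Tendsto (fun τ => s * (|τ - τ₀| * ‖v‖)) (𝓝 τ₀) (𝓝 0) := by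
    have : Continuous (fun τ => s * (|τ - τ₀| * ‖v‖)) := by fun_prop
    have h := this.tendsto τ₀
    simpa using h
  refine squeeze_zero (fun _ => dist_nonneg) (fun τ => ?_) h1
  rw [dist_eq_norm]
  exact cc_sub_le w v K τ τ₀ hs

lemma ex_eq_const {a : ℂ} (ha : a ≠ 0) :
    Sol (fun _ => io ((2:ℝ) • a)) (fun s => ((Real.cos (2 * ‖a‖ * s) : ℝ) : Quaternion ℝ) +
      Real.sin (2 * ‖a‖ * s) • io ((‖a‖⁻¹ : ℝ) • a)) := by
  have hn : ‖(‖a‖⁻¹ : ℝ) • a‖ = 1 := by
    rw [norm_smul, norm_inv, norm_norm, inv_mul_cancel₀ (norm_ne_zero_iff.2 ha)]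
  have h := sol_const (2 * ‖a‖) ((‖a‖⁻¹ : ℝ) • a) hn
  have e : ∀ s : ℝ, io ((2:ℝ) • a) = (2 * ‖a‖) • io ((‖a‖⁻¹ : ℝ) • a) := by
    intro _
    rw [← map_smul, smul_smul, mul_assoc, mul_inv_cancel₀ (norm_ne_zero_iff.2 ha), mul_one]
  have e2 : (fun _ : ℝ => io ((2:ℝ) • a)) = fun _ => (2 * ‖a‖) • io ((‖a‖⁻¹ : ℝ) • a) :=
    funext e
  rw [e2]
  exact h

/-- value at half period in the limit `K → ∞`, `τ = 1` -/
lemma tendsto_cc_half {w v : ℂ} (h : w + v ≠ 0) :
    Tendsto (fun K => cc w v K 1 (1/2)) atTop (𝓝 (ex ((1/2 : ℝ) • (w + v)))) := by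
  set a : ℂ := (1/2 : ℝ) • (w + v) with ha
  have ha0 : a ≠ 0 := by
    rw [ha]
    exact smul_ne_zero (by norm_num) h
  have hsol := ex_eq_const ha0
  have hval : (fun s => ((Real.cos (2 * ‖a‖ * s) : ℝ) : Quaternion ℝ) +
      Real.sin (2 * ‖a‖ * s) • io ((‖a‖⁻¹ : ℝ) • a)) (1/2) = ex a := by
    simp only [ex]
    rw [show 2 * ‖a‖ * (1/2) = ‖a‖ by ring, map_smul, smul_smul, ← div_eq_mul_inv]
  rw [← hval, tendsto_iff_dist_tendsto_zero]
  have e2a : (2:ℝ) • a = w + v := by
    rw [ha, smul_smul]; norm_num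
  have hlim : Tendsto (fun K => ∫ s in (0:ℝ)..(1/2),
      ‖io (ctl w v K 1 s) - io ((2:ℝ) • a)‖) atTop (𝓝 0) := by
    have h0 : ∫ s in (0:ℝ)..(1/2), (0:ℝ) = 0 := by simp
    nth_rewrite 2 [← h0]
    apply intervalIntegral.tendsto_integral_filter_of_dominated_convergence
      (fun _ => 2 * ‖v‖)
    · filter_upwards with K
      exact (((continuous_io_ctl w v K 1).sub continuous_const).norm).aestronglyMeasurable
    · filter_upwards with K
      filter_upwards with s _
      rw [norm_norm, ← map_sub, norm_io, e2a, ctl]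
      have : w + (1 * prof K s) • v - (w + v) = (prof K s - 1) • v := by module
      rw [this, norm_smul, Real.norm_eq_abs]
      have h1 := abs_le.1 (abs_prof_le K s)
      have h2 : |prof K s - 1| ≤ 2 := by
        rw [abs_le]; constructor <;> linarith
      exact mul_le_mul_of_nonneg_right h2 (norm_nonneg _)
    · exact intervalIntegrable_const
    · have hne : ∀ᵐ s : ℝ, s ≠ 1/2 := by
        simp [ae_iff, measure_singleton]
      filter_upwards [hne] with s hs hmem
      rw [uIoc_of_le (by norm_num)] at hmem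
      have hlt : s < 1/2 := lt_of_le_of_ne hmem.2 hs
      have h1 := tendsto_prof hmem.1 hlt
      have h2 : Tendsto (fun K => io (ctl w v K 1 s)) atTop (𝓝 (io ((2:ℝ) • a))) := by
        apply (continuous_io.tendsto _).comp
        rw [e2a]
        unfold ctl
        have h3 : Tendsto (fun K => (1 * prof K s) • v) atTop (𝓝 ((1:ℝ) • v)) := by
          apply Tendsto.smul_const
          simpa using h1
        rw [one_smul] at h3
        exact tendsto_const_nhds.add h3
      have h3 := (h2.sub_const (io ((2:ℝ) • a))).norm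
      simpa using h3
  refine squeeze_zero (fun _ => dist_nonneg) (fun K => ?_) hlim
  rw [dist_eq_norm]
  exact (cc_spec w v K 1).compare hsol (fun _ => star_io _) (fun _ => star_io _)
    (continuous_io_ctl w v K 1) continuous_const (s := 1/2) (by norm_num)

lemma ctl_half (w v : ℂ) (K τ s : ℝ) : ctl w v K τ (s + 1/2) = ctl w (-v) K τ s := by
  rw [ctl, ctl, prof_half]
  module

lemma prof_one (K s : ℝ) : prof K (s + 1) = prof K s := by
  have e1 := prof_half K (s + 1/2)
  rw [prof_half K s, show s + 1/2 + 1/2 = s + 1 by ring, neg_neg] at e1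
  exact e1

lemma ctl_one (w v : ℂ) (K τ s : ℝ) : ctl w v K τ (s + 1) = ctl w v K τ s := by
  rw [ctl, ctl, prof_one]

lemma cc_half (w v : ℂ) (K τ s : ℝ) :
    cc w v K τ (s + 1/2) = cc w v K τ (1/2) * cc w (-v) K τ s := by
  have h1 : (fun s => cc w v K τ (s + 1/2)) = fun s => cc w v K τ (1/2) * cc w (-v) K τ s := by
    apply ode_unique (continuous_io_ctl w (-v) K τ) _ (fun s => norm_ctl_le w (-v) K τ s)
    · intro s
      have := ((cc_spec w v K τ).der (s + 1/2)).comp_add_const s (1/2)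
      rwa [ctl_half] at this
    · intro s
      have h2 := ((cc_spec w (-v) K τ).der s).const_mul (cc w v K τ (1/2))
      refine h2.congr_deriv ?_
      rw [mul_assoc]
    · simp only [(cc_spec w (-v) K τ).zero, zero_add, mul_one]
  exact congrFun h1 s

lemma cc_one (w v : ℂ) (K τ : ℝ) : cc w v K τ 1 = cc w v K τ (1/2) * cc w (-v) K τ (1/2) := by
  rw [← cc_half]; norm_num

lemma cc_add_one (w v : ℂ) (K τ s : ℝ) : cc w v K τ (s + 1) = cc w v K τ 1 * cc w v K τ s := by
  have h1 : (fun s => cc w v K τ (s + 1)) = fun s => cc w v K τ 1 * cc w v K τ s := by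
    apply ode_unique (continuous_io_ctl w v K τ) _ (fun s => norm_ctl_le w v K τ s)
    · intro s
      have := ((cc_spec w v K τ).der (s + 1)).comp_add_const s 1
      rwa [ctl_one] at this
    · intro s
      have h2 := ((cc_spec w v K τ).der s).const_mul (cc w v K τ 1)
      refine h2.congr_deriv ?_
      rw [mul_assoc]
    · simp only [(cc_spec w v K τ).zero, zero_add, mul_one]
  exact congrFun h1 s

lemma cc_add_nat (w v : ℂ) (K τ : ℝ) (N : ℕ) (s : ℝ) :
    cc w v K τ (s + N) = cc w v K τ 1 ^ N * cc w v K τ s := by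
  induction N with
  | zero => simp
  | succ n ih =>
    have : s + ((n + 1 : ℕ) : ℝ) = (s + n) + 1 := by push_cast; ring
    rw [this, cc_add_one, ih, pow_succ', mul_assoc]

lemma tendsto_cc_one {w v : ℂ} (h : w + v ≠ 0) (h' : w - v ≠ 0) :
    Tendsto (fun K => cc w v K 1 1) atTop
      (𝓝 (ex ((1/2 : ℝ) • (w + v)) * ex ((1/2 : ℝ) • (w - v)))) := by
  simp_rw [cc_one]
  have h1 := tendsto_cc_half h
  have h2 := tendsto_cc_half (w := w) (v := -v) (by rwa [← sub_eq_add_neg])
  rw [← sub_eq_add_neg] at h2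
  exact h1.mul h2

/-- primitive of the profile -/
noncomputable def iprof (K s : ℝ) : ℝ := ∫ x in (0:ℝ)..s, prof K x

lemma hasDerivAt_iprof (K s : ℝ) : HasDerivAt (iprof K) (prof K s) s := by
  have hcont : Continuous (prof K) := (contDiff_prof K).continuous
  exact intervalIntegral.integral_hasDerivAt_right (hcont.intervalIntegrable 0 s)
    (hcont.stronglyMeasurableAtFilter _ _) hcont.continuousAt

lemma iprof_one (K : ℝ) : iprof K 1 = 0 := by
  unfold iprof
  rw [integral_half _ (contDiff_prof K).continuous]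
  have : ∀ s, prof K s + prof K (s + 1/2) = 0 := by
    intro s; rw [prof_half]; ring
  simp only [this]
  simp

lemma iprof_add_one (K s : ℝ) : iprof K (s + 1) = iprof K s := by
  have hd : ∀ s, HasDerivAt (fun s => iprof K (s + 1) - iprof K s) 0 s := by
    intro s
    have h3 := ((hasDerivAt_iprof K (s + 1)).comp_add_const s 1).sub (hasDerivAt_iprof K s)
    refine h3.congr_deriv ?_
    rw [prof_one, sub_self]
  have h4 := is_const_of_deriv_eq_zero (fun s => (hd s).differentiableAt)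
    (fun s => (hd s).deriv) s 0
  have e0 : iprof K 0 = 0 := by simp [iprof]
  simp only [zero_add, iprof_one, e0, sub_self] at h4
  linarith

/-- the planar curve -/
noncomputable def PP (w v : ℂ) (K τ s : ℝ) : ℂ := s • w + (τ * iprof K s) • v

lemma hasDerivAt_PP (w v : ℂ) (K τ s : ℝ) : HasDerivAt (PP w v K τ) (ctl w v K τ s) s := by
  have h1 := (hasDerivAt_id s).smul_const w
  have h2 := ((hasDerivAt_iprof K s).const_mul τ).smul_const v
  have h3 := h1.add h2
  refine h3.congr_deriv ?_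
  rw [ctl, one_smul]

lemma PP_add_one (w v : ℂ) (K τ s : ℝ) : PP w v K τ (s + 1) = PP w v K τ s + w := by
  rw [PP, PP, iprof_add_one]
  module

lemma PP_add_nat (w v : ℂ) (K τ : ℝ) (N : ℕ) (s : ℝ) :
    PP w v K τ (s + N) = PP w v K τ s + N * w := by
  induction N with
  | zero => simp
  | succ n ih =>
    have : s + ((n + 1 : ℕ) : ℝ) = (s + n) + 1 := by push_cast; ring
    rw [this, PP_add_one, ih]
    push_cast; ring

/-- the velocity stays in the cone -/
lemma ctl_cone {e f a b : ℂ} (ha : InC e f a) (hb : InC e f b) {τ : ℝ} (h0 : 0 ≤ τ) (h1 : τ ≤ 1)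
    (K : ℝ) : ∃ δ : ℝ, 0 < δ ∧ ∀ s, ∃ x y : ℝ, δ ≤ x ∧ δ ≤ y ∧
      ctl (a + b) (a - b) K τ s = x * e + y * f := by
  obtain ⟨a₁, a₂, ha1, ha2, rfl⟩ := ha
  obtain ⟨b₁, b₂, hb1, hb2, rfl⟩ := hb
  refine ⟨2 * min (min a₁ a₂) (min b₁ b₂), by positivity, ?_⟩
  intro s
  have hp := abs_le.1 (abs_prof_le K s)
  have hp1 : -1 ≤ τ * prof K s := by nlinarith
  have hp2 : τ * prof K s ≤ 1 := by nlinarith
  set q := τ * prof K s with hq
  have m1 : min (min a₁ a₂) (min b₁ b₂) ≤ a₁ := (min_le_left _ _).trans (min_le_left _ _)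
  have m2 : min (min a₁ a₂) (min b₁ b₂) ≤ a₂ := (min_le_left _ _).trans (min_le_right _ _)
  have m3 : min (min a₁ a₂) (min b₁ b₂) ≤ b₁ := (min_le_right _ _).trans (min_le_left _ _)
  have m4 : min (min a₁ a₂) (min b₁ b₂) ≤ b₂ := (min_le_right _ _).trans (min_le_right _ _)
  refine ⟨(1 + q) * a₁ + (1 - q) * b₁, (1 + q) * a₂ + (1 - q) * b₂, by nlinarith, by nlinarith, ?_⟩
  rw [ctl, ← hq]
  simp only [Complex.real_smul]
  push_cast
  ring

lemma InC.ne_zero {e f a : ℂ} (hef : cr e f ≠ 0) (ha : InC e f a) : a ≠ 0 := by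
  obtain ⟨x, y, hx, hy, rfl⟩ := ha
  intro h
  have := congrArg (Lx e f) h
  rw [Lx_apply hef, map_zero] at this
  linarith

/-- closed arcs from corners, `N ≥ 2` -/
theorem arc_of_corner {e f : ℂ} (hef : cr e f ≠ 0) {N : ℕ} (hN : 2 ≤ N) {a b : ℂ}
    (ha : InC e f a) (hb : InC e f b)
    (h1 : Real.pi * ((N : ℝ) - 1) ≤ ‖(N : ℂ) * (a + b)‖)
    (h2 : ‖(N : ℂ) * (a + b)‖ ≤ Real.pi * ((N : ℝ) + 1))
    (h3 : -Real.cos (Real.pi / N) < RC a b) :
    Nonempty (SArc e f (N * (a + b)) ((-1) ^ (N - 1))) := by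
  have hpi := Real.pi_pos
  have hNr : (2 : ℝ) ≤ N := by exact_mod_cast hN
  have hN0 : (0 : ℝ) < N := by linarith
  set w := a + b with hw
  set v := a - b with hv
  have ea : (1/2 : ℝ) • (w + v) = a := by rw [hw, hv]; module
  have eb : (1/2 : ℝ) • (w - v) = b := by rw [hw, hv]; module
  have hwv : w + v ≠ 0 := by
    intro h
    rw [h, smul_zero] at ea
    exact ha.ne_zero hef ea.symm
  have hwv' : w - v ≠ 0 := by
    intro h
    rw [h, smul_zero] at eb
    exact hb.ne_zero hef eb.symm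
  -- value at τ = 1 for large K
  have hlim := tendsto_cc_one hwv hwv'
  rw [ea, eb] at hlim
  have hlim' : Tendsto (fun K => (cc w v K 1 1).re) atTop (𝓝 (RC a b)) := by
    rw [← re_ex_mul_ex]
    exact (Quaternion.continuous_re.tendsto _).comp hlim
  obtain ⟨K, hK⟩ := (hlim'.eventually (lt_mem_nhds h3)).exists
  -- value at τ = 0
  have hnorm : ‖(N : ℂ) * w‖ = N * ‖w‖ := by
    rw [norm_mul, Complex.norm_natCast]
  rw [hnorm] at h1 h2
  have hw1 : Real.pi - Real.pi / N ≤ ‖w‖ := by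
    have : Real.pi - Real.pi / N = Real.pi * ((N : ℝ) - 1) / N := by field_simp
    rw [this, div_le_iff₀ hN0]
    linarith
  have hw2 : ‖w‖ ≤ Real.pi + Real.pi / N := by
    have : Real.pi + Real.pi / N = Real.pi * ((N : ℝ) + 1) / N := by field_simp
    rw [this, le_div_iff₀ hN0]
    linarith
  have hpN : 0 < Real.pi / N := by positivity
  have hpN2 : Real.pi / N ≤ Real.pi / 2 :=
    div_le_div_of_nonneg_left hpi.le (by norm_num) hNr
  have hcosw : Real.cos ‖w‖ ≤ -Real.cos (Real.pi / N) := by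
    rw [← Real.cos_pi_sub]
    rcases le_total ‖w‖ Real.pi with h | h
    · exact Real.cos_le_cos_of_nonneg_of_le_pi (by linarith) h hw1
    · rw [← Real.cos_two_pi_sub ‖w‖]
      apply Real.cos_le_cos_of_nonneg_of_le_pi (by linarith) (by linarith) (by linarith)
  have hw0 : w ≠ 0 := by
    intro h
    rw [h, norm_zero] at hw1
    linarith
  have hzero : (cc w v K 0 1).re = Real.cos ‖w‖ := by
    have hn : ‖(‖w‖⁻¹ : ℝ) • w‖ = 1 := by
      rw [norm_smul, norm_inv, norm_norm, inv_mul_cancel₀ (norm_ne_zero_iff.2 hw0)]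
    have h := sol_const ‖w‖ ((‖w‖⁻¹ : ℝ) • w) hn
    have e2 : (fun _ : ℝ => ‖w‖ • io ((‖w‖⁻¹ : ℝ) • w)) = fun s => io (ctl w v K 0 s) := by
      funext s
      rw [← map_smul, smul_smul, mul_inv_cancel₀ (norm_ne_zero_iff.2 hw0), one_smul, ctl]
      simp
    rw [e2] at h
    have h4 : cc w v K 0 = _ := ode_unique (continuous_io_ctl w v K 0) _
      (fun s => norm_ctl_le w v K 0 s) (cc_spec w v K 0).der h.der
      (by rw [(cc_spec w v K 0).zero]; exact h.zero.symm)
    rw [h4]
    simp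
  have hcont : Continuous (fun τ => (cc w v K τ 1).re) :=
    Quaternion.continuous_re.comp (continuous_cc_tau w v K (by norm_num))
  obtain ⟨τ, ⟨hτ0, hτ1⟩, hτ⟩ := intermediate_value_Icc (zero_le_one' ℝ) hcont.continuousOn
    (⟨hzero.le.trans hcosw, hK.le⟩ : -Real.cos (Real.pi / N) ∈
      Icc ((cc w v K 0 1).re) ((cc w v K 1 1).re))
  refine ⟨{
    T := N
    u := ctl w v K τ
    P := PP w v K τ
    c := cc w v K τ
    hu := contDiff_ctl w v K τ
    hcone := ctl_cone ha hb hτ0 hτ1 K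
    hP := hasDerivAt_PP w v K τ
    hc := cc_spec w v K τ
    hPT := fun s => PP_add_nat w v K τ N s
    hcT := ?_ }⟩
  intro s
  rw [cc_add_nat, pow_close _ (norm_cc w v K τ 1) N hN hτ, smul_mul_assoc, one_mul]

end Pool.Agent.helper70.Tori
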