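import Pool.Agent.helper70.Tori.Zigzag

/-!
Closed asymptotic curves in arbitrary direction.
-/

open MeasureTheory intervalIntegral Set Quaternion Filter
open scoped Topology ContDiff

namespace Pool.Agent.helper70.Tori

/-- rotation quaternion `w.re + w.im k` -/
noncomputable def rotq (w : ℂ) : Quaternion ℝ := ⟨w.re, 0, 0, w.im⟩

@[simp] lemma rotq_re (w : ℂ) : (rotq w).re = w.re := rfl
@[simp] lemma rotq_imI (w : ℂ) : (rotq w).imI = 0 := rfl
@[simp] lemma rotq_imJ (w : ℂ) : (rotq w).imJ = 0 := rfl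
@[simp] lemma rotq_imK (w : ℂ) : (rotq w).imK = w.im := rfl

lemma norm_rotq (w : ℂ) : ‖rotq w‖ = ‖w‖ := by
  have h1 := norm_sq_eq (rotq w)
  have h2 : ‖w‖ ^ 2 = w.re ^ 2 + w.im ^ 2 := by
    rw [Complex.sq_norm, Complex.normSq_apply]; ring
  simp only [rotq_re, rotq_imI, rotq_imJ, rotq_imK] at h1
  have h3 : ‖rotq w‖ ^ 2 = ‖w‖ ^ 2 := by rw [h1, h2]; ring
  exact (sq_eq_sq₀ (norm_nonneg _) (norm_nonneg _)).1 h3

lemma rotq_conj (w z : ℂ) : rotq w * io z * star (rotq w) = io (w * w * z) := by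
  apply Quaternion.ext
  · rw [Quaternion.re_mul]; simp
  · rw [Quaternion.imI_mul]; simp; ring
  · rw [Quaternion.imJ_mul]; simp; ring
  · rw [Quaternion.imK_mul]; simp

lemma star_rotq_mul {w : ℂ} (hw : ‖w‖ = 1) : star (rotq w) * rotq w = 1 := by
  have h5 : ‖star (rotq w)‖ = 1 := by rw [_root_.norm_star, norm_rotq, hw]
  have h6 := (norm_eq_one_iff _).1 h5
  rwa [star_star] at h6

lemma rotq_mul_star {w : ℂ} (hw : ‖w‖ = 1) : rotq w * star (rotq w) = 1 := by
  have h5 : ‖rotq w‖ = 1 := by rw [norm_rotq, hw]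
  exact (norm_eq_one_iff _).1 h5

lemma exists_sq {u : ℂ} (hu : ‖u‖ = 1) : ∃ w : ℂ, ‖w‖ = 1 ∧ w * w = u := by
  obtain ⟨w, hw⟩ := IsSquare.exists_mul_self u (Complex.isSquare u) 
  refine ⟨w, ?_, hw.symm⟩
  have : ‖w‖ * ‖w‖ = 1 := by rw [← norm_mul, ← hw, hu]
  nlinarith [norm_nonneg w]

/-- A closed curve of asymptotic type: direction `u * exp(iθ)`, `|θ| ≤ a`, speed `l`,
period `T`, displacement `X u`, lifted to a closed curve in the unit quaternions. -/
structure ClosedArc (X : ℝ) (u : ℂ) (a : ℝ) where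
  l : ℝ
  T : ℝ
  θ : ℝ → ℝ
  P : ℝ → ℂ
  c : ℝ → Quaternion ℝ
  hl : 0 < l
  hθ : ContDiff ℝ ∞ θ
  hθa : ∀ s, |θ s| ≤ a
  hP : ∀ s, HasDerivAt P (l • (u * Complex.exp (θ s * Complex.I))) s
  hc : Sol (fun s => io (l • (u * Complex.exp (θ s * Complex.I)))) c
  hPT : ∀ s, P (s + T) = P s + X • u
  hcT : ∀ s, c (s + T) = c s

lemma ClosedArc.contDiff_dP {X : ℝ} {u : ℂ} {a : ℝ} (C : ClosedArc X u a) :
    ContDiff ℝ ∞ (fun s => C.l • (u * Complex.exp (C.θ s * Complex.I))) := by
  apply ContDiff.const_smul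
  apply contDiff_const.mul
  apply ContDiff.cexp
  exact ((Complex.ofRealCLM.contDiff).comp C.hθ).mul contDiff_const

lemma ClosedArc.contDiff_P {X : ℝ} {u : ℂ} {a : ℝ} (C : ClosedArc X u a) :
    ContDiff ℝ ∞ C.P := by
  rw [contDiff_infty_iff_deriv]
  refine ⟨fun s => (C.hP s).differentiableAt, ?_⟩
  have : deriv C.P = fun s => C.l • (u * Complex.exp (C.θ s * Complex.I)) :=
    funext (fun s => (C.hP s).deriv)
  rw [this]
  exact C.contDiff_dP

lemma ClosedArc.contDiff_c {X : ℝ} {u : ℂ} {a : ℝ} (C : ClosedArc X u a) :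
    ContDiff ℝ ∞ C.c :=
  contDiff_of_ode (contDiff_io.comp C.contDiff_dP) C.hc.der

lemma ClosedArc.norm_c {X : ℝ} {u : ℂ} {a : ℝ} (C : ClosedArc X u a) (s : ℝ) : ‖C.c s‖ = 1 :=
  C.hc.norm (fun _ => star_io _) s

/-- the admissibility condition produced by the zigzags with `N` periods -/
def Adm (X a : ℝ) : Prop := ∃ N : ℕ, Odd N ∧
  Real.cos (Real.pi / (2 * N)) ≤ Real.sin (X / (2 * N)) ∧
  Real.cos a * Real.sin (X / (2 * N * Real.cos a)) < Real.cos (Real.pi / (2 * N))

theorem exists_closedArc {X a₁ : ℝ} (hX : 0 < X) (ha0 : 0 < a₁) (ha1 : a₁ < Real.pi / 2)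
    (hadm : Adm X a₁) {u : ℂ} (hu : ‖u‖ = 1) : ∃ a, 0 ≤ a ∧ a < a₁ ∧ Nonempty (ClosedArc X u a) := by
  obtain ⟨N, hN, h1, h2⟩ := hadm
  obtain ⟨l, a, K, hl, ha, haa, hX', hper⟩ := exists_zigzag hX ha0 ha1 hN h1 h2
  obtain ⟨w, hw, hww⟩ := exists_sq hu
  set θ : ℝ → ℝ := fun s => a * prof K s with hθ
  have hθd : ContDiff ℝ ∞ θ := contDiff_const.mul (contDiff_prof K)
  have hθc : Continuous θ := hθd.continuous
  let Cc : ℝ → ℝ := fun s => ∫ x in (0:ℝ)..s, Real.cos (θ x)
  let Ss : ℝ → ℝ := fun s => ∫ x in (0:ℝ)..s, Real.sin (θ x)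
  have hCc : ∀ s, HasDerivAt Cc (Real.cos (θ s)) s := by
    intro s
    have hcont : Continuous (fun x => Real.cos (θ x)) := by fun_prop
    exact intervalIntegral.integral_hasDerivAt_right (hcont.intervalIntegrable 0 s)
      (hcont.stronglyMeasurableAtFilter _ _) hcont.continuousAt
  have hSs : ∀ s, HasDerivAt Ss (Real.sin (θ s)) s := by
    intro s
    have hcont : Continuous (fun x => Real.sin (θ x)) := by fun_prop
    exact intervalIntegral.integral_hasDerivAt_right (hcont.intervalIntegrable 0 s)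
      (hcont.stronglyMeasurableAtFilter _ _) hcont.continuousAt
  let P : ℝ → ℂ := fun s => l • (u * ((Cc s : ℂ) + (Ss s : ℂ) * Complex.I))
  have hP : ∀ s, HasDerivAt P (l • (u * Complex.exp (θ s * Complex.I))) s := by
    intro s
    have h3 := (((hCc s).ofReal_comp.add ((hSs s).ofReal_comp.mul_const Complex.I)).const_mul
      u).const_smul l
    refine h3.congr_deriv ?_
    rw [Complex.exp_mul_I, Complex.ofReal_cos, Complex.ofReal_sin]
  have hθ1 : ∀ s, θ (s + 1) = θ s := by
    intro s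
    have e1 := prof_half K (s + 1/2)
    rw [prof_half K s, show s + 1/2 + 1/2 = s + 1 by ring, neg_neg] at e1
    simp only [hθ, e1]
  have hP1 : ∀ s, P (s + 1) = P s + (X / N) • u := by
    have hd : ∀ s, HasDerivAt (fun s => P (s + 1) - P s) 0 s := by
      intro s
      have h3 := ((hP (s + 1)).comp_add_const s 1).sub (hP s)
      refine h3.congr_deriv ?_
      rw [hθ1, sub_self]
    intro s
    have h4 := is_const_of_deriv_eq_zero (fun s => (hd s).differentiableAt)
      (fun s => (hd s).deriv) s 0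
    have e0 : P 0 = 0 := by simp [P, Cc, Ss]
    have e1 : P 1 = (X / N) • u := by
      have c1 : Cc 1 = mcos K a := rfl
      have s1 : Ss 1 = 0 := integral_sin K a
      simp only [P, c1, s1]
      have hNpos : (0:ℝ) < N := by exact_mod_cast hN.pos
      have : X / N = l * mcos K a := by
        rw [← hX']; field_simp
      rw [this]
      simp only [Complex.real_smul]
      push_cast
      ring
    simp only [zero_add, e0, e1, sub_zero] at h4
    rw [← h4]; ring
  have hPn : ∀ (n : ℕ) (s : ℝ), P (s + n) = P s + (n * (X / N)) • u := by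
    intro n s
    induction n with
    | zero => simp
    | succ n ih =>
      have : s + ((n + 1 : ℕ) : ℝ) = (s + n) + 1 := by push_cast; ring
      rw [this, hP1, ih, add_assoc, ← add_smul]
      congr 2
      push_cast
      ring
  refine ⟨a, ha, haa, ⟨{
    l := l
    T := N
    θ := θ
    P := P
    c := fun s => rotq w * cs l K a s * star (rotq w)
    hl := hl
    hθ := hθd
    hθa := ?_
    hP := hP
    hc := ?_
    hPT := ?_
    hcT := ?_ }⟩⟩
  · intro s
    rw [hθ]
    simp only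
    rw [abs_mul, abs_of_nonneg ha]
    have := abs_prof_le K s
    nlinarith
  · constructor
    · rw [(cs_spec l K a).zero, mul_one, rotq_mul_star hw]
    · intro s
      have h3 := (((cs_spec l K a).der s).const_mul (rotq w)).mul_const (star (rotq w))
      refine h3.congr_deriv ?_
      have e1 : io (l • (u * Complex.exp (θ s * Complex.I))) =
          rotq w * zA l K a s * star (rotq w) := by
        rw [zA, zz, ← map_smul io, rotq_conj, hww]
        congr 1
        simp only [Complex.real_smul]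
        ring
      rw [e1]
      have e2 : rotq w * cs l K a s * star (rotq w) * (rotq w * zA l K a s * star (rotq w)) =
          rotq w * cs l K a s * (star (rotq w) * rotq w) * zA l K a s * star (rotq w) := by
        noncomm_ring
      rw [e2, star_rotq_mul hw]
      noncomm_ring
  · intro s
    rw [hPn]
    congr 2
    have hNpos : (0:ℝ) < N := by exact_mod_cast hN.pos
    field_simp
  · intro s
    simp only [hper]

end Pool.Agent.helper70.Tori
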