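import Pool.Agent.helper70.Tori.Curve
import Pool.Agent.helper70.Tori.Chart

/-!
From two closed arcs with separated directions to an isometric immersion.
-/

open MeasureTheory intervalIntegral Set Quaternion Filter
open scoped Topology ContDiff

namespace Pool.Agent.helper70.Tori

/-- real part after rotation by `-ψ` -/
noncomputable def Lpsi (ψ : ℝ) : ℂ →L[ℝ] ℝ :=
  Complex.reCLM.comp ((ContinuousLinearMap.mul ℝ ℂ) (Complex.exp (-ψ * Complex.I)))

lemma Lpsi_apply (ψ : ℝ) (z : ℂ) : Lpsi ψ z = (Complex.exp (-ψ * Complex.I) * z).re := rfl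

lemma Lpsi_exp (ψ l x : ℝ) : Lpsi ψ (l • Complex.exp (x * Complex.I)) = l * Real.cos (x - ψ) := by
  rw [Lpsi_apply, mul_smul_comm, ← Complex.exp_add, Complex.smul_re, smul_eq_mul]
  congr 1
  rw [← Complex.exp_ofReal_mul_I_re]
  congr 2
  push_cast
  ring

lemma cos_ge_of_abs_le {x m : ℝ} (hx : |x| ≤ m) (hm : m ≤ Real.pi) : Real.cos m ≤ Real.cos x := by
  rw [← Real.cos_abs x]
  exact Real.cos_le_cos_of_nonneg_of_le_pi (abs_nonneg _) hm hx

theorem immersion_of_arcs {X₁ X₂ φ a b : ℝ} (ha : 0 ≤ a) (hb : 0 ≤ b)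
    (C₁ : ClosedArc X₁ 1 a) (C₂ : ClosedArc X₂ (-Complex.exp (φ * Complex.I)) b)
    (h1 : a + b < φ) (h2 : a + b < Real.pi - φ) :
    ∃ f : ℂ → Quaternion ℝ, ContDiff ℝ ∞ f ∧ (∀ z, ‖f z‖ = 1) ∧
      (∀ z w, ‖fderiv ℝ f z w‖ = ‖w‖) ∧ (∀ z, f (z + X₁) = f z) ∧
      (∀ z, f (z + X₂ * Complex.exp (φ * Complex.I)) = f z) := by
  let P := C₁.P
  let Q : ℝ → ℂ := fun t => -C₂.P t
  let dP : ℝ → ℂ := fun s => C₁.l • Complex.exp (C₁.θ s * Complex.I)
  let dQ : ℝ → ℂ := fun t => C₂.l • Complex.exp ((φ + C₂.θ t : ℝ) * Complex.I)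
  have hP : ∀ s, HasDerivAt P (dP s) s := by
    intro s
    have := C₁.hP s
    rwa [one_mul] at this
  have hdQ : ∀ t, dQ t = -(C₂.l • (-Complex.exp (φ * Complex.I) *
      Complex.exp (C₂.θ t * Complex.I))) := by
    intro t
    simp only [dQ]
    rw [neg_mul, smul_neg, neg_neg, ← Complex.exp_add]
    congr 2
    push_cast
    ring
  have hQ : ∀ t, HasDerivAt Q (dQ t) t := by
    intro t
    rw [hdQ]
    exact (C₂.hP t).neg
  let ψ₁ : ℝ := (φ + b - a) / 2
  let ψ₂ : ℝ := (φ - Real.pi - b + a) / 2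
  let κ₁ : ℝ := Real.cos ((φ + a + b) / 2)
  let κ₂ : ℝ := Real.cos ((a + b + Real.pi - φ) / 2)
  have hpi := Real.pi_pos
  have hκ₁ : 0 < κ₁ := Real.cos_pos_of_mem_Ioo ⟨by linarith, by linarith⟩
  have hκ₂ : 0 < κ₂ := Real.cos_pos_of_mem_Ioo ⟨by linarith, by linarith⟩
  have hl₁ := C₁.hl
  have hl₂ := C₂.hl
  let δ : ℝ := min C₁.l C₂.l * min κ₁ κ₂
  have hδ : 0 < δ := mul_pos (lt_min hl₁ hl₂) (lt_min hκ₁ hκ₂)
  have hδ11 : δ ≤ C₁.l * κ₁ :=
    mul_le_mul (min_le_left _ _) (min_le_left _ _) (le_min hκ₁.le hκ₂.le) hl₁.le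
  have hδ12 : δ ≤ C₁.l * κ₂ :=
    mul_le_mul (min_le_left _ _) (min_le_right _ _) (le_min hκ₁.le hκ₂.le) hl₁.le
  have hδ21 : δ ≤ C₂.l * κ₁ :=
    mul_le_mul (min_le_right _ _) (min_le_left _ _) (le_min hκ₁.le hκ₂.le) hl₂.le
  have hδ22 : δ ≤ C₂.l * κ₂ :=
    mul_le_mul (min_le_right _ _) (min_le_right _ _) (le_min hκ₁.le hκ₂.le) hl₂.le
  have CD : ChartData P Q dP dQ (Lpsi ψ₁) (Lpsi ψ₂) δ := by
    refine ⟨hδ, hP, hQ, ?_, ?_, ?_, ?_⟩
    · intro s
      simp only [dP]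
      rw [Lpsi_exp]
      refine hδ11.trans (mul_le_mul_of_nonneg_left ?_ hl₁.le)
      apply cos_ge_of_abs_le _ (by linarith)
      have := abs_le.1 (C₁.hθa s)
      rw [abs_le]
      constructor <;> simp only [ψ₁] <;> linarith
    · intro t
      simp only [dQ]
      rw [Lpsi_exp]
      refine hδ21.trans (mul_le_mul_of_nonneg_left ?_ hl₂.le)
      apply cos_ge_of_abs_le _ (by linarith)
      have := abs_le.1 (C₂.hθa t)
      rw [abs_le]
      constructor <;> simp only [ψ₁] <;> linarith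
    · intro s
      simp only [dP]
      rw [Lpsi_exp]
      refine hδ12.trans (mul_le_mul_of_nonneg_left ?_ hl₁.le)
      apply cos_ge_of_abs_le _ (by linarith)
      have := abs_le.1 (C₁.hθa s)
      rw [abs_le]
      constructor <;> simp only [ψ₂] <;> linarith
    · intro t
      simp only [dQ]
      rw [Lpsi_exp]
      have h3 : Real.cos (φ + C₂.θ t - ψ₂) = -Real.cos (φ + C₂.θ t - ψ₂ - Real.pi) := by
        rw [Real.cos_sub_pi, neg_neg]
      rw [h3]
      have h4 : κ₂ ≤ Real.cos (φ + C₂.θ t - ψ₂ - Real.pi) := by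
        apply cos_ge_of_abs_le _ (by linarith)
        have := abs_le.1 (C₂.hθa t)
        rw [abs_le]
        constructor <;> simp only [ψ₂] <;> linarith
      nlinarith
  have hPs : ContDiff ℝ ∞ P := C₁.contDiff_P
  have hQs : ContDiff ℝ ∞ Q := C₂.contDiff_P.neg
  obtain ⟨g, hg, hg1, hg2⟩ := CD.exists_chart hPs hQs
  let c : ℝ → Quaternion ℝ := C₁.c
  let d : ℝ → Quaternion ℝ := fun t => star (C₂.c t)
  have hc : ∀ s, HasDerivAt c (c s * io (dP s)) s := by
    intro s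
    have := C₁.hc.der s
    rwa [one_mul] at this
  have hd : ∀ t, HasDerivAt d (io (dQ t) * d t) t := by
    intro t
    have h3 := hasDerivAt_star (C₂.hc.der t)
    refine h3.congr_deriv ?_
    rw [star_mul, star_io, ← map_neg io, ← hdQ]
  have hcs : ContDiff ℝ ∞ c := C₁.contDiff_c
  have hds : ContDiff ℝ ∞ d := starL.toContinuousLinearMap.contDiff.comp C₂.contDiff_c
  let F : ℝ × ℝ → Quaternion ℝ := fun x => c x.1 * d x.2
  have hF : ContDiff ℝ ∞ F := (hcs.comp contDiff_fst).mul (hds.comp contDiff_snd)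
  let f : ℂ → Quaternion ℝ := fun z => F (g z)
  have hf : ContDiff ℝ ∞ f := hF.comp hg
  have hfD : Differentiable ℝ f := hf.differentiable (by simp)
  have hnc : ∀ s, ‖c s‖ = 1 := C₁.norm_c
  have hnd : ∀ s, ‖d s‖ = 1 := fun s => by
    simp only [d]; rw [_root_.norm_star]; exact C₂.norm_c s
  have key : ∀ (s t : ℝ) (w : ℂ), fderiv ℝ f (P s + Q t) w = c s * io w * d t := by
    intro s t w
    have hFd : HasFDerivAt F
        ((ContinuousLinearMap.fst ℝ ℝ ℝ).smulRight (c s * io (dP s) * d t) +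
          (ContinuousLinearMap.snd ℝ ℝ ℝ).smulRight (c s * (io (dQ t) * d t))) (s, t) := by
      have e1 : HasFDerivAt (fun x : ℝ × ℝ => c x.1) _ (s, t) :=
        (hc s).hasFDerivAt.comp (s, t) hasFDerivAt_fst
      have e2 : HasFDerivAt (d ∘ (Prod.snd : ℝ × ℝ → ℝ)) _ (s, t) :=
        HasFDerivAt.comp (g := d) (s, t) (hd t).hasFDerivAt
          (hasFDerivAt_snd (𝕜 := ℝ) (E := ℝ) (F := ℝ) (p := (s, t)))
      refine (e1.mul' e2).congr_fderiv ?_
      ext <;> simp [mul_assoc]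
    have hΦ := (CD.hasStrictFDerivAt hPs hQs (s, t)).hasFDerivAt
    have hcomp : HasFDerivAt (f ∘ (fun x : ℝ × ℝ => P x.1 + Q x.2)) _ (s, t) :=
      HasFDerivAt.comp (g := f) (s, t) (hfD (P s + Q t)).hasFDerivAt hΦ
    have hEq : (f ∘ (fun x : ℝ × ℝ => P x.1 + Q x.2)) = F := by
      funext x
      simp only [f, Function.comp]
      rw [hg2]
    rw [hEq] at hcomp
    have huniq := hcomp.unique hFd
    obtain ⟨v, hv⟩ := (CD.Dequiv s t).surjective w
    have hv' : v.1 • dP s + v.2 • dQ t = w := by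
      rw [← hv, ← ContinuousLinearEquiv.coe_coe, CD.Dequiv_coe]
      rfl
    have h5 := DFunLike.congr_fun huniq v
    have h6 : (fderiv ℝ f (P s + Q t)) w = v.1 • (c s * io (dP s) * d t) +
        v.2 • (c s * (io (dQ t) * d t)) := by
      rw [← hv]
      exact h5
    have alg : ∀ (p q A B : Quaternion ℝ) (x y : ℝ), x • (p * A * q) + y • (p * (B * q)) =
        p * (x • A + y • B) * q := by
      intro p q A B x y
      rw [mul_add, add_mul, mul_smul_comm, mul_smul_comm, smul_mul_assoc, smul_mul_assoc,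
        mul_assoc p B q]
    rw [h6, alg, ← map_smul, ← map_smul, ← map_add, hv']
  refine ⟨f, hf, ?_, ?_, ?_, ?_⟩
  · intro z
    simp only [f, F]
    rw [norm_mul, hnc, hnd, mul_one]
  · intro z w
    rw [← hg1 z, key, norm_mul, norm_mul, hnc, hnd, norm_io, one_mul, mul_one]
  · intro z
    have e1 : z + X₁ = P ((g z).1 + C₁.T) + Q (g z).2 := by
      have := C₁.hPT (g z).1
      rw [show P ((g z).1 + C₁.T) = P (g z).1 + X₁ • (1 : ℂ) from this]
      nth_rewrite 1 [← hg1 z]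
      simp only [Complex.real_smul, mul_one]
      ring
    simp only [f, F]
    rw [e1, hg2]
    simp only [c]
    rw [C₁.hcT]
  · intro z
    have e1 : z + X₂ * Complex.exp (φ * Complex.I) = P (g z).1 + Q ((g z).2 + C₂.T) := by
      have := C₂.hPT (g z).2
      rw [show Q ((g z).2 + C₂.T) = -C₂.P ((g z).2 + C₂.T) from rfl, this]
      nth_rewrite 1 [← hg1 z]
      simp only [Complex.real_smul, Q]
      ring
    simp only [f, F]
    rw [e1, hg2]
    simp only [d]
    rw [C₂.hcT]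

end Pool.Agent.helper70.Tori
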