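import Mathlib

/-!
Global solutions of the linear ODE `c' = c * A(s)` in a Banach algebra (used for quaternions).
-/

open MeasureTheory intervalIntegral Set
open scoped BoundedContinuousFunction Topology ContDiff

namespace Pool.Agent.helper70.Tori

variable {R : Type*} [NormedRing R] [NormedAlgebra ℝ R] [CompleteSpace R]

omit [CompleteSpace R] in
lemma norm_int_le (M C : ℝ) (_hM : 0 < M) (hC : 0 ≤ C) (g : ℝ → R) (hg : Continuous g)
    (h : ∀ x, ‖g x‖ ≤ C * M * Real.exp (2 * M * |x|)) (s : ℝ) :
    ‖∫ x in (0:ℝ)..s, g x‖ ≤ C * Real.exp (2 * M * |s|) / 2 := by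
  have key : ∀ g : ℝ → R, Continuous g → (∀ x, ‖g x‖ ≤ C * M * Real.exp (2 * M * |x|)) →
      ∀ s : ℝ, 0 ≤ s → ‖∫ x in (0:ℝ)..s, g x‖ ≤ C * Real.exp (2 * M * |s|) / 2 := by
    intro g hg h s hs
    have h1 : ‖∫ x in (0:ℝ)..s, g x‖ ≤
        ∫ x in (0:ℝ)..s, C * (M * Real.exp (2 * M * x)) := by
      apply intervalIntegral.norm_integral_le_of_norm_le hs
      · filter_upwards with x hx
        have := h x
        rw [abs_of_pos hx.1] at this
        linarith
      · apply Continuous.intervalIntegrable
        fun_prop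
    have h2 : ∫ x in (0:ℝ)..s, C * (M * Real.exp (2 * M * x)) =
        C * (Real.exp (2 * M * s) / 2 - 1 / 2) := by
      rw [intervalIntegral.integral_const_mul]
      congr 1
      have : ∀ x ∈ uIcc 0 s, HasDerivAt (fun x => Real.exp (2 * M * x) / 2)
          (M * Real.exp (2 * M * x)) x := by
        intro x _
        have h := ((hasDerivAt_id x).const_mul (2 * M)).exp.div_const 2
        refine h.congr_deriv ?_
        simp only [id_eq, mul_one]
        ring
      rw [intervalIntegral.integral_eq_sub_of_hasDerivAt this]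
      · simp
      · apply Continuous.intervalIntegrable
        fun_prop
    rw [h2] at h1
    rw [abs_of_nonneg hs]
    nlinarith
  rcases le_total 0 s with hs | hs
  · exact key g hg h s hs
  · have h1 := key (fun x => g (-x)) (by fun_prop) (fun x => by simpa using h (-x)) (-s)
      (by linarith)
    have h2 : ∫ x in (0:ℝ)..(-s), g (-x) = - ∫ x in (0:ℝ)..s, g x := by
      rw [intervalIntegral.integral_comp_neg g]
      simp only [neg_neg, neg_zero]
      rw [intervalIntegral.integral_symm]
    rw [h2, norm_neg, abs_neg] at h1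
    exact h1

/-- the operator whose fixed point gives the solution -/
noncomputable def picardOp (A : ℝ → R) (hA : Continuous A) (M : ℝ) (hM : 0 < M)
    (hAM : ∀ s, ‖A s‖ ≤ M) (u : ℝ →ᵇ R) : ℝ →ᵇ R :=
  BoundedContinuousFunction.ofNormedAddCommGroup
    (fun s => Real.exp (-(2 * M * |s|)) •
      ((1 : R) + ∫ x in (0:ℝ)..s, Real.exp (2 * M * |x|) • (u x * A x)))
    (by
      have h1 : Continuous (fun x => Real.exp (2 * M * |x|) • (u x * A x)) := by
        have := u.continuous
        fun_prop
      have h2 : Continuous (fun s => ∫ x in (0:ℝ)..s, Real.exp (2 * M * |x|) • (u x * A x)) :=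
        intervalIntegral.continuous_primitive (fun a b => h1.intervalIntegrable a b) 0
      fun_prop)
    (‖(1 : R)‖ + ‖u‖ / 2)
    (by
      intro s
      have h1 : Continuous (fun x => Real.exp (2 * M * |x|) • (u x * A x)) := by
        have := u.continuous
        fun_prop
      have h3 := norm_int_le M ‖u‖ hM (norm_nonneg _) _ h1 (fun x => by
        rw [norm_smul, Real.norm_of_nonneg (Real.exp_pos _).le]
        have h4 := u.norm_coe_le_norm x
        have h5 : ‖u x * A x‖ ≤ ‖u‖ * M :=
          (norm_mul_le _ _).trans (mul_le_mul h4 (hAM x) (norm_nonneg _) (norm_nonneg _))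
        nlinarith [Real.exp_pos (2 * M * |x|)]) s
      rw [norm_smul, Real.norm_of_nonneg (Real.exp_pos _).le, Real.exp_neg]
      have h6 : 1 ≤ Real.exp (2 * M * |s|) := Real.one_le_exp (by positivity)
      have h7 := norm_add_le (1 : R) (∫ x in (0:ℝ)..s, Real.exp (2 * M * |x|) • (u x * A x))
      have h8 : ‖(1 : R)‖ ≤ ‖(1 : R)‖ * Real.exp (2 * M * |s|) :=
        le_mul_of_one_le_right (norm_nonneg _) h6
      have h9 : 0 < Real.exp (2 * M * |s|) := Real.exp_pos _
      rw [inv_mul_le_iff₀ h9]
      nlinarith)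

lemma picardOp_apply (A : ℝ → R) (hA : Continuous A) (M : ℝ) (hM : 0 < M)
    (hAM : ∀ s, ‖A s‖ ≤ M) (u : ℝ →ᵇ R) (s : ℝ) :
    picardOp A hA M hM hAM u s = Real.exp (-(2 * M * |s|)) •
      ((1 : R) + ∫ x in (0:ℝ)..s, Real.exp (2 * M * |x|) • (u x * A x)) := rfl

lemma picardOp_contracting (A : ℝ → R) (hA : Continuous A) (M : ℝ) (hM : 0 < M)
    (hAM : ∀ s, ‖A s‖ ≤ M) : ContractingWith (1/2) (picardOp A hA M hM hAM) := by
  refine ⟨by norm_num, LipschitzWith.of_dist_le_mul ?_⟩
  intro u v
  rw [BoundedContinuousFunction.dist_le (by positivity)]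
  intro s
  rw [picardOp_apply, picardOp_apply, dist_eq_norm, ← smul_sub, add_sub_add_left_eq_sub]
  have hu : Continuous (fun x => Real.exp (2 * M * |x|) • (u x * A x)) := by
    have := u.continuous
    fun_prop
  have hv : Continuous (fun x => Real.exp (2 * M * |x|) • (v x * A x)) := by
    have := v.continuous
    fun_prop
  rw [← intervalIntegral.integral_sub (hu.intervalIntegrable _ _) (hv.intervalIntegrable _ _)]
  have h3 := norm_int_le M (dist u v) hM dist_nonneg
      (fun x => Real.exp (2 * M * |x|) • (u x * A x) - Real.exp (2 * M * |x|) • (v x * A x))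
      (hu.sub hv) (fun x => by
        rw [← smul_sub, ← sub_mul, norm_smul, Real.norm_of_nonneg (Real.exp_pos _).le]
        have h4 : ‖u x - v x‖ ≤ dist u v := by
          rw [← dist_eq_norm]; exact u.dist_coe_le_dist x
        have h5 : ‖(u x - v x) * A x‖ ≤ dist u v * M :=
          (norm_mul_le _ _).trans (mul_le_mul h4 (hAM x) (norm_nonneg _) dist_nonneg)
        nlinarith [Real.exp_pos (2 * M * |x|)]) s
  rw [norm_smul, Real.norm_of_nonneg (Real.exp_pos _).le, Real.exp_neg]
  have h9 : 0 < Real.exp (2 * M * |s|) := Real.exp_pos _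
  rw [inv_mul_le_iff₀ h9]
  push_cast
  nlinarith

/-- Global solution of `c' = c * A`, `c 0 = 1`. -/
theorem exists_ode (A : ℝ → R) (hA : Continuous A) (M : ℝ) (hAM : ∀ s, ‖A s‖ ≤ M) :
    ∃ c : ℝ → R, c 0 = 1 ∧ ∀ s, HasDerivAt c (c s * A s) s := by
  obtain ⟨M, hM, hAM⟩ : ∃ M : ℝ, 0 < M ∧ ∀ s, ‖A s‖ ≤ M :=
    ⟨max M 1, by positivity, fun s => (hAM s).trans (le_max_left _ _)⟩
  have hc := picardOp_contracting A hA M hM hAM
  let u := ContractingWith.fixedPoint _ hc
  have hu : picardOp A hA M hM hAM u = u := hc.fixedPoint_isFixedPt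
  have hval : ∀ s, Real.exp (2 * M * |s|) • u s =
      (1 : R) + ∫ x in (0:ℝ)..s, Real.exp (2 * M * |x|) • (u x * A x) := by
    intro s
    conv_lhs => rw [← hu]
    rw [picardOp_apply, smul_smul, ← Real.exp_add]
    simp
  have hcont : Continuous (fun x => Real.exp (2 * M * |x|) • (u x * A x)) := by
    have := u.continuous
    fun_prop
  refine ⟨fun s => Real.exp (2 * M * |s|) • u s, ?_, ?_⟩
  · simp only [hval 0]
    simp
  · intro s
    have h1 : (fun s => Real.exp (2 * M * |s|) • u s) =
      fun s => (1 : R) + ∫ x in (0:ℝ)..s, Real.exp (2 * M * |x|) • (u x * A x) := funext hval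
    rw [h1]
    have h2 := (intervalIntegral.integral_hasDerivAt_right (hcont.intervalIntegrable 0 s)
      (hcont.stronglyMeasurableAtFilter _ _) hcont.continuousAt).const_add (1 : R)
    refine h2.congr_deriv ?_
    rw [← smul_mul_assoc, hval s]

/-- Solutions of the linear ODE with smooth coefficient are smooth. -/
theorem contDiff_of_ode {A c : ℝ → R} (hA : ContDiff ℝ ∞ A)
    (hc : ∀ s, HasDerivAt c (c s * A s) s) : ContDiff ℝ ∞ c := by
  rw [contDiff_infty]
  intro n
  induction n with
  | zero =>
    have : Continuous c := continuous_iff_continuousAt.2 (fun s => (hc s).continuousAt)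
    exact contDiff_zero.2 this
  | succ n ih =>
    have hd : deriv c = fun s => c s * A s := funext (fun s => (hc s).deriv)
    have := (contDiff_succ_iff_deriv (n := (n : WithTop ℕ∞)) (f := c)).2
      ⟨fun s => (hc s).differentiableAt, by
        intro h
        exact absurd h (by simp), by
        rw [hd]
        exact ih.mul (hA.of_le (by exact_mod_cast le_top))⟩
    exact_mod_cast this

/-- Uniqueness for the linear ODE. -/
theorem ode_unique {A c d : ℝ → R} (hA : Continuous A) (M : ℝ) (hAM : ∀ s, ‖A s‖ ≤ M)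
    (hc : ∀ s, HasDerivAt c (c s * A s) s) (hd : ∀ s, HasDerivAt d (d s * A s) s)
    (h0 : c 0 = d 0) : c = d := by
  have hM : 0 ≤ M := (norm_nonneg _).trans (hAM 0)
  apply ODE_solution_unique_univ (v := fun s x => x * A s) (s := fun _ => univ)
    (K := M.toNNReal) (t₀ := 0)
  · intro t
    apply LipschitzWith.lipschitzOnWith
    apply LipschitzWith.of_dist_le_mul
    intro x y
    rw [dist_eq_norm, dist_eq_norm, ← sub_mul]
    calc _ ≤ ‖x - y‖ * ‖A t‖ := norm_mul_le _ _
      _ ≤ ‖x - y‖ * M := mul_le_mul_of_nonneg_left (hAM t) (norm_nonneg _)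
      _ = _ := by rw [mul_comm, Real.coe_toNNReal _ hM]
  · intro t
    exact ⟨hc t, mem_univ _⟩
  · intro t
    exact ⟨hd t, mem_univ _⟩
  · exact h0

end Pool.Agent.helper70.Tori
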