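import Pool.Agent.helper70.Tori.ODE

/-!
Quaternionic preliminaries.
-/

open MeasureTheory intervalIntegral Set Quaternion
open scoped Topology ContDiff

namespace Pool.Agent.helper70.Tori

/-- unit imaginary quaternions and the embedding of the plane -/
noncomputable def qi : Quaternion ℝ := ⟨0, 1, 0, 0⟩
noncomputable def qj : Quaternion ℝ := ⟨0, 0, 1, 0⟩
noncomputable def qk : Quaternion ℝ := ⟨0, 0, 0, 1⟩

/-- the plane spanned by `i, j` (as a function) -/
noncomputable def ioF (z : ℂ) : Quaternion ℝ := ⟨0, z.re, z.im, 0⟩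

@[simp] lemma ioF_re (z : ℂ) : (ioF z).re = 0 := rfl
@[simp] lemma ioF_imI (z : ℂ) : (ioF z).imI = z.re := rfl
@[simp] lemma ioF_imJ (z : ℂ) : (ioF z).imJ = z.im := rfl
@[simp] lemma ioF_imK (z : ℂ) : (ioF z).imK = 0 := rfl

/-- the plane spanned by `i, j` -/
noncomputable def io : ℂ →ₗ[ℝ] Quaternion ℝ where
  toFun := ioF
  map_add' x y := by
    apply Quaternion.ext <;> simp
  map_smul' r x := by
    apply Quaternion.ext <;> simp

@[simp] lemma io_re (z : ℂ) : (io z).re = 0 := rfl
@[simp] lemma io_imI (z : ℂ) : (io z).imI = z.re := rfl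
@[simp] lemma io_imJ (z : ℂ) : (io z).imJ = z.im := rfl
@[simp] lemma io_imK (z : ℂ) : (io z).imK = 0 := rfl
@[simp] lemma qi_re : qi.re = 0 := rfl
@[simp] lemma qi_imI : qi.imI = 1 := rfl
@[simp] lemma qi_imJ : qi.imJ = 0 := rfl
@[simp] lemma qi_imK : qi.imK = 0 := rfl
@[simp] lemma qj_re : qj.re = 0 := rfl
@[simp] lemma qj_imI : qj.imI = 0 := rfl
@[simp] lemma qj_imJ : qj.imJ = 1 := rfl
@[simp] lemma qj_imK : qj.imK = 0 := rfl
@[simp] lemma qk_re : qk.re = 0 := rfl
@[simp] lemma qk_imI : qk.imI = 0 := rfl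
@[simp] lemma qk_imJ : qk.imJ = 0 := rfl
@[simp] lemma qk_imK : qk.imK = 1 := rfl

lemma norm_sq_eq (q : Quaternion ℝ) :
    ‖q‖ ^ 2 = q.re ^ 2 + q.imI ^ 2 + q.imJ ^ 2 + q.imK ^ 2 := by
  rw [sq ‖q‖, ← Quaternion.normSq_eq_norm_mul_self, Quaternion.normSq_def']

lemma norm_io (z : ℂ) : ‖io z‖ = ‖z‖ := by
  have h1 := norm_sq_eq (io z)
  have h2 : ‖z‖ ^ 2 = z.re ^ 2 + z.im ^ 2 := by
    rw [Complex.sq_norm, Complex.normSq_apply]; ring
  simp only [io_re, io_imI, io_imJ, io_imK] at h1
  have h3 : ‖io z‖ ^ 2 = ‖z‖ ^ 2 := by rw [h1, h2]; ring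
  exact (sq_eq_sq₀ (norm_nonneg _) (norm_nonneg _)).1 h3

/-- as a linear isometry -/
noncomputable def ioL : ℂ →ₗᵢ[ℝ] Quaternion ℝ := ⟨io, norm_io⟩

@[simp] lemma ioL_apply (z : ℂ) : ioL z = io z := rfl

lemma star_io (z : ℂ) : star (io z) = - io z := by
  ext <;> simp

/-- `c` solves `c' = c * A` -/
structure Sol (A c : ℝ → Quaternion ℝ) : Prop where
  zero : c 0 = 1
  der : ∀ s, HasDerivAt c (c s * A s) s

lemma norm_eq_one_iff (q : Quaternion ℝ) : ‖q‖ = 1 ↔ q * star q = 1 := by
  rw [Quaternion.self_mul_star, Quaternion.normSq_eq_norm_mul_self]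
  constructor
  · intro h; rw [h]; simp
  · intro h
    have h1 : ‖q‖ * ‖q‖ = 1 := by
      have := congrArg (fun x : Quaternion ℝ => x.re) h
      simpa using this
    nlinarith [norm_nonneg q]

/-- the conjugation as a linear isometry -/
noncomputable def starL : Quaternion ℝ →ₗᵢ[ℝ] Quaternion ℝ where
  toFun := star
  map_add' := star_add
  map_smul' r q := by ext <;> simp
  norm_map' q := _root_.norm_star q

lemma hasDerivAt_star {c : ℝ → Quaternion ℝ} {c' : Quaternion ℝ} {s : ℝ}
    (h : HasDerivAt c c' s) : HasDerivAt (fun s => star (c s)) (star c') s :=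
  starL.toContinuousLinearMap.hasFDerivAt.comp_hasDerivAt s h

/-- solutions with skew coefficient stay on the unit sphere -/
lemma Sol.norm {A c : ℝ → Quaternion ℝ} (h : Sol A c) (hA : ∀ s, star (A s) = -A s) (s : ℝ) :
    ‖c s‖ = 1 := by
  rw [norm_eq_one_iff]
  have hd : ∀ s, HasDerivAt (fun s => c s * star (c s)) 0 s := by
    intro s
    have h1 := (h.der s).mul (hasDerivAt_star (h.der s))
    refine h1.congr_deriv ?_
    rw [star_mul, hA]
    simp [mul_assoc]
  have hconst : ∀ s, (fun s => c s * star (c s)) s = (fun s => c s * star (c s)) 0 := by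
    intro s
    exact is_const_of_deriv_eq_zero (fun s => (hd s).differentiableAt) (fun s => (hd s).deriv) _ _
  have := hconst s
  simp only [h.zero, star_one, mul_one] at this
  exact this

/-- comparison of two solutions -/
lemma Sol.compare {A B c d : ℝ → Quaternion ℝ} (hc : Sol A c) (hd : Sol B d)
    (hA : ∀ s, star (A s) = -A s) (hB : ∀ s, star (B s) = -B s)
    (cA : Continuous A) (cB : Continuous B) {s : ℝ} (hs : 0 ≤ s) :
    ‖c s - d s‖ ≤ ∫ x in (0:ℝ)..s, ‖A x - B x‖ := by
  have cc : Continuous c := continuous_iff_continuousAt.2 (fun s => (hc.der s).continuousAt)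
  have cd : Continuous d := continuous_iff_continuousAt.2 (fun s => (hd.der s).continuousAt)
  have hD : ∀ x, HasDerivAt (fun x => c x * star (d x)) (c x * (A x - B x) * star (d x)) x := by
    intro x
    have h1 := (hc.der x).mul (hasDerivAt_star (hd.der x))
    refine h1.congr_deriv ?_
    rw [star_mul, hB]
    noncomm_ring
  have hcont : Continuous (fun x => c x * (A x - B x) * star (d x)) := by fun_prop
  have h2 : ∫ x in (0:ℝ)..s, c x * (A x - B x) * star (d x) = c s * star (d s) - 1 := by
    rw [intervalIntegral.integral_eq_sub_of_hasDerivAt (fun x _ => hD x)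
      (hcont.intervalIntegrable _ _)]
    simp [hc.zero, hd.zero]
  have h3 : c s - d s = (c s * star (d s) - 1) * d s := by
    have : star (d s) * d s = 1 := by
      have h4 := hd.norm hB s
      have h5 : ‖star (d s)‖ = 1 := by rw [_root_.norm_star, h4]
      have h6 := (norm_eq_one_iff _).1 h5
      rwa [star_star] at h6
    rw [sub_mul, mul_assoc, this]
    simp
  rw [h3, norm_mul, hd.norm hB s, mul_one, ← h2]
  refine (intervalIntegral.norm_integral_le_integral_norm hs).trans (le_of_eq ?_)
  apply intervalIntegral.integral_congr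
  intro x _
  simp only
  rw [norm_mul, norm_mul, _root_.norm_star, hc.norm hA, hd.norm hB]
  ring

/-- existence -/
lemma exists_sol (A : ℝ → Quaternion ℝ) (hA : Continuous A) (M : ℝ) (hAM : ∀ s, ‖A s‖ ≤ M) :
    ∃ c, Sol A c := by
  obtain ⟨c, h0, h⟩ := exists_ode A hA M hAM
  exact ⟨c, h0, h⟩

/-- explicit solution for constant coefficient -/
lemma sol_const (l : ℝ) (u : ℂ) (hu : ‖u‖ = 1) :
    Sol (fun _ => l • io u)
      (fun s => ((Real.cos (l * s) : ℝ) : Quaternion ℝ) + Real.sin (l * s) • io u) := by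
  constructor
  · simp
  · intro s
    have huu : io u * io u = -1 := by
      have h1 : ‖io u‖ = 1 := by rw [norm_io, hu]
      have h2 := (norm_eq_one_iff _).1 h1
      rw [star_io] at h2
      have : -(io u * io u) = 1 := by rw [← h2]; simp
      rw [← this]; simp
    have hc : HasDerivAt (fun s => Real.cos (l * s)) (-(Real.sin (l * s) * l)) s := by
      have := ((hasDerivAt_id s).const_mul l).cos
      refine this.congr_deriv ?_
      simp
    have hs : HasDerivAt (fun s => Real.sin (l * s)) (Real.cos (l * s) * l) s := by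
      have := ((hasDerivAt_id s).const_mul l).sin
      refine this.congr_deriv ?_
      simp
    have hc' : HasDerivAt (fun s => ((Real.cos (l * s) : ℝ) : Quaternion ℝ))
        (((-(Real.sin (l * s) * l) : ℝ)) : Quaternion ℝ) s := by
      have h := hc.smul_const (1 : Quaternion ℝ)
      have e : ∀ r : ℝ, (r : Quaternion ℝ) = r • (1 : Quaternion ℝ) := by
        intro r; ext <;> simp
      simp_rw [e]
      exact h
    have h := hc'.add (hs.smul_const (io u))
    refine h.congr_deriv ?_
    have e : ∀ r : ℝ, (r : Quaternion ℝ) = r • (1 : Quaternion ℝ) := by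
      intro r; ext <;> simp
    simp only [e]
    rw [add_mul, smul_mul_smul_comm, smul_mul_smul_comm, huu, one_mul]
    module

end Pool.Agent.helper70.Tori
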