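import Pool.Agent.helper70.Tori.AdmArc3
import Pool.Agent.helper3.FlatTorus.Assembly

/-!
Sufficiency of the criterion.
-/

open Quaternion Set
open scoped ContDiff

namespace Pool.Agent.helper70.Tori

open Pool.Agent.helper3.FlatTorus

/-- Sufficiency of the criterion. -/
theorem immersible_of_criterion {L : Submodule ℤ (EuclideanSpace ℝ (Fin 2))}
    (h : Criterion L) : Immersible L := by
  obtain ⟨e, f, X₁, Y₁, X₂, Y₂, ε₁, ε₂, he, hf, hef, hX₁, hY₁, hX₂, hY₂, hε₁, hε₂, hA₁, hA₂,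
    hL⟩ := h.toC
  have hef1 : 0 < cr e f := hef
  have hef2 : 0 < cr f (-e) := by
    have : cr f (-e) = cr e f := by simp [cr]; ring
    rw [this]; exact hef1
  obtain ⟨A⟩ := sarc_of_adm he hf hef1 hε₁ hX₁ hY₁ hA₁
  obtain ⟨B⟩ := sarc_of_adm hf (by rw [norm_neg]; exact he) hef2 hε₂ hX₂ hY₂ hA₂
  obtain ⟨F, hF1, hF2, hF3, hF4⟩ := immersion_of_sarcs hef1.ne' hε₁ hε₂ A B
  refine ⟨fun z => ps.symm (F (ph.symm z)), ?_, ?_, ?_, ?_⟩
  · exact ps.symm.toContinuousLinearEquiv.contDiff.comp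
      (hF1.comp ph.symm.toContinuousLinearEquiv.contDiff)
  · intro z
    rw [ps.symm.norm_map, hF2]
  · intro z w
    have h1 : DifferentiableAt ℝ F (ph.symm z) := (hF1.differentiable (by simp)) _
    have h2 : HasFDerivAt (fun z => ps.symm (F (ph.symm z)))
        ((ps.symm.toContinuousLinearEquiv : ℍ[ℝ] →L[ℝ] EuclideanSpace ℝ (Fin 4)).comp
          ((fderiv ℝ F (ph.symm z)).comp
            (ph.symm.toContinuousLinearEquiv : EuclideanSpace ℝ (Fin 2) →L[ℝ] ℂ))) z :=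
      ((ps.symm.toContinuousLinearEquiv : ℍ[ℝ] →L[ℝ] EuclideanSpace ℝ (Fin 4)).hasFDerivAt).comp z
        ((h1.hasFDerivAt).comp z
          (ph.symm.toContinuousLinearEquiv : EuclideanSpace ℝ (Fin 2) →L[ℝ] ℂ).hasFDerivAt)
    rw [h2.fderiv]
    show ‖ps.symm (fderiv ℝ F (ph.symm z) (ph.symm w))‖ = ‖w‖
    rw [ps.symm.norm_map, hF3, ph.symm.norm_map]
  · intro z v hv
    obtain ⟨m, n, hmn, hs⟩ := hL v hv
    have h1 := hF4 (ph.symm z) m n hs
    have h2 : ph.symm (z + v) = ph.symm z +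
        (m * (X₁ • e + Y₁ • f) + n * (X₂ • f + Y₂ • (-e))) := by
      rw [map_add, hmn, zsmul_eq_mul, zsmul_eq_mul]
    show ps.symm (F (ph.symm (z + v))) = ps.symm (F (ph.symm z))
    rw [h2, h1]

end Pool.Agent.helper70.Tori
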