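import Pool.Agent.helper70.Tori.CornerArc

/-!
The symmetric arc (`N = 1`) and the straight arc.
-/

open MeasureTheory intervalIntegral Set Quaternion Filter
open scoped Topology ContDiff

namespace Pool.Agent.helper70.Tori

/-- conjugation by the unit imaginary quaternion `io u` -/
noncomputable def tu (u : ℂ) (q : Quaternion ℝ) : Quaternion ℝ := io u * q * (-io u)

lemma io_mul_self {u : ℂ} (hu : ‖u‖ = 1) : io u * io u = -1 := by
  have h1 : ‖io u‖ = 1 := by rw [norm_io, hu]
  have h2 := (norm_eq_one_iff _).1 h1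
  rw [star_io] at h2
  have : -(io u * io u) = 1 := by rw [← h2]; simp
  rw [← this]; simp

lemma tu_one {u : ℂ} (hu : ‖u‖ = 1) : tu u 1 = 1 := by
  simp [tu, io_mul_self hu]

lemma tu_mul {u : ℂ} (hu : ‖u‖ = 1) (p q : Quaternion ℝ) : tu u (p * q) = tu u p * tu u q := by
  simp only [tu]
  have : io u * p * -io u * (io u * q * -io u) = io u * p * (-(io u * io u)) * q * (-io u) := by
    noncomm_ring
  rw [this, io_mul_self hu]
  noncomm_ring

lemma tu_io_add {u v : ℂ} (hu : ‖u‖ = 1) (huv : ip u v = 0) (r t : ℝ) :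
    tu u (io (r • u + t • v)) = io (r • u - t • v) := by
  have h := sq_add_sq hu
  rw [ip] at huv
  have e1 : v.re = -(v.re * u.im - v.im * u.re) * (-u.im) := by
    have : v.re * (u.re ^ 2 + u.im ^ 2) = v.re := by rw [h, mul_one]
    linear_combination (-1 : ℝ) * this + u.re * huv
  have e2 : v.im = -(v.re * u.im - v.im * u.re) * u.re := by
    have : v.im * (u.re ^ 2 + u.im ^ 2) = v.im := by rw [h, mul_one]
    linear_combination (-1 : ℝ) * this + u.im * huv
  set k := v.re * u.im - v.im * u.re with hk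
  have hre : v.re = k * u.im := by rw [e1]; ring
  have him : v.im = -(k * u.re) := by rw [e2]; ring
  apply Quaternion.ext
  · rw [tu, Quaternion.re_mul]
    simp [hre, him]
  · rw [tu, Quaternion.imI_mul]
    simp [hre, him]
    linear_combination (r * u.re + t * (k * u.im)) * h - 2 * (t * k * u.im) * h
  · rw [tu, Quaternion.imJ_mul]
    simp [hre, him]
    linear_combination (r * u.im - t * (k * u.re)) * h + 2 * (t * k * u.re) * h
  · rw [tu, Quaternion.imK_mul]
    simp [hre, him]

lemma hasDerivAt_tu {u : ℂ} {c : ℝ → Quaternion ℝ} {c' : Quaternion ℝ} {s : ℝ}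
    (h : HasDerivAt c c' s) : HasDerivAt (fun s => tu u (c s)) (tu u c') s := by
  unfold tu
  exact (h.const_mul (io u)).mul_const (-io u)

/-- reflection symmetry -/
lemma cc_neg {w v u : ℂ} (hu : ‖u‖ = 1) (hw : w = ‖w‖ • u) (huv : ip u v = 0) (K τ s : ℝ) :
    cc w (-v) K τ s = tu u (cc w v K τ s) := by
  have h1 : cc w (-v) K τ = fun s => tu u (cc w v K τ s) := by
    apply ode_unique (continuous_io_ctl w (-v) K τ) _ (fun s => norm_ctl_le w (-v) K τ s)
      (cc_spec w (-v) K τ).der
    · intro s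
      have h2 := hasDerivAt_tu (u := u) ((cc_spec w v K τ).der s)
      refine h2.congr_deriv ?_
      rw [tu_mul hu]
      congr 1
      have e1 : ctl w v K τ s = ‖w‖ • u + (τ * prof K s) • v := by
        rw [ctl]; rw [← hw]
      have e2 : ctl w (-v) K τ s = ‖w‖ • u - (τ * prof K s) • v := by
        rw [ctl, ← hw]; module
      rw [e1, e2, tu_io_add hu huv]
    · rw [(cc_spec w (-v) K τ).zero, (cc_spec w v K τ).zero, tu_one hu]
  exact congrFun h1 s

/-- closed arcs from symmetric corners, `N = 1` -/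
theorem arc_of_sym {e f : ℂ} (hef : cr e f ≠ 0) {a b : ℂ}
    (ha : InC e f a) (hb : InC e f b) (hab : ‖a‖ = ‖b‖) (h1 : Real.pi < ‖a‖)
    (h2 : ‖a‖ < 2 * Real.pi) (h3 : ‖a + b‖ ≤ 2 * Real.pi) :
    Nonempty (SArc e f (a + b) 1) := by
  have hpi := Real.pi_pos
  set w := a + b with hw
  set v := a - b with hv
  have hw0 : w ≠ 0 := by
    obtain ⟨a₁, a₂, ha1, ha2, ha'⟩ := ha
    obtain ⟨b₁, b₂, hb1, hb2, hb'⟩ := hb
    intro h
    have h5 : Lx e f w = a₁ + b₁ := by
      rw [hw, ha', hb', map_add, Lx_apply hef, Lx_apply hef]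
    rw [h, map_zero] at h5
    linarith
  have hwn : 0 < ‖w‖ := norm_pos_iff.2 hw0
  set u : ℂ := (‖w‖⁻¹ : ℝ) • w with hu
  have hun : ‖u‖ = 1 := by
    rw [hu, norm_smul, norm_inv, norm_norm, inv_mul_cancel₀ hwn.ne']
  have hwu : w = ‖w‖ • u := by
    rw [hu, smul_smul, mul_inv_cancel₀ hwn.ne', one_smul]
  have hsqa : ‖a‖ ^ 2 = a.re ^ 2 + a.im ^ 2 := by
    rw [Complex.sq_norm, Complex.normSq_apply]; ring
  have hsqb : ‖b‖ ^ 2 = b.re ^ 2 + b.im ^ 2 := by
    rw [Complex.sq_norm, Complex.normSq_apply]; ring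
  have hsqw : ‖w‖ ^ 2 = w.re ^ 2 + w.im ^ 2 := by
    rw [Complex.sq_norm, Complex.normSq_apply]; ring
  have huv : ip u v = 0 := by
    have e1 : ip w v = 0 := by
      simp only [ip, hw, hv, Complex.add_re, Complex.sub_re, Complex.add_im, Complex.sub_im]
      rw [hab, hsqb] at hsqa
      linarith
    have e2 : ip u v = ‖w‖⁻¹ * ip w v := by
      simp only [ip, hu, Complex.smul_re, Complex.smul_im, smul_eq_mul]; ring
    rw [e2, e1, mul_zero]
  have hua : ip u a = ‖w‖ / 2 := by
    have e1 : ip w a = ‖w‖ ^ 2 / 2 := by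
      have : ip w (a - b) = 0 := by
        simp only [ip, hw, Complex.add_re, Complex.sub_re, Complex.add_im, Complex.sub_im]
        rw [hab, hsqb] at hsqa
        linarith
      have h6 : ip w a + ip w b = ‖w‖ ^ 2 := by
        rw [hsqw]
        simp only [ip, hw, Complex.add_re, Complex.add_im]; ring
      have h7 : ip w a - ip w b = 0 := by
        rw [← this]; simp only [ip, Complex.sub_re, Complex.sub_im]; ring
      linarith
    have e2 : ip u a = ‖w‖⁻¹ * ip w a := by
      simp only [ip, hu, Complex.smul_re, Complex.smul_im, smul_eq_mul]; ring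
    rw [e2, e1]
    field_simp
  have ea : (1/2 : ℝ) • (w + v) = a := by rw [hw, hv]; module
  have hwv : w + v ≠ 0 := by
    intro h
    rw [h, smul_zero] at ea
    exact ha.ne_zero hef ea.symm
  let X : Quaternion ℝ → ℝ := fun q => q.imI * u.re + q.imJ * u.im
  have hXc : Continuous X := by
    have h1 := Quaternion.continuous_imI
    have h2 := Quaternion.continuous_imJ
    fun_prop
  have hlim := tendsto_cc_half hwv
  rw [ea] at hlim
  have hlim' : Tendsto (fun K => X (cc w v K 1 (1/2))) atTop (𝓝 (X (ex a))) :=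
    (hXc.tendsto _).comp hlim
  have hXa : X (ex a) < 0 := by
    have e1 : X (ex a) = (Real.sin ‖a‖ / ‖a‖) * ip u a := by
      simp only [X, ex, ip]
      simp
      ring
    rw [e1, hua]
    have h5 : Real.sin ‖a‖ < 0 := by
      have : 0 < Real.sin (‖a‖ - Real.pi) :=
        Real.sin_pos_of_pos_of_lt_pi (by linarith) (by linarith)
      rw [Real.sin_sub_pi] at this
      linarith
    have h6 : 0 < ‖a‖ := by linarith
    apply mul_neg_of_neg_of_pos
    · exact div_neg_of_neg_of_pos h5 h6
    · positivity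
  obtain ⟨K, hK⟩ := (hlim'.eventually (gt_mem_nhds hXa)).exists
  have hzero : X (cc w v K 0 (1/2)) = Real.sin (‖w‖ / 2) := by
    have h := sol_const ‖w‖ u hun
    have e2 : (fun _ : ℝ => ‖w‖ • io u) = fun s => io (ctl w v K 0 s) := by
      funext s
      rw [← map_smul, ← hwu, ctl]
      simp
    rw [e2] at h
    have h4 : cc w v K 0 = _ := ode_unique (continuous_io_ctl w v K 0) _
      (fun s => norm_ctl_le w v K 0 s) (cc_spec w v K 0).der h.der
      (by rw [(cc_spec w v K 0).zero]; exact h.zero.symm)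
    rw [h4]
    have h5 := sq_add_sq hun
    simp only [X]
    simp
    rw [show ‖w‖ * 2⁻¹ = ‖w‖ / 2 by ring]
    linear_combination (Real.sin (‖w‖ / 2)) * h5
  have hcont : Continuous (fun τ => X (cc w v K τ (1/2))) :=
    hXc.comp (continuous_cc_tau w v K (by norm_num))
  have h0 : 0 ≤ X (cc w v K 0 (1/2)) := by
    rw [hzero]
    exact Real.sin_nonneg_of_nonneg_of_le_pi (by positivity) (by linarith)
  obtain ⟨τ, ⟨hτ0, hτ1⟩, hτ⟩ := intermediate_value_Icc' (zero_le_one' ℝ) hcont.continuousOn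
    (⟨hK.le, h0⟩ : (0:ℝ) ∈ Icc (X (cc w v K 1 (1/2))) (X (cc w v K 0 (1/2))))
  have hone : cc w v K τ 1 = 1 := by
    rw [cc_one, cc_neg hun hwu huv]
    set h := cc w v K τ (1/2) with hh
    have hX : h.imI * u.re + h.imJ * u.im = 0 := hτ
    have hn : ‖h‖ = 1 := norm_cc w v K τ (1/2)
    set g := h * io u with hg
    have hgn : ‖g‖ = 1 := by rw [hg, norm_mul, hn, norm_io, hun, mul_one]
    have hgre : g.re = 0 := by
      rw [hg, Quaternion.re_mul]
      simp only [io_re, io_imI, io_imJ, io_imK]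
      linarith
    have hgg : g * g = -1 := by
      have h2 := (norm_eq_one_iff g).1 hgn
      have h3 : star g = -g := by
        apply Quaternion.ext <;> simp [hgre]
      rw [h3] at h2
      have : -(g * g) = 1 := by rw [← h2]; simp
      rw [← this]; simp
    have : h * tu u h = -(g * g) := by
      rw [tu, hg]; noncomm_ring
    rw [this, hgg, neg_neg]
  refine ⟨{
    T := 1
    u := ctl w v K τ
    P := PP w v K τ
    c := cc w v K τ
    hu := contDiff_ctl w v K τ
    hcone := ctl_cone ha hb hτ0 hτ1 K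
    hP := hasDerivAt_PP w v K τ
    hc := cc_spec w v K τ
    hPT := fun s => PP_add_one w v K τ s
    hcT := ?_ }⟩
  intro s
  rw [cc_add_one, hone, one_mul, one_smul]

/-- straight arcs -/
theorem arc_straight {e f : ℂ} (hef : cr e f ≠ 0) {V : ℂ} (hV : InC e f V) {k : ℕ}
    (hk : ‖V‖ = k * Real.pi) : Nonempty (SArc e f V ((-1) ^ k)) := by
  have hV0 := hV.ne_zero hef
  have hVn : 0 < ‖V‖ := norm_pos_iff.2 hV0
  set u : ℂ := (‖V‖⁻¹ : ℝ) • V with hu
  have hun : ‖u‖ = 1 := by
    rw [hu, norm_smul, norm_inv, norm_norm, inv_mul_cancel₀ hVn.ne']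
  have hVu : V = ‖V‖ • u := by
    rw [hu, smul_smul, mul_inv_cancel₀ hVn.ne', one_smul]
  have h := sol_const ‖V‖ u hun
  have e2 : (fun _ : ℝ => ‖V‖ • io u) = fun _ => io V := by
    funext s
    rw [← map_smul, ← hVu]
  rw [e2] at h
  obtain ⟨x, y, hx, hy, hxy⟩ := hV
  refine ⟨{
    T := 1
    u := fun _ => V
    P := fun s => s • V
    c := _
    hu := contDiff_const
    hcone := ⟨min x y, lt_min hx hy, fun s => ⟨x, y, min_le_left _ _, min_le_right _ _, hxy⟩⟩
    hP := fun s => by
      have := (hasDerivAt_id s).smul_const V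
      simpa using this
    hc := h
    hPT := fun s => by module
    hcT := ?_ }⟩
  intro s
  have e1 : ‖V‖ * (s + 1) = ‖V‖ * s + k * Real.pi := by rw [hk]; ring
  simp only [e1]
  rw [Real.cos_add_nat_mul_pi, Real.sin_add_nat_mul_pi]
  generalize ((-1 : ℝ) ^ k) = r
  apply Quaternion.ext <;> simp <;> ring

end Pool.Agent.helper70.Tori
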